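import Mathlib

/-! The product forcing: partial functions, and the sequence of cardinals. -/

set_option linter.unusedVariables false

namespace Pool.Agent.MBG.PC

open Cardinal

/-- Partial functions from `X` to `Y` with less than `θ` elements, as sets of pairs. -/
def PF (X Y : Type) (θ : Cardinal.{0}) : Type :=
  {s : Set (X × Y) // (∀ x y y', (x, y) ∈ s → (x, y') ∈ s → y = y') ∧ #s < θ}

/-- The larger partial function is the stronger condition. -/
instance (X Y : Type) (θ : Cardinal.{0}) : Preorder (PF X Y θ) where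
  le p q := q.1 ⊆ p.1
  le_refl p := Set.Subset.refl _
  le_trans p q r h1 h2 := Set.Subset.trans h2 h1

theorem PF.le_def {X Y : Type} {θ : Cardinal.{0}} {p q : PF X Y θ} : p ≤ q ↔ q.1 ⊆ p.1 := Iff.rfl

/-- The boards: a set of cardinality `m⁺`. -/
abbrev Th (c : Cardinal.{0}) : Type := (Order.succ c).ord.ToType

/-- The well order of type `(2 ^ m⁺)⁺`. -/
abbrev TT (c : Cardinal.{0}) : Type := (Order.succ ((2 : Cardinal.{0}) ^ Order.succ c)).ord.ToType

/-- The conditions at one coordinate. -/
abbrev Q (c : Cardinal.{0}) : Type := PF (TT c × ℕ × Th c) (Th c) (Order.succ c)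

/-- The full product. -/
abbrev PP (m : Ordinal.{0} → Cardinal.{0}) : Type 1 := ∀ i : Ordinal.{0}, Q (m i)

/-- The properties of the sequence of cardinals. -/
structure Good (m : Ordinal.{0} → Cardinal.{0}) : Prop where
  inf : ∀ i, ℵ₀ ≤ m i
  card : ∀ i, i.card ≤ m i
  pow : ∀ i k, i < k → (2 : Cardinal.{0}) ^ Order.succ (m i) ≤ m k
  cut : ∀ i, ∃ (W : Type) (f : PP m → W), #W ≤ m i ∧ ∀ p q, f p = f q → ∀ k < i, p k = q k

/-- The recursion for the sequence of cardinals. -/
noncomputable def mrec (i : Ordinal.{0}) (f : ∀ j : Ordinal.{0}, j < i → Cardinal.{0}) :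
    Cardinal.{0} :=
  ℵ₀ + i.card + (Cardinal.sum fun j : i.ToType =>
      (2 : Cardinal.{0}) ^ Order.succ (f (Ordinal.typein (α := i.ToType) (· < ·) j)
        (Ordinal.typein_lt_self j))) +
    #(∀ j : i.ToType, Q (f (Ordinal.typein (α := i.ToType) (· < ·) j)
        (Ordinal.typein_lt_self j)))

theorem exists_good : ∃ m : Ordinal.{0} → Cardinal.{0}, Good m := by
  let m : Ordinal.{0} → Cardinal.{0} :=
    WellFounded.fix (r := (· < ·)) (wellFounded_lt (α := Ordinal.{0})) mrec
  have hm : ∀ i, m i = mrec i (fun j _ => m j) := fun i =>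
    WellFounded.fix_eq (r := (· < ·)) (wellFounded_lt (α := Ordinal.{0})) mrec i
  refine ⟨m, ?_, ?_, ?_, ?_⟩
  · intro i
    rw [hm i, mrec, add_assoc, add_assoc]
    exact self_le_add_right _ _
  · intro i
    rw [hm i, mrec, add_comm (ℵ₀ : Cardinal.{0}), add_assoc, add_assoc]
    exact self_le_add_right _ _
  · intro i k hik
    rw [hm k, mrec]
    refine le_trans ?_ (self_le_add_right _ _)
    refine le_trans ?_ (self_le_add_left _ _)
    obtain ⟨j, hj⟩ : ∃ j : k.ToType, Ordinal.typein (α := k.ToType) (· < ·) j = i :=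
      Ordinal.typein_surj (α := k.ToType) (· < ·) (by rw [Ordinal.type_toType]; exact hik)
    have := Cardinal.le_sum (fun j : k.ToType =>
      (2 : Cardinal.{0}) ^ Order.succ (m (Ordinal.typein (α := k.ToType) (· < ·) j))) j
    simp only [hj] at this
    exact this
  · intro i
    refine ⟨∀ j : i.ToType, Q (m (Ordinal.typein (α := i.ToType) (· < ·) j)),
      fun p j => p _, ?_, ?_⟩
    · rw [hm i, mrec]
      exact self_le_add_left _ _
    · intro p q hpq k hk
      obtain ⟨j, hj⟩ : ∃ j : i.ToType, Ordinal.typein (α := i.ToType) (· < ·) j = k :=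
        Ordinal.typein_surj (α := i.ToType) (· < ·) (by rw [Ordinal.type_toType]; exact hk)
      subst hj
      exact congrFun hpq j

namespace Good

variable {m : Ordinal.{0} → Cardinal.{0}} (hm : Good m)
include hm

theorem lt {i k : Ordinal.{0}} (h : i < k) : m i < m k :=
  (Order.lt_succ (m i)).trans_le ((Cardinal.cantor _).le.trans (hm.pow i k h))

theorem mono {i k : Ordinal.{0}} (h : i ≤ k) : m i ≤ m k := by
  rcases h.eq_or_lt with rfl | h
  · exact le_rfl
  · exact (hm.lt h).le

theorem cof (c : Cardinal.{0}) : ∃ i, c ≤ m i :=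
  ⟨c.ord, by simpa using hm.card c.ord⟩

end Good

end Pool.Agent.MBG.PC
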