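import Pool.Agent.MBG.C1

/-! The product forcing: cutting, glueing, fusion. -/

set_option linter.unusedVariables false

namespace Pool.Agent.MBG.PC

open Cardinal

universe u v

/-- The empty partial function. -/
def PF.emp {X Y : Type} {θ : Cardinal.{0}} (h : ℵ₀ ≤ θ) : PF X Y θ :=
  ⟨∅, fun _ _ _ h => absurd h (Set.notMem_empty _), by
    rw [Cardinal.mk_eq_zero]; exact (aleph0_pos).trans_le h⟩

/-- The fusion lemma. -/
theorem fusion {P : Type u} {J : Type v} (le : P → P → Prop) (hrefl : ∀ p, le p p)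
    (htrans : ∀ p q r, le p q → le q r → le p r)
    (hcl : ∀ (S : Set J) (f : J → P) (p : P), (∀ a ∈ S, ∀ b ∈ S, le (f a) (f b) ∨ le (f b) (f a)) →
      (∀ a ∈ S, le (f a) p) → ∃ q, le q p ∧ ∀ a ∈ S, le q (f a))
    (D : J → P → Prop) (hdown : ∀ j p q, le q p → D j p → D j q)
    (hdense : ∀ j p, ∃ q, le q p ∧ D j q) (p : P) : ∃ q, le q p ∧ ∀ j, D j q := by
  classical
  let r : J → J → Prop := WellOrderingRel
  have hwf : WellFounded r := IsWellFounded.wf
  -- one step
  have hstep : ∀ (j : J) (g : ∀ j', r j' j → P), ∃ q : P,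
      (∀ f : J → P, (∀ j' (h : r j' j), g j' h = f j') →
        (∀ a, r a j → ∀ b, r b j → le (f a) (f b) ∨ le (f b) (f a)) →
        (∀ a, r a j → le (f a) p) → (le q p ∧ D j q ∧ ∀ a, r a j → le q (f a))) := by
    intro j g
    by_cases hg : ∃ f : J → P, (∀ j' (h : r j' j), g j' h = f j') ∧
        (∀ a, r a j → ∀ b, r b j → le (f a) (f b) ∨ le (f b) (f a)) ∧
        (∀ a, r a j → le (f a) p)
    · obtain ⟨f, hf1, hf2, hf3⟩ := hg
      obtain ⟨q, hq1, hq2⟩ := hcl {a | r a j} f p hf2 hf3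
      obtain ⟨q', hq'1, hq'2⟩ := hdense j q
      refine ⟨q', fun f' hf' _ _ => ⟨htrans _ _ _ hq'1 hq1, hq'2, fun a ha => ?_⟩⟩
      rw [← hf' a ha, hf1 a ha]
      exact htrans _ _ _ hq'1 (hq2 a ha)
    · refine ⟨p, fun f hf1 hf2 hf3 => absurd ⟨f, hf1, hf2, hf3⟩ hg⟩
  choose step hstep using hstep
  let f : J → P := hwf.fix step
  have hf : ∀ j, f j = step j (fun j' _ => f j') := fun j => hwf.fix_eq step j
  have key : ∀ j, le (f j) p ∧ D j (f j) ∧ ∀ a, r a j → le (f j) (f a) := by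
    intro j
    induction j using hwf.induction with
    | _ j ih =>
      have := hstep j (fun j' _ => f j') f (fun _ _ => rfl) (by
        intro a ha b hb
        rcases trichotomous_of r a b with h | h | h
        · exact Or.inr ((ih b hb).2.2 a h)
        · subst h; exact Or.inl (hrefl _)
        · exact Or.inl ((ih a ha).2.2 b h)) (fun a ha => (ih a ha).1)
      rw [← hf j] at this
      exact this
  obtain ⟨q, hq1, hq2⟩ := hcl Set.univ f p (by
    intro a _ b _
    rcases trichotomous_of r a b with h | h | h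
    · exact Or.inr ((key b).2.2 a h)
    · subst h; exact Or.inl (hrefl _)
    · exact Or.inl ((key a).2.2 b h)) (fun a _ => (key a).1)
  exact ⟨q, hq1, fun j => hdown j _ _ (hq2 j trivial) (key j).2.1⟩

section

variable {m : Ordinal.{0} → Cardinal.{0}}

theorem PF.le_aleph {c : Cardinal.{0}} (h : ℵ₀ ≤ c) : ℵ₀ ≤ Order.succ c := h.trans (Order.le_succ c)

/-- The condition at one coordinate which is the union of a chain. -/
theorem PF.exists_union {X Y J : Type} {c : Cardinal.{0}} (hc : ℵ₀ ≤ c) (hJ : #J ≤ c) (S : Set J)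
    (f : J → PF X Y (Order.succ c)) (p : PF X Y (Order.succ c))
    (hch : ∀ a ∈ S, ∀ b ∈ S, f a ≤ f b ∨ f b ≤ f a) (hp : ∀ a ∈ S, f a ≤ p) :
    ∃ q, q ≤ p ∧ ∀ a ∈ S, q ≤ f a := by
  refine ⟨⟨p.1 ∪ ⋃ a : S, (f a).1, ?_, ?_⟩, Set.subset_union_left, fun a ha => ?_⟩
  · intro x y y' h1 h2
    rw [Set.mem_union, Set.mem_iUnion] at h1 h2
    have key : ∀ a ∈ S, ∀ b ∈ S, (x, y) ∈ (f a).1 → (x, y') ∈ (f b).1 → y = y' := by
      intro a ha b hb hya hyb
      rcases hch a ha b hb with h | h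
      · exact (f a).2.1 x y y' hya (h hyb)
      · exact (f b).2.1 x y y' (h hya) hyb
    rcases h1 with h1 | ⟨⟨a, ha⟩, h1⟩
    · rcases h2 with h2 | ⟨⟨b, hb⟩, h2⟩
      · exact p.2.1 x y y' h1 h2
      · exact key b hb b hb (hp b hb h1) h2
    · rcases h2 with h2 | ⟨⟨b, hb⟩, h2⟩
      · exact key a ha a ha h1 (hp a ha h2)
      · exact key a ha b hb h1 h2
  · have hreg : (Order.succ c).IsRegular := Cardinal.isRegular_succ hc
    have h1 : #(⋃ a : S, (f a).1 : Set (X × Y)) < Order.succ c := by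
      refine Cardinal.card_iUnion_lt_iff_forall_of_isRegular hreg ?_ |>.2 fun a => (f a).2.2
      exact (Cardinal.mk_set_le S).trans_lt (hJ.trans_lt (Order.lt_succ c))
    exact (Cardinal.mk_union_le _ _).trans_lt
      (Cardinal.add_lt_of_lt (hc.trans (Order.le_succ c)) p.2.2 h1)
  · exact (Set.subset_iUnion (fun a : S => (f a).1) ⟨a, ha⟩).trans Set.subset_union_right

/-- The order that fixes the coordinates below `i`. -/
def Le (i : Ordinal.{0}) (p q : PP m) : Prop := p ≤ q ∧ ∀ k < i, p k = q k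

theorem Le.refl (i : Ordinal.{0}) (p : PP m) : Le i p p := ⟨le_rfl, fun _ _ => rfl⟩

theorem Le.trans {i : Ordinal.{0}} {p q r : PP m} (h1 : Le i p q) (h2 : Le i q r) : Le i p r :=
  ⟨h1.1.trans h2.1, fun k hk => (h1.2 k hk).trans (h2.2 k hk)⟩

/-- Lemma D. -/
theorem lemD (hm : Good m) {J : Type} (i : Ordinal.{0}) (hJ : #J ≤ m i) (D : J → PP m → Prop)
    (hdown : ∀ j p q, q ≤ p → D j p → D j q)
    (hdense : ∀ j p, ∃ q, Le i q p ∧ D j q) (p : PP m) : ∃ q, Le i q p ∧ ∀ j, D j q := by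
  classical
  refine fusion (Le i) (Le.refl i) (fun _ _ _ => Le.trans) ?_ D
    (fun j p q h => hdown j p q h.1) hdense p
  intro S f p hch hp
  have : ∀ k, i ≤ k → ∃ q : Q (m k), q ≤ p k ∧ ∀ a ∈ S, q ≤ f a k := by
    intro k hk
    refine PF.exists_union (hm.inf k) (hJ.trans (hm.mono hk)) S (fun a => f a k) (p k) ?_ ?_
    · intro a ha b hb
      exact (hch a ha b hb).imp (fun h => h.1 k) (fun h => h.1 k)
    · intro a ha
      exact (hp a ha).1 k
  choose q hq1 hq2 using this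
  refine ⟨fun k => if h : i ≤ k then q k h else p k, ⟨fun k => ?_, fun k hk => ?_⟩, fun a ha =>
    ⟨fun k => ?_, fun k hk => ?_⟩⟩
  · by_cases hk : i ≤ k
    · simp only [dif_pos hk]; exact hq1 k hk
    · simp only [dif_neg hk]; exact le_rfl
  · simp only [dif_neg hk.not_ge]
  · by_cases hk : i ≤ k
    · simp only [dif_pos hk]; exact hq2 k hk a ha
    · simp only [dif_neg hk]
      rw [(hp a ha).2 k (not_le.1 hk)]
  · simp only [dif_neg hk.not_ge]
    rw [(hp a ha).2 k hk]

end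

end Pool.Agent.MBG.PC
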