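import Pool.Agent.MBG.U1

/-! Tools for the Boolean valued models, in all universes: ordinals, `ω`, forcing. -/

set_option linter.unusedVariables false
set_option linter.unusedSectionVars false
set_option linter.unreachableTactic false
set_option linter.unusedTactic false

namespace Pool.Agent.MBG

open BVM BName SetModel MP63050e

universe u v w

section closure

variable {B : Type u} [CompleteBooleanAlgebra B] {J : Type*} {H : J → Ult B} {Γ : Type v}
  [BSet B Γ] {f g k e r s t u : Γ → BName B}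

theorem bp_isTrans (hf : BTerm f) : BPred H (fun j γ => MP63050e.IsTrans (E (H j)) (Mdl.mk _ (f γ))) := by
  unfold MP63050e.IsTrans
  refine BPred.all (BPred.all (BPred.imp ?_ (BPred.imp ?_ ?_)))
  · exact BPred.mem BTerm.snd.fst hf.fst.fst
  · exact BPred.mem BTerm.snd BTerm.snd.fst
  · exact BPred.mem BTerm.snd hf.fst.fst

theorem bp_isOrd (hf : BTerm f) : BPred H (fun j γ => IsOrd (E (H j)) (Mdl.mk _ (f γ))) := by
  unfold IsOrd
  refine BPred.and (bp_isTrans hf) ?_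
  refine BPred.all (BPred.imp ?_ ?_)
  · exact BPred.mem BTerm.snd hf.fst
  · exact bp_isTrans BTerm.snd

theorem bp_isSucc (hf : BTerm f) (hg : BTerm g) :
    BPred H (fun j γ => IsSucc (E (H j)) (Mdl.mk _ (f γ)) (Mdl.mk _ (g γ))) := by
  unfold IsSucc
  refine BPred.all (BPred.iff ?_ (BPred.or ?_ ?_))
  · exact BPred.mem BTerm.snd hf.fst
  · exact BPred.mem BTerm.snd hg.fst
  · exact BPred.eq BTerm.snd hg.fst

theorem bp_injects (hf : BTerm f) (hg : BTerm g) :
    BPred H (fun j γ => Injects (E (H j)) (Mdl.mk _ (f γ)) (Mdl.mk _ (g γ))) := by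
  unfold Injects
  refine BPred.ex (BPred.and ?_ ?_)
  · exact bp_isFun BTerm.snd hf.fst hg.fst
  · refine BPred.all (BPred.all (BPred.all (BPred.imp ?_ (BPred.imp ?_ (BPred.imp ?_
      (BPred.imp ?_ ?_))))))
    · exact BPred.mem BTerm.snd.fst.fst hf.fst.fst.fst.fst
    · exact BPred.mem BTerm.snd.fst hf.fst.fst.fst.fst
    · exact bp_has2 BTerm.snd.fst.fst.fst BTerm.snd.fst.fst BTerm.snd
    · exact bp_has2 BTerm.snd.fst.fst.fst BTerm.snd.fst BTerm.snd
    · exact BPred.eq BTerm.snd.fst.fst BTerm.snd.fst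

theorem bp_eq_pr {f1 f2 f3 : Γ → BName B} (h1 : BTerm f1) (h2 : BTerm f2) (h3 : BTerm f3) :
    BPred H (fun j γ => Mdl.mk (H j) (f1 γ) = pr (H j) (Mdl.mk _ (f2 γ)) (Mdl.mk _ (f3 γ))) :=
  BPred.eq h1 (bterm_opair h2 h3)

end closure

section ord

variable {B : Type u} [CompleteBooleanAlgebra B] {α : Type u} [LinearOrder α] [WellFoundedLT α]

theorem E_of_full {ι : Type u} (e : ι → BName B) (h : Ult B) (i : ι) :
    E h (Mdl.mk h (e i)) (Mdl.mk h (BName.mk ι e (fun _ => ⊤))) := by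
  rw [E_mk, bmem_full]
  refine h.iSup_of _ i ?_
  rw [beq_refl]; exact h.top'

theorem vN_subset_vNset (h : Ult B) (a : α) (z : Mdl h) (hz : E h z (Mdl.mk h (vN a))) :
    E h z (Mdl.mk h (vNset B α)) := by
  rw [vN_eq] at hz
  refine forall_full (P := fun h z => E h z (Mdl.mk h (vNset B α))) _ ?_ ⊤ ?_ h h.top' z hz
  · exact BPred.mem BTerm.id (BTerm.const _)
  · intro h' _ b
    exact E_vN_vNset b.1

theorem isTrans_vN (h : Ult B) (a : α) : MP63050e.IsTrans (E h) (Mdl.mk h (vN a)) := by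
  intro y z hy hz
  rw [vN_eq] at hy
  refine forall_full (P := fun h y => ∀ z, E h z y → E h z (Mdl.mk h (vN a))) _ ?_ ⊤ ?_ h h.top'
    y hy z hz
  · refine BPred.all (BPred.imp ?_ ?_)
    · exact BPred.mem BTerm.snd BTerm.id.fst
    · exact BPred.mem BTerm.snd (BTerm.const _)
  · intro h' _ b z hz
    rw [vN_eq] at hz
    refine forall_full (P := fun h z => E h z (Mdl.mk h (vN a))) _ ?_ ⊤ ?_ h' h'.top' z hz
    · exact BPred.mem BTerm.id (BTerm.const _)
    · intro h'' _ c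
      exact E_vN_vN.2 (c.2.trans b.2)

theorem isOrd_vN (h : Ult B) (a : α) : IsOrd (E h) (Mdl.mk h (vN a)) := by
  refine ⟨isTrans_vN h a, fun y hy => ?_⟩
  rw [vN_eq] at hy
  refine forall_full (P := fun h y => MP63050e.IsTrans (E h) y) _ ?_ ⊤ ?_ h h.top' y hy
  · exact bp_isTrans BTerm.id
  · intro h' _ b
    exact isTrans_vN h' b.1

theorem isOrd_vNset (h : Ult B) : IsOrd (E h) (Mdl.mk h (vNset B α)) := by
  constructor
  · intro y z hy hz
    refine forall_full (P := fun h y => ∀ z, E h z y → E h z (Mdl.mk h (vNset B α))) _ ?_ ⊤ ?_ h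
      h.top' y hy z hz
    · refine BPred.all (BPred.imp ?_ ?_)
      · exact BPred.mem BTerm.snd BTerm.id.fst
      · exact BPred.mem BTerm.snd (BTerm.const _)
    · intro h' _ b z hz
      exact vN_subset_vNset h' b z hz
  · intro y hy
    refine forall_full (P := fun h y => MP63050e.IsTrans (E h) y) _ ?_ ⊤ ?_ h h.top' y hy
    · exact bp_isTrans BTerm.id
    · intro h' _ b
      exact isTrans_vN h' b

end ord

section omega

variable {B : Type u} [CompleteBooleanAlgebra B]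

/-- The name of a natural number. -/
noncomputable def nN (B : Type u) [CompleteBooleanAlgebra B] (n : ℕ) : BName B :=
  vN (ULift.up n : ULift.{u} ℕ)

/-- The name of `ω`. -/
noncomputable def omN (B : Type u) [CompleteBooleanAlgebra B] : BName B := vNset B (ULift.{u} ℕ)

theorem ulift_lt {a b : ULift.{u} ℕ} : a < b ↔ a.down < b.down := Iff.rfl

theorem E_nN_nN {h : Ult B} {m n : ℕ} : E h (Mdl.mk h (nN B m)) (Mdl.mk h (nN B n)) ↔ m < n := by
  unfold nN
  rw [E_vN_vN, ulift_lt]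

theorem nN_inj {h : Ult B} {m n : ℕ} : Mdl.mk h (nN B m) = Mdl.mk h (nN B n) ↔ m = n := by
  unfold nN
  rw [vN_inj, ULift.up_inj]

theorem beq_nN_ne {m n : ℕ} (hmn : m ≠ n) : beq (nN B m) (nN B n) = ⊥ :=
  beq_vN_ne fun h => hmn (ULift.up_inj.1 h)

theorem E_nN_om {h : Ult B} (n : ℕ) : E h (Mdl.mk h (nN B n)) (Mdl.mk h (omN B)) :=
  E_vN_vNset _

theorem isEmp_nN_zero (h : Ult B) : IsEmp (E h) (Mdl.mk h (nN B 0)) := by
  intro z hz
  obtain ⟨z, rfl⟩ := z.exists_rep
  rw [E_mk, nN, bmem_vN] at hz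
  refine h.bot (h.mono (iSup_le fun c => ?_) hz)
  exact absurd (ulift_lt.1 c.2) (Nat.not_lt_zero _)

theorem E_nN_succ {h : Ult B} (n : ℕ) (z : Mdl h) :
    E h z (Mdl.mk h (nN B (n + 1))) ↔ E h z (Mdl.mk h (nN B n)) ∨ z = Mdl.mk h (nN B n) := by
  obtain ⟨z, rfl⟩ := z.exists_rep
  rw [E_mk, E_mk, Mdl.mk_eq, ← h.sup]
  have : bmem z (nN B (n + 1)) = bmem z (nN B n) ⊔ beq z (nN B n) := by
    unfold nN
    rw [bmem_vN, bmem_vN]
    apply le_antisymm
    · refine iSup_le fun c => ?_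
      have hc : c.1.down < n + 1 := ulift_lt.1 c.2
      rcases Nat.lt_succ_iff_lt_or_eq.1 hc with h1 | h1
      · exact le_sup_of_le_left (le_iSup (fun b : {b : ULift.{u} ℕ // b < ULift.up n} =>
          beq z (vN b.1)) ⟨c.1, ulift_lt.2 h1⟩)
      · have h2 : c.1 = ULift.up n := ULift.ext _ _ h1
        rw [h2]; exact le_sup_right
    · refine sup_le (iSup_le fun c => ?_) ?_
      · exact le_iSup (fun b : {b : ULift.{u} ℕ // b < ULift.up (n + 1)} => beq z (vN b.1))
          ⟨c.1, ulift_lt.2 ((ulift_lt.1 c.2).trans (Nat.lt_succ_self n))⟩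
      · exact le_iSup (fun b : {b : ULift.{u} ℕ // b < ULift.up (n + 1)} => beq z (vN b.1))
          ⟨ULift.up n, ulift_lt.2 (Nat.lt_succ_self n)⟩
  rw [this]

/-- To prove a uniformly definable statement for all elements of `ω` it suffices to consider the
standard ones. -/
theorem forall_om {P : (h : Ult B) → Mdl h → Prop}
    (hP : BPred (fun h : Ult B => h) (fun h (x : BName B) => P h (Mdl.mk h x))) (b : B)
    (H : ∀ h : Ult B, h.V b → ∀ n, P h (Mdl.mk h (nN B n))) :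
    ∀ h : Ult B, h.V b → ∀ z, E h z (Mdl.mk h (omN B)) → P h z :=
  forall_full (P := P) (fun n : ULift.{u} ℕ => (vN n : BName B)) hP b
    (fun h hb n => H h hb n.down)

theorem isOmega (h : Ult B) : IsOmega (E h) (Mdl.mk h (omN B)) := by
  refine ⟨isOrd_vNset h, ⟨Mdl.mk h (nN B 0), isEmp_nN_zero h, E_nN_om 0⟩, ?_, ?_⟩
  · refine forall_om (P := fun h x => ∃ y, E h y (Mdl.mk h (omN B)) ∧ IsSucc (E h) y x) ?_ ⊤ ?_
      h h.top'
    · refine BPred.ex (BPred.and ?_ ?_)
      · exact BPred.mem BTerm.snd (BTerm.const _)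
      · exact bp_isSucc BTerm.snd BTerm.id.fst
    · intro h' _ n
      exact ⟨Mdl.mk h' (nN B (n + 1)), E_nN_om _, fun z => E_nN_succ n z⟩
  · refine forall_om (P := fun h x => IsEmp (E h) x ∨
      ∃ y, E h y (Mdl.mk h (omN B)) ∧ IsSucc (E h) x y) ?_ ⊤ ?_ h h.top'
    · refine BPred.or (bp_isEmp BTerm.id) (BPred.ex (BPred.and ?_ ?_))
      · exact BPred.mem BTerm.snd (BTerm.const _)
      · exact bp_isSucc BTerm.id.fst BTerm.snd
    · intro h' _ n
      cases n with
      | zero => exact Or.inl (isEmp_nN_zero h')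
      | succ n => exact Or.inr ⟨Mdl.mk h' (nN B n), E_nN_om _, fun z => E_nN_succ n z⟩

end omega

section names

variable {B : Type u} [CompleteBooleanAlgebra B]

theorem ne_of_beq_bot {a b : BName B} (hab : beq a b = ⊥) (h : Ult B) :
    Mdl.mk h a ≠ Mdl.mk h b := by
  intro H
  rw [Mdl.mk_eq, hab] at H
  exact h.bot H

theorem bmem_inj {ι : Type u} {t : ι → BName B} (ht : ∀ x y, x ≠ y → beq (t x) (t y) = ⊥)
    (c : ι → B) (x : ι) : bmem (t x) (BName.mk ι t c) = c x := by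
  rw [bmem_mk]
  apply le_antisymm
  · refine iSup_le fun y => ?_
    by_cases hxy : x = y
    · subst hxy; exact inf_le_left
    · rw [ht x y hxy, inf_bot_eq]; exact bot_le
  · refine le_iSup_of_le x ?_
    rw [beq_refl, inf_top_eq]

theorem beq_opair (a b c d : BName B) : beq (opair a b) (opair c d) = beq a c ⊓ beq b d := by
  refine le_antisymm (Ult.le_iff.2 fun h hh => ?_) (Ult.le_iff.2 fun h hh => ?_)
  · rw [h.inf']
    rw [← Mdl.mk_eq, ← pr_mk, ← pr_mk, pr_inj, Mdl.mk_eq, Mdl.mk_eq] at hh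
    exact hh
  · rw [h.inf'] at hh
    rw [← Mdl.mk_eq, ← pr_mk, ← pr_mk, pr_inj, Mdl.mk_eq, Mdl.mk_eq]
    exact hh

theorem E_full_of {ι : Type u} {t : ι → BName B} {c : ι → B} {h : Ult B} {z : Mdl h}
    (hz : E h z (Mdl.mk h (BName.mk ι t c))) :
    E h z (Mdl.mk h (BName.mk ι t (fun _ => ⊤))) := by
  obtain ⟨z, rfl⟩ := z.exists_rep
  rw [E_mk] at hz ⊢
  refine h.mono ?_ hz
  rw [bmem_mk, bmem_mk]
  exact iSup_mono fun i => inf_le_inf_right _ le_top

/-- If the supremum of `g i` holds and `g i` implies `P (e i)`, then some element of the full name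
has the property `P`. -/
theorem exists_of_iSup {ι : Type u} (e : ι → BName B) (g : ι → B)
    {P : (h : Ult B) → Mdl h → Prop}
    (hP : BPred (fun h : Ult B => h) (fun h (x : BName B) => P h (Mdl.mk h x))) {b : B}
    (H : ∀ h : Ult B, h.V b → ∀ i, h.V (g i) → P h (Mdl.mk h (e i))) {h : Ult B}
    (hb : h.V b) (hg : h.V (⨆ i, g i)) :
    ∃ z, E h z (Mdl.mk h (BName.mk ι e (fun _ => ⊤))) ∧ P h z := by
  obtain ⟨φ, hφ, hφ'⟩ := hP
  have h1 : ∀ i, b ⊓ g i ≤ φ (e i) := fun i => Ult.le_iff.2 fun h hh =>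
    (hφ' h (e i)).1 (H h ((h.inf' _ _).1 hh).1 i ((h.inf' _ _).1 hh).2)
  have hext : Ext φ := hφ
  have h2 : b ⊓ (⨆ i, g i) ≤ ⨆ z, bmem z (BName.mk ι e (fun _ => ⊤)) ⊓ φ z := by
    rw [bex_eq hext, inf_iSup_eq]
    exact iSup_mono fun i => le_inf le_top (h1 i)
  have h3 := h.mono h2 ((h.inf' _ _).2 ⟨hb, hg⟩)
  have hext2 : Ext (fun z => bmem z (BName.mk ι e (fun _ => ⊤)) ⊓ φ z) := by
    intro x y
    exact le_inf ((inf_le_inf_left _ inf_le_left).trans (bmem_congr_left _ _ _))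
      ((inf_le_inf_left _ inf_le_right).trans (hext _ _))
  rw [h.exists_iff hext2] at h3
  obtain ⟨z, hz⟩ := h3
  rw [h.inf'] at hz
  exact ⟨Mdl.mk h z, hz.1, (hφ' h z).2 hz.2⟩

/-- Double induction over the elements of full names. -/
theorem forall_full2 {ι ι' : Type u} (e : ι → BName B) (e' : ι' → BName B)
    {P : (h : Ult B) → Mdl h → Mdl h → Prop}
    (hP : BPred (fun h : Ult B => h)
      (fun h (p : BName B × BName B) => P h (Mdl.mk h p.1) (Mdl.mk h p.2)))
    (H : ∀ (h : Ult B) i j, P h (Mdl.mk h (e i)) (Mdl.mk h (e' j))) :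
    ∀ (h : Ult B) x y, E h x (Mdl.mk h (BName.mk ι e (fun _ => ⊤))) →
      E h y (Mdl.mk h (BName.mk ι' e' (fun _ => ⊤))) → P h x y := by
  intro h x y hx hy
  refine forall_full (P := fun h x => ∀ y, E h y (Mdl.mk h (BName.mk ι' e' (fun _ => ⊤))) →
    P h x y) e ?_ ⊤ ?_ h h.top' x hx y hy
  · exact BPred.all (BPred.imp (BPred.mem BTerm.snd (BTerm.const _)) hP)
  · intro h' _ i y hy
    refine forall_full (P := fun h y => P h (Mdl.mk h (e i)) y) e' ?_ ⊤ ?_ h' h'.top' y hy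
    · refine BPred.comp (Δ := BName B) hP (f := fun y => (e i, y)) ?_
      intro p q
      refine le_inf ?_ le_rfl
      change _ ≤ beq (e i) (e i)
      rw [beq_refl]; exact le_top
    · intro h'' _ j
      exact H h'' i j

/-- To prove a clopen statement under a supremum it suffices to prove it under each member. -/
theorem of_iSup {P : Ult B → Prop} (hP : Clop P) {ι : Sort*} (c : ι → B)
    (H : ∀ j (h : Ult B), h.V (c j) → P h) {h : Ult B} (hc : h.V (⨆ j, c j)) : P h := by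
  obtain ⟨b, hb⟩ := hP
  rw [hb]
  refine h.mono (iSup_le fun j => Ult.le_iff.2 fun h' hh => ?_) hc
  exact (hb h').1 (H j h' hh)

theorem eq_of_isEmp {h : Ult B} {e e' : Mdl h} (he : IsEmp (E h) e) (he' : IsEmp (E h) e') :
    e = e' := by
  apply Mdl.ext
  intro z
  exact ⟨fun H => absurd H (he z), fun H => absurd H (he' z)⟩

theorem eq_of_isSucc {h : Ult B} {e e' x : Mdl h} (he : IsSucc (E h) e x)
    (he' : IsSucc (E h) e' x) : e = e' := by
  apply Mdl.ext
  intro z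
  rw [he z, he' z]

end names

/-! ### Forcing -/

/-- A dense embedding of a preorder. -/
structure DenseEmb {P : Type w} [Preorder P] {B : Type v} [CompleteBooleanAlgebra B]
    (em : P → B) : Prop where
  ne_bot : ∀ p, em p ≠ ⊥
  mono : ∀ p q, p ≤ q → em p ≤ em q
  dense : ∀ b, b ≠ ⊥ → ∃ p, em p ≤ b
  compat : ∀ p q, em p ⊓ em q ≠ ⊥ → ∃ r, r ≤ p ∧ r ≤ q

namespace DenseEmb

variable {P : Type w} [Preorder P] {B : Type v} [CompleteBooleanAlgebra B] {em : P → B}

theorem le_of (h : DenseEmb em) {b c : B}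
    (H : ∀ p, em p ≤ b → ∃ q, q ≤ p ∧ em q ≤ c) : b ≤ c := by
  by_contra hbc
  have hne : b ⊓ cᶜ ≠ ⊥ := by
    intro h0
    apply hbc
    have := le_compl_iff_disjoint_right.2 (disjoint_iff.2 h0)
    rwa [compl_compl] at this
  obtain ⟨p, hp⟩ := h.dense _ hne
  obtain ⟨q, hqp, hqc⟩ := H p (hp.trans inf_le_left)
  apply h.ne_bot q
  rw [← le_bot_iff]
  have : em q ≤ c ⊓ cᶜ := le_inf hqc ((h.mono _ _ hqp).trans (hp.trans inf_le_right))
  rwa [inf_compl_self] at this

theorem exists_of_inf (h : DenseEmb em) {p : P} {b : B} (hb : em p ⊓ b ≠ ⊥) :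
    ∃ q, q ≤ p ∧ em q ≤ b := by
  obtain ⟨s, hs⟩ := h.dense _ hb
  obtain ⟨r, hrp, hrs⟩ := h.compat p s (by
    have : em s ≤ em p ⊓ em s := le_inf (hs.trans inf_le_left) le_rfl
    intro h0
    rw [h0, le_bot_iff] at this
    exact h.ne_bot s this)
  exact ⟨r, hrp, (h.mono _ _ hrs).trans (hs.trans inf_le_right)⟩

theorem exists_iSup (h : DenseEmb em) {ι : Sort*} {f : ι → B} {p : P} (hp : em p ≤ ⨆ i, f i) :
    ∃ i q, q ≤ p ∧ em q ≤ f i := by
  have : ∃ i, em p ⊓ f i ≠ ⊥ := by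
    by_contra hne
    push Not at hne
    apply h.ne_bot p
    rw [← inf_eq_left.2 hp, inf_iSup_eq]
    simp [hne]
  obtain ⟨i, hi⟩ := this
  obtain ⟨q, hq, hq'⟩ := h.exists_of_inf hi
  exact ⟨i, q, hq, hq'⟩

theorem disjoint_of (h : DenseEmb em) {p q : P} (hpq : ¬ ∃ r, r ≤ p ∧ r ≤ q) :
    Disjoint (em p) (em q) := by
  rw [disjoint_iff]
  by_contra hne
  exact hpq (h.compat p q hne)

end DenseEmb

section tools

variable {B : Type u} [CompleteBooleanAlgebra B]

open Classical in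
/-- The truth value of a proposition. -/
noncomputable def tv (B : Type u) [CompleteBooleanAlgebra B] (p : Prop) : B := if p then ⊤ else ⊥

theorem V_tv (h : Ult B) (p : Prop) : h.V (tv B p) ↔ p := by
  unfold tv
  by_cases hp : p
  · simp only [hp, if_true, iff_true]; exact h.top'
  · simp only [hp, if_false, iff_false]; exact h.bot

/-- A well-ordering of a type. -/
@[reducible]
noncomputable def woOrder (α : Type u) : LinearOrder α := by
  classical exact linearOrderOfSTO WellOrderingRel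

theorem woOrder_wf (α : Type u) : @WellFoundedLT α (woOrder α).toLT :=
  inferInstanceAs (IsWellFounded α WellOrderingRel)

/-- The standard names of the elements of a type: pairwise different von Neumann ordinals. -/
noncomputable def nm {α : Type u} (a : α) : BName B := @vN B _ α (woOrder α) (woOrder_wf α) a

theorem nm_ne {α : Type u} {a b : α} (hab : a ≠ b) : beq (nm a : BName B) (nm b) = ⊥ :=
  @beq_vN_ne B _ α (woOrder α) (woOrder_wf α) a b hab

theorem nm_inj {α : Type u} {a b : α} {h : Ult B} : Mdl.mk h (nm a) = Mdl.mk h (nm b) ↔ a = b := by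
  constructor
  · intro H
    by_contra hab
    rw [Mdl.mk_eq, nm_ne hab] at H
    exact h.bot H
  · rintro rfl; rfl

/-- The name of a subset of (the check name of) a type. -/
noncomputable def chk {α : Type u} (c : α → B) : BName B := BName.mk α nm c

theorem E_chk {α : Type u} {c : α → B} {h : Ult B} {a : α} :
    E h (Mdl.mk h (nm a)) (Mdl.mk h (chk c)) ↔ h.V (c a) := by
  rw [E_mk, chk, bmem_inj (fun x y hxy => nm_ne hxy)]

/-- The name of a binary relation. -/
noncomputable def rel {α β : Type u} (c : α → β → B) : BName B :=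
  BName.mk (α × β) (fun p => opair (nm p.1) (nm p.2)) (fun p => c p.1 p.2)

theorem has_rel {α β : Type u} {c : α → β → B} {h : Ult B} {a : α} {b : β} :
    Has (E h) (Mdl.mk h (rel c)) [Mdl.mk h (nm a), Mdl.mk h (nm b)] ↔ h.V (c a b) := by
  rw [has_iff (by simp)]
  change h.V (bmem (opair (nm a) (nm b)) (rel c)) ↔ _
  have hinj : ∀ x y : α × β, x ≠ y → beq (opair (nm x.1) (nm x.2) : BName B)
      (opair (nm y.1) (nm y.2)) = ⊥ := by
    intro x y hxy
    rw [beq_opair]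
    by_cases h1 : x.1 = y.1
    · have h2 : x.2 ≠ y.2 := fun h2 => hxy (Prod.ext h1 h2)
      rw [nm_ne h2, inf_bot_eq]
    · rw [nm_ne h1, bot_inf_eq]
  have := bmem_inj hinj (fun p => c p.1 p.2) (a, b)
  simp only at this
  rw [rel, this]

/-! ### Quantifiers over names -/

/-- Induction principle for membership in a name. -/
theorem forall_mem {ι : Type u} (e : ι → BName B) (c : ι → B) {P : (h : Ult B) → Mdl h → Prop}
    (hP : BPred (fun h : Ult B => h) (fun h (x : BName B) => P h (Mdl.mk h x)))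
    {Q : Ult B → Prop} (hQ : Clop Q)
    (H : ∀ h : Ult B, Q h → ∀ i, h.V (c i) → P h (Mdl.mk h (e i))) :
    ∀ h : Ult B, Q h → ∀ z, E h z (Mdl.mk h (BName.mk ι e c)) → P h z := by
  obtain ⟨φ, hφ, hφ'⟩ := hP
  obtain ⟨b, hb⟩ := hQ
  have h1 : ∀ i, b ⊓ c i ≤ φ (e i) := fun i => Ult.le_iff.2 fun h hh =>
    (hφ' h (e i)).1 (H h ((hb h).2 ((h.inf' _ _).1 hh).1) i ((h.inf' _ _).1 hh).2)
  intro h hQ z hz
  obtain ⟨z, rfl⟩ := z.exists_rep
  refine (hφ' h z).2 ?_
  rw [E_mk, bmem_mk] at hz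
  have h2 : b ⊓ (⨆ i, c i ⊓ beq z (e i)) ≤ φ z := by
    rw [inf_iSup_eq]
    refine iSup_le fun i => le_trans ?_ (hφ (e i) z)
    change _ ≤ beq (e i) z ⊓ φ (e i)
    rw [beq_symm (e i) z]
    refine le_inf (inf_le_right.trans inf_le_right) (le_trans ?_ (h1 i))
    exact le_inf inf_le_left (inf_le_right.trans inf_le_left)
  exact h.mono h2 ((h.inf' _ _).2 ⟨(hb h).1 hQ, hz⟩)

theorem clop_true : Clop (fun _ : Ult B => True) := ⟨⊤, fun h => ⟨fun _ => h.top', fun _ => trivial⟩⟩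

theorem clop_V (b : B) : Clop (fun h : Ult B => h.V b) := ⟨b, fun _ => Iff.rfl⟩

theorem bp_V {Γ : Type*} [BSet B Γ] (b : B) :
    BPred (fun h : Ult B => h) (fun h (_ : Γ) => h.V b) :=
  ⟨fun _ => b, fun _ _ => inf_le_right, fun _ _ => Iff.rfl⟩

theorem Clop.and {P Q : Ult B → Prop} (hP : Clop P) (hQ : Clop Q) : Clop (fun h => P h ∧ Q h) := by
  obtain ⟨a, ha⟩ := hP
  obtain ⟨b, hb⟩ := hQ
  exact ⟨a ⊓ b, fun h => (and_congr (ha h) (hb h)).trans (h.inf' a b).symm⟩

theorem Clop.not {P : Ult B → Prop} (hP : Clop P) : Clop (fun h => ¬ P h) := by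
  obtain ⟨a, ha⟩ := hP
  exact ⟨aᶜ, fun h => (not_congr (ha h)).trans (h.compl' a).symm⟩

/-- Membership in a name, without assumption. -/
theorem forall_mem' {ι : Type u} (e : ι → BName B) (c : ι → B) {P : (h : Ult B) → Mdl h → Prop}
    (hP : BPred (fun h : Ult B => h) (fun h (x : BName B) => P h (Mdl.mk h x)))
    (H : ∀ h : Ult B, ∀ i, h.V (c i) → P h (Mdl.mk h (e i))) (h : Ult B) (z : Mdl h)
    (hz : E h z (Mdl.mk h (BName.mk ι e c))) : P h z :=
  forall_mem e c hP clop_true (fun h _ => H h) h trivial z hz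

/-- Elements of `rel c` are pairs. -/
theorem mem_rel {α β : Type u} {c : α → β → B} {h : Ult B} {p : Mdl h}
    (hp : E h p (Mdl.mk h (rel c))) : ∃ x y, p = pr h x y ∧
      E h x (Mdl.mk h (chk (fun _ : α => (⊤ : B)))) ∧
      E h y (Mdl.mk h (chk (fun _ : β => (⊤ : B)))) := by
  refine forall_mem' (P := fun h p => ∃ x y, p = pr h x y ∧
      E h x (Mdl.mk h (chk (fun _ : α => (⊤ : B)))) ∧
      E h y (Mdl.mk h (chk (fun _ : β => (⊤ : B))))) (fun p : α × β => opair (nm p.1) (nm p.2))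
      _ ?_ ?_ h p hp
  · refine BPred.ex (BPred.ex (BPred.and ?_ (BPred.and ?_ ?_)))
    · exact BPred.eq BTerm.id.fst.fst (bterm_opair BTerm.snd.fst BTerm.snd)
    · exact BPred.mem BTerm.snd.fst (BTerm.const _)
    · exact BPred.mem BTerm.snd (BTerm.const _)
  · intro h i _
    exact ⟨_, _, rfl, E_chk.2 h.top', E_chk.2 h.top'⟩

theorem has_rel_mem {α β : Type u} {c : α → β → B} {h : Ult B} {x y : Mdl h}
    (hxy : Has (E h) (Mdl.mk h (rel c)) [x, y]) :
      E h x (Mdl.mk h (chk (fun _ : α => (⊤ : B)))) ∧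
      E h y (Mdl.mk h (chk (fun _ : β => (⊤ : B)))) := by
  rw [has_iff (by simp)] at hxy
  obtain ⟨x', y', h1, h2, h3⟩ := mem_rel hxy
  obtain ⟨rfl, rfl⟩ := pr_inj.1 (show pr h x y = pr h x' y' from h1)
  exact ⟨h2, h3⟩

/-- The maximum principle. -/
theorem exists_wit {P : (h : Ult B) → Mdl h → Prop}
    (hP : BPred (fun h : Ult B => h) (fun h (x : BName B) => P h (Mdl.mk h x)))
    {Q : Ult B → Prop} (H : ∀ h : Ult B, Q h → ∃ z, P h z) :
    ∃ z : BName B, ∀ h : Ult B, Q h → P h (Mdl.mk h z) := by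
  obtain ⟨φ, hφ, hφ'⟩ := hP
  obtain ⟨z, hz⟩ := exists_max (B := B) (φ := φ) hφ
  refine ⟨z, fun h hQ => ?_⟩
  obtain ⟨x, hx⟩ := H h hQ
  obtain ⟨x, rfl⟩ := x.exists_rep
  refine (hφ' h z).2 ?_
  rw [hz]
  exact h.iSup_of φ x ((hφ' h x).1 hx)

/-! ### Forcing -/

section forcing

variable {P : Type u} [Preorder P] {em : P → B}

/-- The condition `p` forces `Q`. -/
def Fo (em : P → B) (p : P) (Q : Ult B → Prop) : Prop := ∀ h : Ult B, h.V (em p) → Q h

theorem Fo.mono (hem : DenseEmb em) {p q : P} (hqp : q ≤ p) {Q : Ult B → Prop}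
    (h : Fo em p Q) : Fo em q Q := fun h' hq => h h' (h'.mono (hem.mono _ _ hqp) hq)

theorem Fo.imp {p : P} {Q R : Ult B → Prop} (h : Fo em p Q) (H : ∀ h, Q h → R h) : Fo em p R :=
  fun h' hp => H h' (h h' hp)

theorem Fo.and {p : P} {Q R : Ult B → Prop} (h : Fo em p Q) (h' : Fo em p R) :
    Fo em p (fun h => Q h ∧ R h) := fun k hk => ⟨h k hk, h' k hk⟩

theorem Fo.const (hem : DenseEmb em) {p : P} {φ : Prop} (h : Fo em p (fun _ => φ)) : φ := by
  obtain ⟨k, hk⟩ := Ult.exists_of_ne_bot (hem.ne_bot p)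
  exact h k hk

theorem Fo.false (hem : DenseEmb em) {p : P} (h : Fo em p (fun _ => False)) : False := h.const hem

/-- Density. -/
theorem fo_of_dense (hem : DenseEmb em) {Q : Ult B → Prop} (hQ : Clop Q) {p : P}
    (H : ∀ q, q ≤ p → ∃ r, r ≤ q ∧ Fo em r Q) : Fo em p Q := by
  obtain ⟨b, hb⟩ := hQ
  have h1 : em p ≤ b := by
    by_contra hne
    have h2 : em p ⊓ bᶜ ≠ ⊥ := by
      intro h0
      apply hne
      have := le_compl_iff_disjoint_right.2 (disjoint_iff.2 h0)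
      rwa [compl_compl] at this
    obtain ⟨q, hqp, hq⟩ := hem.exists_of_inf h2
    obtain ⟨r, hrq, hr⟩ := H q hqp
    obtain ⟨k, hk⟩ := Ult.exists_of_ne_bot (hem.ne_bot r)
    have h3 := k.mono ((hem.mono _ _ hrq).trans hq) hk
    rw [k.compl'] at h3
    exact h3 ((hb k).1 (hr k hk))
  exact fun h hp => (hb h).2 (h.mono h1 hp)

/-- To prove an implication in all models, it suffices to consider the conditions which force
the assumption. -/
theorem imp_of_fo (hem : DenseEmb em) {Q R : Ult B → Prop} (hQ : Clop Q) (hR : Clop R)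
    (H : ∀ p, Fo em p Q → ∃ q, q ≤ p ∧ Fo em q R) : ∀ h, Q h → R h := by
  obtain ⟨a, ha⟩ := hQ
  obtain ⟨b, hb⟩ := hR
  have h1 : a ≤ b := by
    refine hem.le_of fun p hp => ?_
    obtain ⟨q, hqp, hq⟩ := H p fun h hh => (ha h).2 (h.mono hp hh)
    exact ⟨q, hqp, Ult.le_iff.2 fun h hh => (hb h).1 (hq h hh)⟩
  exact fun h hQ => (hb h).2 (h.mono h1 ((ha h).1 hQ))

/-- Deciding a statement. -/
theorem decide_fo (hem : DenseEmb em) {Q : Ult B → Prop} (hQ : Clop Q) (p : P) :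
    ∃ q, q ≤ p ∧ (Fo em q Q ∨ Fo em q (fun h => ¬ Q h)) := by
  obtain ⟨b, hb⟩ := hQ
  by_cases h1 : em p ⊓ b = ⊥
  · refine ⟨p, le_rfl, Or.inr fun h hp hQ => ?_⟩
    have := (h.inf' _ _).2 ⟨hp, (hb h).1 hQ⟩
    rw [h1] at this
    exact h.bot this
  · obtain ⟨q, hqp, hq⟩ := hem.exists_of_inf h1
    exact ⟨q, hqp, Or.inl fun h hh => (hb h).2 (h.mono hq hh)⟩

/-- Deciding an element of a supremum. -/
theorem decide_iSup (hem : DenseEmb em) {ι : Sort*} {c : ι → B} {p : P}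
    (H : Fo em p (fun h => h.V (⨆ i, c i))) : ∃ q, q ≤ p ∧ ∃ i, Fo em q (fun h => h.V (c i)) := by
  obtain ⟨i, q, hqp, hq⟩ := hem.exists_iSup (Ult.le_iff.2 H)
  exact ⟨q, hqp, i, fun h hh => h.mono hq hh⟩

/-- Deciding an element of a name. -/
theorem decide_mem (hem : DenseEmb em) {ι : Type u} (e : ι → BName B) (c : ι → B)
    {Q : (h : Ult B) → Mdl h → Prop}
    (hQ : BPred (fun h : Ult B => h) (fun h (x : BName B) => Q h (Mdl.mk h x))) {p : P}
    (H : Fo em p (fun h => ∃ z, E h z (Mdl.mk h (BName.mk ι e c)) ∧ Q h z)) :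
    ∃ q, q ≤ p ∧ ∃ i, Fo em q (fun h => h.V (c i) ∧ Q h (Mdl.mk h (e i))) := by
  obtain ⟨φ, hφ, hφ'⟩ := hQ
  have h1 : em p ≤ ⨆ i, c i ⊓ φ (e i) := by
    refine le_trans ?_ (bex_eq (φ := φ) hφ (BName.mk ι e c)).le
    rw [Ult.le_iff]
    intro h hp
    obtain ⟨z, hz, hQz⟩ := H h hp
    obtain ⟨z, rfl⟩ := z.exists_rep
    refine h.iSup_of (fun z => bmem z (BName.mk ι e c) ⊓ φ z) z ?_
    rw [h.inf']
    exact ⟨hz, (hφ' h z).1 hQz⟩
  obtain ⟨i, q, hqp, hq⟩ := hem.exists_iSup h1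
  refine ⟨q, hqp, i, fun h hh => ?_⟩
  have h2 := h.mono hq hh
  rw [h.inf'] at h2
  exact ⟨h2.1, (hφ' h (e i)).2 h2.2⟩

end forcing

end tools

end Pool.Agent.MBG
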