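import Pool.Agent.MBG.C2
import Pool.Agent.MBG.U2

/-! The product forcing: glueing, Lemma K and Lemma R. -/

set_option linter.unusedVariables false

namespace Pool.Agent.MBG.PC

open Cardinal

universe u v

section

variable {m : Ordinal.{0} → Cardinal.{0}}

/-- The empty condition at one coordinate. -/
def emp1 (c : Cardinal.{0}) : Q c :=
  ⟨∅, fun _ _ _ h => absurd h (Set.notMem_empty _), by
    rw [Cardinal.mk_eq_zero]
    exact Order.lt_succ_of_le (by simp)⟩

theorem le_emp1 {c : Cardinal.{0}} (q : Q c) : q ≤ emp1 c := Set.empty_subset _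

/-- The coordinates below `i`. -/
noncomputable def cut (i : Ordinal.{0}) (p : PP m) : PP m := fun k =>
  open Classical in if k < i then p k else emp1 (m k)

/-- The coordinates below `i` from `w`, the others from `p`. -/
noncomputable def glue (i : Ordinal.{0}) (w p : PP m) : PP m := fun k =>
  open Classical in if k < i then w k else p k

variable {i k : Ordinal.{0}} {p q w r : PP m}

theorem cut_lt (h : k < i) : cut i p k = p k := if_pos h
theorem cut_not (h : ¬ k < i) : cut i p k = emp1 (m k) := if_neg h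
theorem glue_lt (h : k < i) : glue i w p k = w k := if_pos h
theorem glue_not (h : ¬ k < i) : glue i w p k = p k := if_neg h

theorem le_cut : p ≤ cut i p := fun k => by
  by_cases h : k < i
  · rw [cut_lt h]
  · rw [cut_not h]; exact le_emp1 _

theorem cut_mono (h : p ≤ q) : cut i p ≤ cut i q := fun k => by
  by_cases hk : k < i
  · rw [cut_lt hk, cut_lt hk]; exact h k
  · rw [cut_not hk, cut_not hk]

theorem cut_cut : cut i (cut i p) = cut i p := funext fun k => by
  by_cases hk : k < i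
  · rw [cut_lt hk]
  · rw [cut_not hk, cut_not hk]

theorem le_cut_iff : r ≤ cut i p ↔ ∀ k < i, r k ≤ p k := by
  constructor
  · intro h k hk
    have := h k
    rwa [cut_lt hk] at this
  · intro h k
    by_cases hk : k < i
    · rw [cut_lt hk]; exact h k hk
    · rw [cut_not hk]; exact le_emp1 _

theorem le_glue_iff : r ≤ glue i w p ↔ (∀ k < i, r k ≤ w k) ∧ ∀ k, ¬ k < i → r k ≤ p k := by
  constructor
  · intro h
    refine ⟨fun k hk => ?_, fun k hk => ?_⟩
    · have := h k
      rwa [glue_lt hk] at this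
    · have := h k
      rwa [glue_not hk] at this
  · rintro ⟨h1, h2⟩ k
    by_cases hk : k < i
    · rw [glue_lt hk]; exact h1 k hk
    · rw [glue_not hk]; exact h2 k hk

theorem glue_le (h1 : ∀ k < i, w k ≤ r k) (h2 : ∀ k, ¬ k < i → p k ≤ r k) : glue i w p ≤ r :=
  fun k => by
  by_cases hk : k < i
  · rw [glue_lt hk]; exact h1 k hk
  · rw [glue_not hk]; exact h2 k hk

theorem glue_congr {w w' p : PP m} (h : ∀ k < i, w k = w' k) : glue i w p = glue i w' p :=
  funext fun k => by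
  by_cases hk : k < i
  · rw [glue_lt hk, glue_lt hk, h k hk]
  · rw [glue_not hk, glue_not hk]

theorem glue_mono {w p p' : PP m} (h : p ≤ p') : glue i w p ≤ glue i w p' :=
  glue_le (fun k hk => by rw [glue_lt hk]) (fun k hk => by rw [glue_not hk]; exact h k)

/-- The small set of representatives of the initial parts. -/
theorem exists_rep (hm : Good m) (i : Ordinal.{0}) : ∃ (W : Type) (f : PP m → W) (e : W → PP m),
    #W ≤ m i ∧ ∀ p, ∀ k < i, e (f p) k = p k := by
  classical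
  obtain ⟨W, f, hW, hf⟩ := hm.cut i
  refine ⟨W, f, fun w => if h : ∃ p, f p = w then Classical.choose h else fun k => emp1 (m k), hW,
    fun p k hk => ?_⟩
  have h : ∃ q, f q = f p := ⟨p, rfl⟩
  simp only [dif_pos h]
  exact hf _ _ (Classical.choose_spec h) k hk

/-- Lemma K. -/
theorem lemK (hm : Good m) {J : Type} (i : Ordinal.{0}) (hJ : #J ≤ m i) (D : J → PP m → Prop)
    (hdown : ∀ j p q, q ≤ p → D j p → D j q) (hdense : ∀ j p, ∃ q, q ≤ p ∧ D j q) (p : PP m) :
    ∃ q, Le i q p ∧ ∀ j (w : PP m), ∃ w', w' ≤ w ∧ D j (glue i w' q) := by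
  obtain ⟨W, f, e, hW, hfe⟩ := exists_rep hm i
  have hc : #(J × W) ≤ m i := by
    rw [Cardinal.mk_prod, Cardinal.lift_id, Cardinal.lift_id]
    exact (mul_le_mul' hJ hW).trans (Cardinal.mul_eq_self (hm.inf i)).le
  obtain ⟨q, hq1, hq2⟩ := lemD hm i hc
    (fun (x : J × W) q => ∃ w', w' ≤ e x.2 ∧ D x.1 (glue i w' q))
    (by
      rintro x q q' hq ⟨w', hw', h⟩
      exact ⟨w', hw', hdown _ _ _ (glue_mono hq) h⟩)
    (by
      rintro ⟨j, w⟩ q
      obtain ⟨r, hr1, hr2⟩ := hdense j (glue i (e w) q)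
      rw [le_glue_iff] at hr1
      refine ⟨glue i q r, ⟨glue_le (fun k hk => le_rfl) hr1.2, fun k hk => glue_lt hk⟩,
        glue i r (e w), glue_le hr1.1 (fun k hk => le_rfl), ?_⟩
      have : glue i (glue i r (e w)) (glue i q r) = r := funext fun k => by
        by_cases hk : k < i
        · rw [glue_lt hk, glue_lt hk]
        · rw [glue_not hk, glue_not hk]
      change D j (glue i (glue i r (e w)) (glue i q r))
      rw [this]; exact hr2) p
  refine ⟨q, hq1, fun j w => ?_⟩
  obtain ⟨w', hw', h⟩ := hq2 (j, f w)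
  refine ⟨glue i w' w, glue_le (fun k hk => ?_) (fun k hk => le_rfl), ?_⟩
  · exact (hw' k).trans (hfe w k hk).le
  · rw [glue_congr (w' := w') (fun k hk => glue_lt hk)]
    exact h

end

section

variable {m : Ordinal.{0} → Cardinal.{0}} {B : Type v} [CompleteBooleanAlgebra B] {em : PP m → B}

theorem exists_ext (hem : DenseEmb em) {r q : PP m} {b : B} (h : em r ≤ em q ⊓ b) :
    ∃ r', r' ≤ r ∧ r' ≤ q := by
  obtain ⟨s, hs, hs'⟩ := hem.compat r q (by
    rw [inf_eq_left.2 (h.trans inf_le_left)]; exact hem.ne_bot r)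
  exact ⟨s, hs, hs'⟩

/-- (C1). -/
theorem c1 (hm : Good m) (hem : DenseEmb em) {J : Type} (D : J → PP m → Prop)
    (hdown : ∀ j p q, q ≤ p → D j p → D j q) (hdense : ∀ j p, ∃ q, q ≤ p ∧ D j q) (p : PP m) :
    ∃ q, q ≤ p ∧ ∃ (W : Type) (v : J → W → PP m), (∀ j t, D j (v j t)) ∧
      ∀ j, em q ≤ ⨆ t, em (v j t) := by
  obtain ⟨i, hi⟩ := hm.cof #J
  obtain ⟨W, f, e, hW, hfe⟩ := exists_rep hm i
  obtain ⟨q, hq1, hq2⟩ := lemK hm i hi D hdown hdense p
  choose w' hw'1 hw'2 using fun (j : J) (t : W) => hq2 j (e t)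
  refine ⟨q, hq1.1, W, fun j t => glue i (w' j t) q, hw'2, fun j => ?_⟩
  refine hem.le_of fun r hr => ?_
  obtain ⟨r0, hr0, hr0'⟩ := exists_ext hem (r := r) (q := q) (b := ⊤)
    (by rw [inf_top_eq]; exact hr)
  refine ⟨glue i (w' j (f r0)) r0, ?_, ?_⟩
  · refine (glue_le (fun k hk => ?_) (fun k hk => le_rfl)).trans hr0
    exact (hw'1 j (f r0) k).trans (hfe r0 k hk).le
  · refine le_trans ?_ (le_iSup (fun t => em (glue i (w' j t) q)) (f r0))
    exact hem.mono _ _ (glue_mono hr0')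

/-- Lemma R. -/
theorem lemR (hm : Good m) (hem : DenseEmb em) {J : Type} (i : Ordinal.{0}) (hJ : #J ≤ m i)
    {W : Type} {f : PP m → W} {e : W → PP m} (hfe : ∀ p, ∀ k < i, e (f p) k = p k)
    (b : J → B) (p : PP m) : ∃ q, q ≤ p ∧ ∃ x : J → Set W, ∀ j,
      em q ⊓ b j = em q ⊓ ⨆ w : x j, em (cut i (e w)) := by
  obtain ⟨q, hq1, hq2⟩ := lemK hm i hJ (fun j r => em r ≤ b j ∨ em r ≤ (b j)ᶜ)
    (fun j p q hqp h => h.imp (hem.mono _ _ hqp).trans (hem.mono _ _ hqp).trans)
    (fun j p => by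
      by_cases h : em p ⊓ b j = ⊥
      · exact ⟨p, le_rfl, Or.inr (le_compl_iff_disjoint_right.2 (disjoint_iff.2 h))⟩
      · obtain ⟨q, hq, hq'⟩ := hem.exists_of_inf h
        exact ⟨q, hq, Or.inl hq'⟩) p
  refine ⟨q, hq1.1, fun j => {w | em (glue i (e w) q) ≤ b j}, fun j => ?_⟩
  refine le_antisymm (le_inf inf_le_left ?_) (le_inf inf_le_left ?_)
  · refine hem.le_of fun r hr => ?_
    obtain ⟨r0, hr0, hr0'⟩ := exists_ext hem hr
    obtain ⟨w', hw', hD⟩ := hq2 j r0
    have h1 : glue i w' r0 ≤ r0 := glue_le (fun k hk => hw' k) (fun k hk => le_rfl)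
    have h2 : glue i w' r0 ≤ glue i w' q := glue_mono hr0'
    have h3 : em (glue i w' q) ≤ b j := by
      rcases hD with hD | hD
      · exact hD
      · exfalso
        apply hem.ne_bot (glue i w' r0)
        rw [← le_bot_iff, ← inf_compl_self (b j)]
        exact le_inf ((hem.mono _ _ (h1.trans hr0)).trans (hr.trans inf_le_right))
          ((hem.mono _ _ h2).trans hD)
    refine ⟨glue i w' r0, h1.trans hr0, ?_⟩
    have h4 : f w' ∈ {w | em (glue i (e w) q) ≤ b j} := by
      change em (glue i (e (f w')) q) ≤ b j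
      rw [glue_congr (w' := w') (hfe w')]
      exact h3
    refine le_trans ?_ (le_iSup (fun w : {w | em (glue i (e w) q) ≤ b j} => em (cut i (e w)))
      ⟨f w', h4⟩)
    refine hem.mono _ _ (le_cut_iff.2 fun k hk => ?_)
    rw [glue_lt hk]
    exact (hfe w' k hk).ge
  · rw [inf_iSup_eq]
    refine iSup_le fun w => ?_
    obtain ⟨w, hw⟩ := w
    have hw' : em (glue i (e w) q) ≤ b j := hw
    refine hem.le_of fun r hr => ?_
    obtain ⟨r0, hr0, hr0'⟩ := exists_ext hem hr
    have hr1 : em r0 ≤ em (cut i (e w)) ⊓ ⊤ := by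
      rw [inf_top_eq]
      exact (hem.mono _ _ hr0).trans (hr.trans inf_le_right)
    obtain ⟨r1, hr1, hr1'⟩ := exists_ext hem hr1
    refine ⟨r1, hr1.trans hr0, (hem.mono _ _ ?_).trans hw'⟩
    exact le_glue_iff.2 ⟨le_cut_iff.1 hr1', fun k hk => (hr1.trans hr0') k⟩

/-- (C2). -/
theorem c2 (hm : Good m) (hem : DenseEmb em) (J : Type) : ∃ (X : Type) (fam : X → J → B),
    ∀ (f : J → B) (p : PP m), ∃ q, q ≤ p ∧ ∃ x : X, ∀ j, em q ⊓ f j = em q ⊓ fam x j := by
  obtain ⟨i, hi⟩ := hm.cof #J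
  obtain ⟨W, f, e, hW, hfe⟩ := exists_rep hm i
  refine ⟨J → Set W, fun x j => ⨆ w : x j, em (cut i (e w)), fun b p => ?_⟩
  exact lemR hm hem i hi hfe b p

end

end Pool.Agent.MBG.PC
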