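import Pool.Agent.MBG.C3

/-! The product forcing: supports, Lemma C and Lemma S. -/

set_option linter.unusedVariables false

namespace Pool.Agent.MBG.PC

open Cardinal

universe u v w

/-! ### The complete subalgebra of a projection -/

section

variable {P : Type u} [Preorder P] {B : Type v} [CompleteBooleanAlgebra B]

/-- A projection of a preorder. -/
structure Proj (π : P → P) : Prop where
  le : ∀ p, p ≤ π p
  mono : ∀ p q, p ≤ q → π p ≤ π q
  idem : ∀ p, π (π p) ≤ π p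
  amal : ∀ p r, r ≤ π p → ∃ u, u ≤ p ∧ u ≤ π r

/-- The truth values that depend only on the part `π p` of the conditions. -/
def Sub (em : P → B) (π : P → P) : Set B := {b | ∀ p, em p ≤ b → em (π p) ≤ b}

variable {em : P → B} (hem : DenseEmb em) {π : P → P} (hπ : Proj π)

include hem

theorem exists_ext' {r q : P} (h : em r ≤ em q) : ∃ r', r' ≤ r ∧ r' ≤ q := by
  obtain ⟨s, hs, hs'⟩ := hem.compat r q (by
    rw [inf_eq_left.2 h]; exact hem.ne_bot r)
  exact ⟨s, hs, hs'⟩

theorem exists_not_le {q : P} {b : B} (h : ¬ em q ≤ b) : ∃ r, r ≤ q ∧ em r ≤ bᶜ := by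
  apply hem.exists_of_inf
  intro h0
  apply h
  have := le_compl_iff_disjoint_right.2 (disjoint_iff.2 h0)
  rwa [compl_compl] at this

theorem ne_of_le {p r : P} {b c : B} (hb : em p ≤ b) (hc : em r ≤ c) (hbc : b ⊓ c = ⊥)
    {u : P} (hu : u ≤ p) (hu' : u ≤ r) : False := by
  apply hem.ne_bot u
  rw [← le_bot_iff, ← hbc]
  exact le_inf ((hem.mono _ _ hu).trans hb) ((hem.mono _ _ hu').trans hc)

include hπ

theorem Sub.compl {b : B} (hb : b ∈ Sub em π) : bᶜ ∈ Sub em π := by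
  intro p hp
  by_contra hne
  obtain ⟨r, hr, hr'⟩ := exists_not_le hem hne
  rw [compl_compl] at hr'
  obtain ⟨u, hu, hu'⟩ := hπ.amal p r hr
  exact ne_of_le hem (hb r hr') hp (inf_compl_self _) hu' hu

theorem Sub.csup {S : Set B} (hS : S ⊆ Sub em π) : sSup S ∈ Sub em π := by
  intro p hp
  by_contra hne
  obtain ⟨r, hr, hr'⟩ := exists_not_le hem hne
  obtain ⟨u, hu, hu'⟩ := hπ.amal p r hr
  refine ne_of_le hem (b := sSup S) (c := (sSup S)ᶜ) hp ?_ (inf_compl_self _) hu hu'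
  rw [compl_sSup]
  refine le_iInf fun c => le_iInf fun hc => ?_
  refine Sub.compl hem hπ (hS hc) r (hr'.trans ?_)
  exact compl_le_compl (le_sSup hc)

theorem Sub.em_mem (w : P) : em (π w) ∈ Sub em π := by
  intro p hp
  by_contra hne
  obtain ⟨r, hr, hr'⟩ := exists_not_le hem hne
  obtain ⟨u, hu, hu'⟩ := hπ.amal p r hr
  obtain ⟨u1, hu1, hu1'⟩ := exists_ext' hem ((hem.mono _ _ hu).trans hp)
  obtain ⟨v, hv, hv'⟩ := hπ.amal r u1 (hu1.trans hu')
  exact ne_of_le hem (b := em (π w)) le_rfl hr' (inf_compl_self _)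
    (hv'.trans ((hπ.mono _ _ hu1').trans (hπ.idem w))) hv

theorem Sub.iff {b : B} (hb : b ∈ Sub em π) {p : P} : em p ≤ b ↔ em (π p) ≤ b :=
  ⟨hb p, (hem.mono _ _ (hπ.le p)).trans⟩

omit hπ in
theorem Sub.mono {π' : P → P} (h : ∀ p, π' p ≤ π p) : Sub em π ⊆ Sub em π' :=
  fun b hb p hp => (hem.mono _ _ (h p)).trans (hb p hp)

end

/-! ### Bounded families in successor cardinals -/

theorem exists_bdd {c : Cardinal.{0}} (hc : ℵ₀ ≤ c) {J : Type} (hJ : #J ≤ c)
    (f : J → (Order.succ c).ord.ToType) : ∃ a, ∀ j, f j < a := by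
  by_contra hne
  push Not at hne
  have h1 : (⋃ j : J, Set.Iic (f j)) = Set.univ := by
    rw [Set.eq_univ_iff_forall]
    intro a
    obtain ⟨j, hj⟩ := hne a
    exact Set.mem_iUnion.2 ⟨j, hj⟩
  have h2 : ∀ j, #(Set.Iic (f j)) ≤ c := by
    intro j
    have h3 : #(Set.Iio (f j)) ≤ c := Order.lt_succ_iff.1 (Cardinal.mk_Iio_toType_ord_lt (f j))
    have h4 : Set.Iic (f j) = Set.Iio (f j) ∪ {f j} := by
      ext x; simp [le_iff_lt_or_eq]
    rw [h4]
    refine (Cardinal.mk_union_le _ _).trans ?_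
    rw [Cardinal.mk_singleton]
    exact Cardinal.add_le_of_le hc h3 (Cardinal.one_le_aleph0.trans hc)
  have h5 : #(Set.univ : Set (Order.succ c).ord.ToType) ≤ c := by
    rw [← h1]
    refine (Cardinal.mk_iUnion_le_sum_mk).trans ?_
    refine (Cardinal.sum_le_sum _ (fun _ => c) h2).trans ?_
    rw [Cardinal.sum_const, Cardinal.lift_id, Cardinal.lift_id]
    exact (mul_le_mul' hJ le_rfl).trans (Cardinal.mul_eq_self hc).le
  rw [Cardinal.mk_univ, Cardinal.mk_ord_toType] at h5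
  exact absurd h5 (not_le.2 (Order.lt_succ c))

end Pool.Agent.MBG.PC
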