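import Pool.Agent.MBG.C4

/-! The product forcing: Lemma C and Lemma S. -/

set_option linter.unusedVariables false

namespace Pool.Agent.MBG.PC

open Cardinal

universe u v w

/-- The union of two compatible partial functions. -/
def cup {c : Cardinal.{0}} (hc : ℵ₀ ≤ c) (q q' : Q c)
    (h : ∀ x y y', (x, y) ∈ q.1 → (x, y') ∈ q'.1 → y = y') : Q c :=
  ⟨q.1 ∪ q'.1, by
    intro x y y' h1 h2
    rcases h1 with h1 | h1
    · rcases h2 with h2 | h2
      · exact q.2.1 x y y' h1 h2
      · exact h x y y' h1 h2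
    · rcases h2 with h2 | h2
      · exact (h x y' y h2 h1).symm
      · exact q'.2.1 x y y' h1 h2, (Cardinal.mk_union_le _ _).trans_lt
      (Cardinal.add_lt_of_lt (hc.trans (Order.le_succ c)) q.2.2 q'.2.2)⟩

theorem cup_le {c : Cardinal.{0}} {hc : ℵ₀ ≤ c} {q q' : Q c}
    {h : ∀ x y y', (x, y) ∈ q.1 → (x, y') ∈ q'.1 → y = y'} : cup hc q q' h ≤ q :=
  Set.subset_union_left

theorem cup_le' {c : Cardinal.{0}} {hc : ℵ₀ ≤ c} {q q' : Q c}
    {h : ∀ x y y', (x, y) ∈ q.1 → (x, y') ∈ q'.1 → y = y'} : cup hc q q' h ≤ q' :=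
  Set.subset_union_right

/-- The restriction of a partial function to the keys below `a`. -/
def restr {c : Cardinal.{0}} (a : TT c) (q : Q c) : Q c :=
  ⟨{x | x ∈ q.1 ∧ x.1.1 < a}, fun x y y' h1 h2 => q.2.1 x y y' h1.1 h2.1,
    (Cardinal.mk_le_mk_of_subset (fun x hx => hx.1)).trans_lt q.2.2⟩

theorem le_restr {c : Cardinal.{0}} {a : TT c} {q : Q c} : q ≤ restr a q := fun x hx => hx.1

theorem restr_mono {c : Cardinal.{0}} {a : TT c} {q q' : Q c} (h : q ≤ q') :
    restr a q ≤ restr a q' := fun x hx => ⟨h hx.1, hx.2⟩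

theorem restr_restr {c : Cardinal.{0}} {a : TT c} {q : Q c} : restr a (restr a q) = restr a q :=
  Subtype.ext (Set.ext fun x => ⟨fun hx => hx.1, fun hx => ⟨hx, hx.2⟩⟩)

theorem restr_le {c : Cardinal.{0}} {a a' : TT c} (h : a ≤ a') {q : Q c} :
    restr a' q ≤ restr a q := fun x hx => ⟨hx.1, hx.2.trans_le h⟩

/-- All keys are below `a`. -/
def Spt {c : Cardinal.{0}} (a : TT c) (q : Q c) : Prop := ∀ x ∈ q.1, x.1.1 < a

theorem spt_restr {c : Cardinal.{0}} {a : TT c} {q : Q c} : Spt a (restr a q) := fun x hx => hx.2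

section

variable {m : Ordinal.{0} → Cardinal.{0}}

/-- The coordinates below `i`, and the coordinate `i` restricted to the keys below `a`. -/
noncomputable def cutr (i : Ordinal.{0}) (a : TT (m i)) (p : PP m) : PP m :=
  Function.update (cut i p) i (restr a (p i))

variable {i k : Ordinal.{0}} {a : TT (m i)} {p q w r : PP m}

theorem cutr_self : cutr i a p i = restr a (p i) := Function.update_self _ _ _

theorem cutr_ne (h : k ≠ i) : cutr i a p k = cut i p k := Function.update_of_ne h _ _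

theorem update_le {q : PP m} {s : Q (m i)} (h1 : ∀ k, k ≠ i → q k ≤ r k) (h2 : s ≤ r i) :
    Function.update q i s ≤ r := fun k => by
  by_cases h : k = i
  · subst h
    rw [Function.update_self]; exact h2
  · rw [Function.update_of_ne h]; exact h1 k h

theorem le_update {q : PP m} {s : Q (m i)} (h1 : ∀ k, k ≠ i → r k ≤ q k) (h2 : r i ≤ s) :
    r ≤ Function.update q i s := fun k => by
  by_cases h : k = i
  · subst h
    rw [Function.update_self]; exact h2
  · rw [Function.update_of_ne h]; exact h1 k h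

theorem le_cutr : p ≤ cutr i a p := le_update (fun k _ => le_cut k) le_restr

theorem cutr_mono (h : p ≤ q) : cutr i a p ≤ cutr i a q := by
  refine update_le (fun k hk => ?_) ?_
  · rw [cutr_ne hk]; exact cut_mono h k
  · rw [cutr_self]; exact restr_mono (h i)

theorem cutr_cutr : cutr i a (cutr i a p) = cutr i a p := by
  funext k
  by_cases hk : k = i
  · subst hk
    rw [cutr_self, cutr_self, restr_restr]
  · rw [cutr_ne hk, cutr_ne hk]
    by_cases hk' : k < i
    · rw [cut_lt hk', cutr_ne hk]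
    · rw [cut_not hk', cut_not hk']

theorem cutr_le (i : Ordinal.{0}) {a a' : TT (m i)} (h : a ≤ a') (p : PP m) :
    cutr i a' p ≤ cutr i a p := by
  refine update_le (fun k hk => ?_) ?_
  · rw [cutr_ne hk]
  · rw [cutr_self]; exact restr_le h

theorem proj_cut (i : Ordinal.{0}) : Proj (cut (m := m) i) where
  le p := le_cut
  mono p q := cut_mono
  idem p := cut_cut.le
  amal p r hr := by
    rw [le_cut_iff] at hr
    exact ⟨glue i r p, glue_le hr (fun k _ => le_rfl),
      le_cut_iff.2 fun k hk => (glue_lt hk).le⟩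

theorem proj_cutr (hm : Good m) (i : Ordinal.{0}) (a : TT (m i)) : Proj (cutr i a) where
  le p := le_cutr
  mono p q := cutr_mono
  idem p := cutr_cutr.le
  amal p r hr := by
    have h1 : r i ≤ restr a (p i) := by have := hr i; rwa [cutr_self] at this
    have h2 : ∀ k < i, r k ≤ p k := fun k hk => by
      have := hr k; rwa [cutr_ne hk.ne, cut_lt hk] at this
    refine ⟨Function.update (glue i r p) i (cup (hm.inf i) (restr a (r i)) (p i) ?_),
      update_le (fun k hk => ?_) cup_le', update_le (fun k hk => ?_) ?_⟩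
    · intro x y y' h3 h4
      exact (r i).2.1 x y y' h3.1 (h1 ⟨h4, h3.2⟩)
    · by_cases hk' : k < i
      · rw [glue_lt hk']; exact h2 k hk'
      · rw [glue_not hk']
    · rw [cutr_ne hk]
      by_cases hk' : k < i
      · rw [glue_lt hk', cut_lt hk']
      · rw [cut_not hk']; exact le_emp1 _
    · rw [cutr_self]; exact cup_le

theorem kappa_inf (hm : Good m) (i : Ordinal.{0}) :
    ℵ₀ ≤ (2 : Cardinal.{0}) ^ Order.succ (m i) :=
  ((hm.inf i).trans (Order.le_succ _)).trans (Cardinal.cantor _).le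

theorem le_kappa (hm : Good m) (i : Ordinal.{0}) :
    m i ≤ (2 : Cardinal.{0}) ^ Order.succ (m i) := (Order.le_succ _).trans (Cardinal.cantor _).le

theorem card_Q (c : Cardinal.{0}) (q : Q c) : #q.1 ≤ c := Order.lt_succ_iff.1 q.2.2

theorem card_spt (hm : Good m) (i : Ordinal.{0}) (a : TT (m i)) :
    #{q : Q (m i) // Spt a q} ≤ (2 : Cardinal.{0}) ^ Order.succ (m i) := by
  let s : Set ((TT (m i) × ℕ × Th (m i)) × Th (m i)) := {x | x.1.1 < a}
  have h1 : #s ≤ (2 : Cardinal.{0}) ^ Order.succ (m i) := by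
    have h2 : #s ≤ #(Set.Iio a × (ℕ × Th (m i) × Th (m i))) := by
      refine Cardinal.mk_le_of_injective
        (f := fun x => (⟨x.1.1.1, x.2⟩, x.1.1.2.1, x.1.1.2.2, x.1.2)) ?_
      rintro ⟨⟨⟨x, n, b⟩, v⟩, hx⟩ ⟨⟨⟨x', n', b'⟩, v'⟩, hx'⟩ h
      simp only [Prod.mk.injEq, Subtype.mk.injEq] at h
      obtain ⟨rfl, rfl, rfl, rfl⟩ := h
      rfl
    refine h2.trans ?_
    have h3 : #(Set.Iio a) ≤ (2 : Cardinal.{0}) ^ Order.succ (m i) :=
      Order.lt_succ_iff.1 (Cardinal.mk_Iio_toType_ord_lt a)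
    have h4 : #(Th (m i)) ≤ (2 : Cardinal.{0}) ^ Order.succ (m i) := by
      rw [Cardinal.mk_ord_toType]; exact (Cardinal.cantor _).le
    have h5 : #ℕ ≤ (2 : Cardinal.{0}) ^ Order.succ (m i) := by
      rw [Cardinal.mk_nat]; exact kappa_inf hm i
    simp only [Cardinal.mk_prod, Cardinal.lift_id]
    have h6 := Cardinal.mul_eq_self (kappa_inf hm i)
    exact (mul_le_mul' h3 ((mul_le_mul' h5 ((mul_le_mul' h4 h4).trans h6.le)).trans h6.le)).trans
      h6.le
  have h2 : #{q : Q (m i) // Spt a q} ≤ #{t : Set _ // t ⊆ s ∧ #t ≤ m i} := by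
    refine Cardinal.mk_le_of_injective
      (f := fun q => ⟨q.1.1, q.2, card_Q _ q.1⟩) ?_
    rintro ⟨q, hq⟩ ⟨q', hq'⟩ h
    simp only [Subtype.mk.injEq] at h
    exact Subtype.ext (Subtype.ext h)
  refine h2.trans ((Cardinal.mk_bounded_subset_le s (m i)).trans ?_)
  refine (Cardinal.power_le_power_right (max_le h1 (kappa_inf hm i))).trans ?_
  rw [← Cardinal.power_mul, Cardinal.mul_eq_left ((hm.inf i).trans (Order.le_succ _))
    (Order.le_succ _) (by
      intro h0
      exact absurd (hm.inf i) (by rw [h0]; exact not_le.2 Cardinal.aleph0_pos))]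

end

end Pool.Agent.MBG.PC
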