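import Pool.Agent.MBG.C5

/-! The product forcing: Lemma C and Lemma S. -/

set_option linter.unusedVariables false

namespace Pool.Agent.MBG.PC

open Cardinal

universe u v w

section

variable {m : Ordinal.{0} → Cardinal.{0}}

/-- The keys of `q` have a common bound. -/
theorem exists_spt (hm : Good m) {i : Ordinal.{0}} {J : Type}
    (hJ : #J ≤ (2 : Cardinal.{0}) ^ Order.succ (m i)) (q : J → Q (m i)) :
    ∃ a, ∀ j, Spt a (q j) := by
  obtain ⟨a, ha⟩ := exists_bdd (kappa_inf hm i)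
    (J := Σ j : J, {x // x ∈ (q j).1}) (by
      rw [Cardinal.mk_sigma]
      refine (Cardinal.sum_le_sum _ (fun _ => (2 : Cardinal.{0}) ^ Order.succ (m i))
        (fun j => (card_Q _ (q j)).trans (le_kappa hm i))).trans ?_
      rw [Cardinal.sum_const, Cardinal.lift_id, Cardinal.lift_id]
      exact (mul_le_mul' hJ le_rfl).trans (Cardinal.mul_eq_self (kappa_inf hm i)).le)
    (fun x => x.2.1.1.1)
  exact ⟨a, fun j x hx => ha ⟨j, x, hx⟩⟩

/-- A closure point of cofinality `m⁺`. -/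
theorem exists_closed (hm : Good m) {i : Ordinal.{0}} {W : Type}
    (hW : #W ≤ (2 : Cardinal.{0}) ^ Order.succ (m i)) (F : W → Q (m i) → Q (m i)) :
    ∃ a : TT (m i), ∀ x q, Spt a q → Spt a (F x q) := by
  have h1 : ∀ a : TT (m i), ∃ a' : TT (m i), ∀ x q, Spt a q → Spt a' (F x q) := by
    intro a
    obtain ⟨a', ha'⟩ := exists_spt hm (J := W × {q : Q (m i) // Spt a q}) (by
      rw [Cardinal.mk_prod, Cardinal.lift_id, Cardinal.lift_id]
      exact (mul_le_mul' hW (card_spt hm i a)).trans (Cardinal.mul_eq_self (kappa_inf hm i)).le)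
      (fun y => F y.1 y.2.1)
    exact ⟨a', fun x q hq => ha' (x, ⟨q, hq⟩)⟩
  choose g hg using h1
  have h2 : ∀ (x : Th (m i)) (f : ∀ y : Th (m i), y < x → TT (m i)),
      ∃ b : TT (m i), ∀ y (hy : y < x), f y hy < b ∧ g (f y hy) < b := by
    intro x f
    have hc : #{y // y < x} ≤ (2 : Cardinal.{0}) ^ Order.succ (m i) :=
      (Cardinal.mk_set_le _).trans (by
        rw [Cardinal.mk_ord_toType]; exact (Cardinal.cantor _).le)
    obtain ⟨b, hb⟩ := exists_bdd (kappa_inf hm i) hc (fun y => max (f y.1 y.2) (g (f y.1 y.2)))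
    exact ⟨b, fun y hy => ⟨(le_max_left _ _).trans_lt (hb ⟨y, hy⟩),
      (le_max_right _ _).trans_lt (hb ⟨y, hy⟩)⟩⟩
  choose st hst using h2
  let A : Th (m i) → TT (m i) := (wellFounded_lt (α := Th (m i))).fix st
  have hA : ∀ x, A x = st x (fun y _ => A y) := fun x => WellFounded.fix_eq _ st x
  have hA' : ∀ x y, y < x → A y < A x ∧ g (A y) < A x := by
    intro x y hy
    rw [hA x]
    exact hst x (fun y _ => A y) y hy
  have h3 : ∃ a, ∀ x, A x < a := exists_bdd (kappa_inf hm i) (by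
    rw [Cardinal.mk_ord_toType]; exact (Cardinal.cantor _).le) A
  have hne : {a | ∀ x, A x ≤ a}.Nonempty := by
    obtain ⟨a, ha⟩ := h3
    exact ⟨a, fun x => (ha x).le⟩
  let a := (wellFounded_lt (α := TT (m i))).min _ hne
  have ha1 : ∀ x, A x ≤ a := (wellFounded_lt (α := TT (m i))).min_mem _ hne
  have ha2 : ∀ t, t < a → ∃ x, t < A x := by
    intro t ht
    by_contra hno
    push Not at hno
    exact (wellFounded_lt (α := TT (m i))).not_lt_min {a | ∀ x, A x ≤ a} (x := t) hno ht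
  refine ⟨a, fun x q hq => ?_⟩
  have h4 : ∀ y : {y // y ∈ q.1}, ∃ x, y.1.1.1 < A x := fun y => ha2 _ (hq y.1 y.2)
  choose ξ hξ using h4
  obtain ⟨x1, hx1⟩ := exists_bdd (hm.inf i) (J := {y // y ∈ q.1}) (card_Q _ q) ξ
  obtain ⟨x2, hx2⟩ := exists_bdd (hm.inf i) (J := Unit) (by
    rw [Cardinal.mk_unit]; exact Cardinal.one_le_aleph0.trans (hm.inf i)) (fun _ => x1)
  have h5 : Spt (A x1) q := fun y hy => (hξ ⟨y, hy⟩).trans (hA' _ _ (hx1 ⟨y, hy⟩)).1
  intro y hy
  exact ((hg _ x q h5 y hy).trans (hA' _ _ (hx2 ())).2).trans_le (ha1 x2)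

variable {B : Type v} [CompleteBooleanAlgebra B] {em : PP m → B}

/-- Lemma C. -/
theorem lemC (hm : Good m) (hem : DenseEmb em) (i : Ordinal.{0}) {c : B}
    (hc : c ∈ Sub em (cut (Order.succ i))) : ∃ a : TT (m i), c ∈ Sub em (cutr i a) := by
  classical
  obtain ⟨W, f, e, hW, hfe⟩ := exists_rep hm i
  have hd : cᶜ ∈ Sub em (cut (Order.succ i)) := Sub.compl hem (proj_cut _) hc
  have h1 : ∀ (x : W) (q : Q (m i)), ∃ w' : PP m,
      (∃ w, w ≤ Function.update (cut i (e x)) i q ∧ em w ≤ cᶜ) →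
        w' ≤ Function.update (cut i (e x)) i q ∧ em w' ≤ cᶜ := by
    intro x q
    by_cases h : ∃ w, w ≤ Function.update (cut i (e x)) i q ∧ em w ≤ cᶜ
    · obtain ⟨w, hw⟩ := h
      exact ⟨w, fun _ => hw⟩
    · exact ⟨Function.update (cut i (e x)) i q, fun h' => absurd h' h⟩
  choose F hF using h1
  obtain ⟨a, ha⟩ := exists_closed hm (hW.trans (le_kappa hm i)) (fun x q => F x q i)
  refine ⟨a, fun p hp => ?_⟩
  by_contra hne
  obtain ⟨r, hr, hr'⟩ := exists_not_le hem hne
  have hrep : Function.update (cut i (e (f p))) i (restr a (p i)) = cutr i a p := by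
    funext k
    by_cases hk : k = i
    · subst hk
      rw [cutr_self, Function.update_self]
    · rw [cutr_ne hk, Function.update_of_ne hk]
      by_cases hk' : k < i
      · rw [cut_lt hk', cut_lt hk', hfe p k hk']
      · rw [cut_not hk', cut_not hk']
  obtain ⟨hw1, hw2⟩ := hF (f p) (restr a (p i)) ⟨r, by rw [hrep]; exact hr, hr'⟩
  have hw3 : Spt a (F (f p) (restr a (p i)) i) := ha _ _ spt_restr
  set w := F (f p) (restr a (p i)) with hw
  rw [hrep] at hw1
  have hw4 : w i ≤ restr a (p i) := by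
    have := hw1 i
    rwa [cutr_self] at this
  have hw5 : ∀ k < i, w k ≤ p k := fun k hk => by
    have := hw1 k
    rwa [cutr_ne hk.ne, cut_lt hk] at this
  have hcomp : ∀ x y y', (x, y) ∈ (w i).1 → (x, y') ∈ (p i).1 → y = y' := by
    intro x y y' h1 h2
    exact (w i).2.1 x y y' h1 (hw4 ⟨h2, (hw3 (x, y) h1 : x.1 < a)⟩)
  have hu1 : Function.update (glue i w p) i (cup (hm.inf i) (w i) (p i) hcomp) ≤ p :=
    update_le (fun k hk => by
      by_cases hk' : k < i
      · rw [glue_lt hk']; exact hw5 k hk'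
      · rw [glue_not hk']) cup_le'
  have hu2 : Function.update (glue i w p) i (cup (hm.inf i) (w i) (p i) hcomp) ≤
      cut (Order.succ i) w := by
    refine update_le (fun k hk => ?_) ?_
    · by_cases hk' : k < i
      · rw [glue_lt hk', cut_lt (Order.lt_succ_iff.2 hk'.le)]
      · rw [cut_not]
        · exact le_emp1 _
        · rw [Order.lt_succ_iff]
          intro h
          exact hk' (lt_of_le_of_ne h hk)
    · rw [cut_lt (Order.lt_succ_iff.2 le_rfl)]
      exact cup_le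
  exact ne_of_le hem hp (hd w hw2) (inf_compl_self _) hu1 hu2

/-- Lemma S. -/
theorem lemS (hm : Good m) (hem : DenseEmb em) (i : Ordinal.{0}) {J : Type}
    (hJ : #J ≤ (2 : Cardinal.{0}) ^ Order.succ (m i)) (b : J → B) (p : PP m) :
    ∃ q, q ≤ p ∧ ∃ (a : TT (m i)) (c : J → B), (∀ j, c j ∈ Sub em (cutr i a)) ∧
      ∀ j, em q ⊓ b j = em q ⊓ c j := by
  obtain ⟨W, f, e, hW, hfe⟩ := exists_rep hm (Order.succ i)
  have hJ' : #J ≤ m (Order.succ i) := hJ.trans (hm.pow i _ (Order.lt_succ i))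
  obtain ⟨q, hq, x, hx⟩ := lemR hm hem (Order.succ i) hJ' hfe b p
  have h1 : ∀ j, (⨆ w : x j, em (cut (Order.succ i) (e w))) ∈ Sub em (cut (Order.succ i)) := by
    intro j
    refine Sub.csup hem (proj_cut _) ?_
    rintro _ ⟨w, rfl⟩
    exact Sub.em_mem hem (proj_cut _) _
  choose a ha using fun j => lemC hm hem i (h1 j)
  obtain ⟨a', ha'⟩ := exists_bdd (kappa_inf hm i) hJ a
  exact ⟨q, hq, a', _, fun j => Sub.mono hem (cutr_le i (ha' j).le) (ha j), hx⟩

end

end Pool.Agent.MBG.PC
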