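import Pool.Agent.MBG.U3

/-! What the game argument uses of the forcing, and the one-board strategy of player TWO. -/

set_option linter.unusedVariables false
set_option linter.unusedSectionVars false

namespace Pool.Agent.MBG

open Cardinal

universe u

/-- What the game argument uses of the forcing notion `P`: an increasing family of complete
subalgebras `Sub a`, `a ∈ T`, a generic family of functions `gv a n : Th → Th` (`gv a n b v` is the
truth value of `g_{a,n}(b) = v`), and the operation of overwriting the values `g_{a m,m}(b)`,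
`m ∈ X`, by `z m`. -/
structure GF {P : Type u} [Preorder P] {B : Type u} [CompleteBooleanAlgebra B] (em : P → B)
    (T Th : Type u) [LinearOrder T] where
  /-- the subalgebras -/
  Sub : T → Set B
  sub_mono : ∀ a a', a ≤ a' → Sub a ⊆ Sub a'
  sub_compl : ∀ a c, c ∈ Sub a → cᶜ ∈ Sub a
  sub_sSup : ∀ a (S : Set B), S ⊆ Sub a → sSup S ∈ Sub a
  dist : ∀ D : ℕ → Set P, (∀ n p q, q ≤ p → p ∈ D n → q ∈ D n) →
    (∀ n p, ∃ q, q ≤ p ∧ q ∈ D n) → ∀ p, ∃ q, q ≤ p ∧ ∀ n, q ∈ D n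
  supp : ∀ (J : Type u), #J ≤ #(ℕ → Th) → ∀ (c : J → B) (p : P), ∃ q, q ≤ p ∧
    ∃ (a : T) (c' : J → B), (∀ j, c' j ∈ Sub a) ∧ ∀ j, em q ⊓ c j = em q ⊓ c' j
  /-- the generic functions -/
  gv : T → ℕ → Th → Th → B
  gv_sup : ∀ a n b, ⨆ v, gv a n b v = ⊤
  gv_disj : ∀ a n b v v', v ≠ v' → gv a n b v ⊓ gv a n b v' = ⊥
  /-- overwriting -/
  ow : Th → (ℕ → T) → (ℕ → Th) → Set ℕ → P → P
  ow_empty : ∀ b a z p, ow b a z ∅ p = p
  ow_congr : ∀ b a z z' X p, (∀ m ∈ X, z m = z' m) → ow b a z X p = ow b a z' X p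
  ow_fresh : ∀ p₀, ∃ b, ∀ a z X p, p ≤ p₀ → ow b a z X p ≤ p₀
  ow_gv : ∀ b a z X p m, m ∈ X → em (ow b a z X p) ≤ gv (a m) m b (z m)
  ow_sub : ∀ α c, c ∈ Sub α → ∀ b a z X X' p, (∀ m, a m < α → (m ∈ X ↔ m ∈ X')) →
    em (ow b a z X p) ≤ c → em (ow b a z X' p) ≤ c
  ow_mono : ∀ b a z X p p', p' ≤ p → ow b a z X p' ≤ ow b a z X p
  ow_lift : ∀ b a z X p q, q ≤ ow b a z X p → ∃ p', p' ≤ p ∧ ow b a z X p' ≤ q

namespace GF

variable {P : Type u} [Preorder P] {B : Type u} [CompleteBooleanAlgebra B] {em : P → B}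
  {T Th : Type u} [LinearOrder T] (G : GF em T Th)

include G

theorem dist' {D : ℕ → Set P} (hD : ∀ n p q, q ≤ p → p ∈ D n → q ∈ D n) {p : P}
    (hd : ∀ n q, q ≤ p → ∃ r, r ≤ q ∧ r ∈ D n) : ∃ q, q ≤ p ∧ ∀ n, q ∈ D n := by
  obtain ⟨q, hq, hqD⟩ := G.dist (fun n => {q | q ∈ D n ∨ ∀ r, r ≤ q → ¬ r ≤ p}) (by
    rintro n p' q hqp (h | h)
    · exact Or.inl (hD n p' q hqp h)
    · exact Or.inr fun r hr => h r (hr.trans hqp)) (by
    intro n q
    by_cases h : ∃ r, r ≤ q ∧ r ≤ p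
    · obtain ⟨r, hrq, hrp⟩ := h
      obtain ⟨r', hr', h'⟩ := hd n r hrp
      exact ⟨r', hr'.trans hrq, Or.inl h'⟩
    · push Not at h
      exact ⟨q, le_rfl, Or.inr h⟩) p
  refine ⟨q, hq, fun n => ?_⟩
  rcases hqD n with h | h
  · exact h
  · exact absurd hq (h q le_rfl)

theorem sub_iSup {a : T} {ι : Sort*} {c : ι → B} (hc : ∀ i, c i ∈ G.Sub a) :
    (⨆ i, c i) ∈ G.Sub a := by
  refine G.sub_sSup a _ ?_
  rintro _ ⟨i, rfl⟩
  exact hc i

theorem sub_iInf {a : T} {ι : Sort*} {c : ι → B} (hc : ∀ i, c i ∈ G.Sub a) :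
    (⨅ i, c i) ∈ G.Sub a := by
  have h1 := G.sub_compl a _ (G.sub_iSup (c := fun i => (c i)ᶜ) fun i => G.sub_compl a _ (hc i))
  rwa [compl_iSup, iInf_congr fun i => compl_compl (c i)] at h1

theorem sub_sup {a : T} {c d : B} (hc : c ∈ G.Sub a) (hd : d ∈ G.Sub a) : c ⊔ d ∈ G.Sub a := by
  rw [← sSup_pair]
  refine G.sub_sSup a _ ?_
  rintro x (rfl | rfl)
  · exact hc
  · exact hd

theorem sub_inf {a : T} {c d : B} (hc : c ∈ G.Sub a) (hd : d ∈ G.Sub a) : c ⊓ d ∈ G.Sub a := by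
  have h1 := G.sub_compl a _ (G.sub_sup (G.sub_compl a _ hc) (G.sub_compl a _ hd))
  rwa [compl_sup, compl_compl, compl_compl] at h1

/-! ### The pull back of a truth value -/

/-- The pull back of the truth value `c` along the overwriting map. -/
def back (b : Th) (a : ℕ → T) (z : ℕ → Th) (X : Set ℕ) (c : B) : B :=
  ⨆ p : {p : P // em (G.ow b a z X p) ≤ c}, em p.1

theorem le_back (hem : DenseEmb em) {b : Th} {a : ℕ → T} {z : ℕ → Th} {X : Set ℕ} {c : B}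
    {p : P} : em p ≤ G.back b a z X c ↔ em (G.ow b a z X p) ≤ c := by
  constructor
  · intro hp
    by_contra hne
    have h1 : em (G.ow b a z X p) ⊓ cᶜ ≠ ⊥ := by
      intro h0
      apply hne
      have := le_compl_iff_disjoint_right.2 (disjoint_iff.2 h0)
      rwa [compl_compl] at this
    obtain ⟨q, hq, hqc⟩ := hem.exists_of_inf h1
    obtain ⟨p', hp', hqp⟩ := G.ow_lift b a z X p q hq
    obtain ⟨⟨p₀, hp₀⟩, p₁, h2, h3⟩ := hem.exists_iSup ((hem.mono _ _ hp').trans hp)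
    obtain ⟨r, hr1, hr0⟩ := hem.compat p₁ p₀ (by
      rw [inf_eq_left.2 h3]; exact hem.ne_bot _)
    have h4 : em (G.ow b a z X r) ≤ c := (hem.mono _ _ (G.ow_mono b a z X _ _ hr0)).trans hp₀
    have h5 : em (G.ow b a z X r) ≤ cᶜ :=
      (hem.mono _ _ ((G.ow_mono b a z X _ _ (hr1.trans h2)).trans hqp)).trans hqc
    apply hem.ne_bot (G.ow b a z X r)
    rw [← le_bot_iff, ← inf_compl_self (a := c)]
    exact le_inf h4 h5
  · intro hp
    exact le_iSup (fun p : {p : P // em (G.ow b a z X p) ≤ c} => em p.1) ⟨p, hp⟩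

theorem ow_sub' {α : T} {c : B} (hc : c ∈ G.Sub α) {b : Th} {a : ℕ → T} {z : ℕ → Th} {X : Set ℕ}
    {p : P} (h : ∀ m ∈ X, α ≤ a m) (hp : em p ≤ c) : em (G.ow b a z X p) ≤ c := by
  refine G.ow_sub α c hc b a z ∅ X p ?_ ?_
  · intro m hm
    refine ⟨fun h => h.elim, fun hX => ?_⟩
    exact absurd hm (not_lt.2 (h m hX))
  · rw [G.ow_empty]; exact hp

theorem of_ow_sub {α : T} {c : B} (hc : c ∈ G.Sub α) {b : Th} {a : ℕ → T} {z : ℕ → Th} {X : Set ℕ}
    {p : P} (h : ∀ m ∈ X, α ≤ a m) (hp : em (G.ow b a z X p) ≤ c) : em p ≤ c := by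
  have := G.ow_sub α c hc b a z X ∅ p (by
    intro m hm
    refine ⟨fun hX => ?_, fun h => h.elim⟩
    exact absurd hm (not_lt.2 (h m hX))) hp
  rwa [G.ow_empty] at this

end GF

end Pool.Agent.MBG
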