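import Pool.Agent.MBG.C6
import Pool.Agent.MBG.GF
import Pool.Agent.Lib.helper63.Completion

/-! The product forcing: overwriting, and the summary. -/

set_option linter.unusedVariables false

namespace Pool.Agent.MBG.PC

open Cardinal

universe u v w

/-- Overwriting at one coordinate. -/
def ow1 {c : Cardinal.{0}} (hc : ℵ₀ ≤ c) (b : Th c) (a : ℕ → TT c) (z : ℕ → Th c) (X : Set ℕ)
    (q : Q c) : Q c :=
  ⟨{x | (∃ n ∈ X, x = ((a n, n, b), z n)) ∨ (x ∈ q.1 ∧ ∀ n ∈ X, x.1 ≠ (a n, n, b))}, by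
    rintro x y y' (⟨n, hn, h⟩ | ⟨h, hn⟩) (⟨n', hn', h'⟩ | ⟨h', hn'⟩)
    · simp only [Prod.mk.injEq] at h h'
      obtain ⟨rfl, rfl⟩ := h
      obtain ⟨h1, rfl⟩ := h'
      simp only [Prod.mk.injEq] at h1
      rw [h1.2.1]
    · simp only [Prod.mk.injEq] at h
      exact absurd h.1 (hn' n hn)
    · simp only [Prod.mk.injEq] at h'
      exact absurd h'.1 (hn n' hn')
    · exact q.2.1 x y y' h h', by
    refine (Cardinal.mk_le_mk_of_subset (t := Set.range (fun n => ((a n, n, b), z n)) ∪ q.1)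
      ?_).trans_lt ?_
    · rintro x (⟨n, hn, h⟩ | ⟨h, hn⟩)
      · exact Or.inl ⟨n, h.symm⟩
      · exact Or.inr h
    · refine (Cardinal.mk_union_le _ _).trans_lt
        (Cardinal.add_lt_of_lt (hc.trans (Order.le_succ c)) ?_ q.2.2)
      refine (Cardinal.mk_range_le).trans_lt ?_
      rw [Cardinal.mk_nat]
      exact hc.trans_lt (Order.lt_succ c)⟩

section

variable {c : Cardinal.{0}} {hc : ℵ₀ ≤ c} {b : Th c} {a : ℕ → TT c} {z z' : ℕ → Th c}
  {X X' : Set ℕ} {q q' : Q c}

theorem mem_ow1 {x : (TT c × ℕ × Th c) × Th c} : x ∈ (ow1 hc b a z X q).1 ↔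
    (∃ n ∈ X, x = ((a n, n, b), z n)) ∨ (x ∈ q.1 ∧ ∀ n ∈ X, x.1 ≠ (a n, n, b)) := Iff.rfl

theorem Q.ext {q q' : Q c} (h : ∀ x, x ∈ q.1 ↔ x ∈ q'.1) : q = q' := Subtype.ext (Set.ext h)

theorem ow1_empty : ow1 hc b a z ∅ q = q := Q.ext fun x => by
  rw [mem_ow1]
  simp

theorem ow1_congr (h : ∀ n ∈ X, z n = z' n) : ow1 hc b a z X q = ow1 hc b a z' X q :=
  Q.ext fun x => by
  rw [mem_ow1, mem_ow1]
  refine or_congr_left ?_
  constructor
  · rintro ⟨n, hn, rfl⟩; exact ⟨n, hn, by rw [h n hn]⟩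
  · rintro ⟨n, hn, rfl⟩; exact ⟨n, hn, by rw [h n hn]⟩

theorem ow1_mono (h : q' ≤ q) : ow1 hc b a z X q' ≤ ow1 hc b a z X q := fun x hx => by
  rw [mem_ow1] at hx ⊢
  exact hx.imp_right fun hx => ⟨h hx.1, hx.2⟩

theorem restr_ow1 {α : TT c} (h : ∀ n, a n < α → (n ∈ X ↔ n ∈ X')) :
    restr α (ow1 hc b a z X q) ≤ restr α (ow1 hc b a z X' q) := by
  rintro x ⟨hx, hxα⟩
  refine ⟨?_, hxα⟩
  rw [mem_ow1] at hx ⊢
  rcases hx with ⟨n, hn, rfl⟩ | ⟨hx, hn⟩
  · exact Or.inl ⟨n, (h n hxα).2 hn, rfl⟩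
  · refine Or.inr ⟨hx, fun n hn' hxn => hn n ((h n ?_).1 hn') hxn⟩
    rw [hxn] at hxα
    exact hxα

theorem ow1_fresh (hc : ℵ₀ ≤ c) (q : Q c) : ∃ b : Th c, ∀ (a : ℕ → TT c) (z : ℕ → Th c)
    (X : Set ℕ) (q' : Q c), q' ≤ q → ow1 hc b a z X q' ≤ q := by
  obtain ⟨b, hb⟩ := exists_bdd hc (J := {y // y ∈ q.1}) (card_Q _ q) (fun y => y.1.1.2.2)
  refine ⟨b, fun a z X q' hq x hx => mem_ow1.2 (Or.inr ⟨hq hx, fun n _ hxn => ?_⟩)⟩
  have := hb ⟨x, hx⟩
  simp only [hxn, lt_self_iff_false] at this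

theorem ow1_lift (h : q' ≤ ow1 hc b a z X q) : ∃ q'', q'' ≤ q ∧ ow1 hc b a z X q'' ≤ q' := by
  let s : Q c := ⟨{x | x ∈ q'.1 ∧ ∀ n ∈ X, x.1 ≠ (a n, n, b)},
    fun x y y' h1 h2 => q'.2.1 x y y' h1.1 h2.1,
    (Cardinal.mk_le_mk_of_subset (fun x hx => hx.1)).trans_lt q'.2.2⟩
  have hs : ∀ x, x ∈ s.1 ↔ x ∈ q'.1 ∧ ∀ n ∈ X, x.1 ≠ (a n, n, b) := fun x => Iff.rfl
  refine ⟨cup hc q s ?_, cup_le, ?_⟩
  · intro x y y' h1 h2
    rw [hs] at h2
    exact q'.2.1 x y y' (h (mem_ow1.2 (Or.inr ⟨h1, h2.2⟩))) h2.1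
  · intro x hx
    rw [mem_ow1]
    by_cases hn : ∀ n ∈ X, x.1 ≠ (a n, n, b)
    · exact Or.inr ⟨Or.inr ((hs x).2 ⟨hx, hn⟩), hn⟩
    · push Not at hn
      obtain ⟨n, hn, hxn⟩ := hn
      refine Or.inl ⟨n, hn, ?_⟩
      have h1 : ((a n, n, b), z n) ∈ q'.1 := h (mem_ow1.2 (Or.inl ⟨n, hn, rfl⟩))
      have h2 : x.2 = z n := q'.2.1 x.1 _ _ hx (by rw [hxn]; exact h1)
      rw [← hxn, ← h2]

/-- The condition with one value. -/
def sgl (hc : ℵ₀ ≤ c) (x : (TT c × ℕ × Th c) × Th c) : Q c :=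
  ⟨{x}, fun k y y' h1 h2 => by
    have h1 : (k, y) = x := h1
    have h2 : (k, y') = x := h2
    rw [← h2, Prod.mk.injEq] at h1
    exact h1.2, by
    rw [Cardinal.mk_singleton]
    exact (Cardinal.one_lt_aleph0.trans_le hc).trans (Order.lt_succ c)⟩

theorem le_sgl {x : (TT c × ℕ × Th c) × Th c} : q ≤ sgl hc x ↔ x ∈ q.1 :=
  ⟨fun h => h rfl, fun h y hy => by
    have hy : y = x := hy
    rw [hy]; exact h⟩

end

section

variable {m : Ordinal.{0} → Cardinal.{0}} {B : Type 1} [CompleteBooleanAlgebra B] {em : PP m → B}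

/-- The condition with one value. -/
noncomputable def sg (hm : Good m) (i : Ordinal.{0}) (x : (TT (m i) × ℕ × Th (m i)) × Th (m i)) :
    PP m := Function.update (fun k => emp1 (m k)) i (sgl (hm.inf i) x)

theorem le_sg (hm : Good m) {i : Ordinal.{0}} {x : (TT (m i) × ℕ × Th (m i)) × Th (m i)}
    {p : PP m} : p ≤ sg hm i x ↔ x ∈ (p i).1 := by
  constructor
  · intro h
    have := h i
    rw [sg, Function.update_self, le_sgl] at this
    exact this
  · intro h
    exact le_update (fun k _ => le_emp1 _) (le_sgl.2 h)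

/-- Overwriting. -/
noncomputable def owP (hm : Good m) (i : Ordinal.{0}) (b : Th (m i)) (a : ℕ → TT (m i))
    (z : ℕ → Th (m i)) (X : Set ℕ) (p : PP m) : PP m :=
  Function.update p i (ow1 (hm.inf i) b a z X (p i))

noncomputable instance (i : Ordinal.{0}) : LinearOrder (ULift.{1} (TT (m i))) :=
  LinearOrder.lift' ULift.down ULift.down_injective

/-- The interface of the game argument. -/
theorem exists_GF (hm : Good m) (hem : DenseEmb em) (i : Ordinal.{0}) :
    Nonempty (GF em (ULift.{1} (TT (m i))) (ULift.{1} (Th (m i)))) := by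
  refine ⟨{
    Sub := fun a => Sub em (cutr i a.down)
    sub_mono := fun a a' h => Sub.mono hem (cutr_le i h)
    sub_compl := fun a c hc => Sub.compl hem (proj_cutr hm i a.down) hc
    sub_sSup := fun a S hS => Sub.csup hem (proj_cutr hm i a.down) hS
    dist := ?_
    supp := ?_
    gv := fun a n b v => em (sg hm i ((a.down, n, b.down), v.down))
    gv_sup := ?_
    gv_disj := ?_
    ow := fun b a z X p => owP hm i b.down (fun n => (a n).down) (fun n => (z n).down) X p
    ow_empty := ?_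
    ow_congr := ?_
    ow_fresh := ?_
    ow_gv := ?_
    ow_sub := ?_
    ow_mono := ?_
    ow_lift := ?_ }⟩
  · intro D h1 h2 p
    obtain ⟨q, hq, hq'⟩ := lemD hm (J := ℕ) 0 (by rw [Cardinal.mk_nat]; exact hm.inf 0)
      (fun n p => p ∈ D n) h1 (fun n p => by
        obtain ⟨q, hq, hq'⟩ := h2 n p
        exact ⟨q, ⟨hq, fun k hk => absurd hk (by simp)⟩, hq'⟩) p
    exact ⟨q, hq.1, hq'⟩
  · intro J hJ c p
    obtain ⟨f⟩ := (Cardinal.le_def J (ℕ → ULift.{1} (Th (m i)))).1 hJ
    have hsm : Small.{0} J := small_of_injective f.injective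
    have hJ' : #(Shrink.{0} J) ≤ (2 : Cardinal.{0}) ^ Order.succ (m i) := by
      have h1 : #(Shrink.{0} J) ≤ #(ℕ → Th (m i)) := by
        refine Cardinal.mk_le_of_injective (f := fun x n => (f ((equivShrink J).symm x) n).down) ?_
        intro x y hxy
        apply (equivShrink J).symm.injective
        apply f.injective
        funext n
        exact ULift.ext _ _ (congrFun hxy n)
      refine h1.trans ?_
      rw [Cardinal.mk_pi, Cardinal.prod_const, Cardinal.lift_id, Cardinal.lift_id,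
        Cardinal.mk_ord_toType, Cardinal.mk_nat]
      refine (Cardinal.power_le_power_right (Cardinal.cantor _).le).trans ?_
      rw [← Cardinal.power_mul, Cardinal.mul_eq_left ((hm.inf i).trans (Order.le_succ _))
        ((hm.inf i).trans (Order.le_succ _)) Cardinal.aleph0_ne_zero]
    obtain ⟨q, hq, a, c', h1, h2⟩ := lemS hm hem i hJ' (fun x => c ((equivShrink J).symm x)) p
    refine ⟨q, hq, ⟨a⟩, fun j => c' (equivShrink J j), fun j => h1 _, fun j => ?_⟩
    have := h2 (equivShrink J j)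
    rwa [Equiv.symm_apply_apply] at this
  · intro a n b
    rw [eq_top_iff]
    refine hem.le_of fun p _ => ?_
    by_cases h : ∃ v, ((a.down, n, b.down), v) ∈ (p i).1
    · obtain ⟨v, hv⟩ := h
      exact ⟨p, le_rfl, (hem.mono _ _ ((le_sg hm).2 hv)).trans
        (le_iSup (fun v : ULift.{1} (Th (m i)) => em (sg hm i ((a.down, n, b.down), v.down))) ⟨v⟩)⟩
    · push Not at h
      refine ⟨Function.update p i (cup (hm.inf i) (p i)
        (sgl (hm.inf i) ((a.down, n, b.down), b.down)) ?_), ?_, ?_⟩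
      · intro x y y' h1 h2
        have h2 : (x, y') = ((a.down, n, b.down), b.down) := h2
        rw [Prod.mk.injEq] at h2
        exact absurd h1 (by rw [h2.1]; exact h y)
      · exact update_le (fun k _ => le_rfl) cup_le
      · refine (hem.mono _ _ ((le_sg hm).2 ?_)).trans
          (le_iSup (fun v : ULift.{1} (Th (m i)) => em (sg hm i ((a.down, n, b.down), v.down))) b)
        rw [Function.update_self]
        exact Or.inr rfl
  · intro a n b v v' hv
    by_contra hne
    obtain ⟨r, hr, hr'⟩ := hem.compat _ _ hne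
    rw [le_sg] at hr hr'
    exact hv (ULift.ext _ _ ((r i).2.1 _ _ _ hr hr'))
  · intro b a z p
    change Function.update p i _ = p
    rw [ow1_empty, Function.update_eq_self]
  · intro b a z z' X p h
    change Function.update p i _ = Function.update p i _
    rw [ow1_congr (fun n hn => by rw [h n hn])]
  · intro p₀
    obtain ⟨b, hb⟩ := ow1_fresh (hm.inf i) (p₀ i)
    exact ⟨⟨b⟩, fun a z X p hp => update_le (fun k _ => hp k) (hb _ _ _ _ (hp i))⟩
  · intro b a z X p n hn
    refine hem.mono _ _ ((le_sg hm).2 ?_)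
    rw [owP, Function.update_self]
    exact Or.inl ⟨n, hn, rfl⟩
  · intro α c hc b a z X X' p h hp
    refine (Sub.iff hem (proj_cutr hm i α.down) hc).2 ?_
    refine (hem.mono _ _ ?_).trans (hc _ hp)
    refine update_le (fun k hk => ?_) ?_
    · rw [cutr_ne hk]
      by_cases hk' : k < i
      · rw [cut_lt hk', cut_lt hk', owP, owP, Function.update_of_ne hk, Function.update_of_ne hk]
      · rw [cut_not hk', cut_not hk']
    · rw [cutr_self, owP, owP, Function.update_self, Function.update_self]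
      exact restr_ow1 (fun n hn => (h n hn).symm)
  · intro b a z X p p' hp
    refine update_le (fun k hk => ?_) ?_
    · rw [owP, Function.update_of_ne hk]; exact hp k
    · rw [owP, Function.update_self]; exact ow1_mono (hp i)
  · intro b a z X p q hq
    have h1 : q i ≤ ow1 (hm.inf i) b.down (fun n => (a n).down) (fun n => (z n).down) X (p i) := by
      have := hq i
      rwa [owP, Function.update_self] at this
    obtain ⟨s, hs, hs'⟩ := ow1_lift h1
    refine ⟨Function.update q i s, update_le (fun k hk => ?_) hs, ?_⟩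
    · have := hq k
      rwa [owP, Function.update_of_ne hk] at this
    · refine update_le (fun k hk => ?_) ?_
      · rw [Function.update_of_ne hk]
      · rw [Function.update_self]; exact hs'

end

/-- The forcing notion. -/
theorem exists_forcing : ∃ (B : Type 1) (_ : CompleteBooleanAlgebra B) (P : Type 1)
    (_ : Preorder P) (em : P → B), DenseEmb em ∧ Nonempty P ∧
    (∀ (J : Type 1) [Small.{0} J] (D : J → P → Prop), (∀ j p q, q ≤ p → D j p → D j q) →
      (∀ j p, ∃ q, q ≤ p ∧ D j q) → ∀ p, ∃ q, q ≤ p ∧ ∃ (W : Type 1) (_ : Small.{0} W)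
        (v : J → W → P), (∀ j t, D j (v j t)) ∧ ∀ j, em q ≤ ⨆ t, em (v j t)) ∧
    (∀ (J : Type 1) [Small.{0} J], ∃ (X : Type 1) (_ : Small.{0} X) (fam : X → J → B),
      ∀ (f : J → B) (p : P), ∃ q, q ≤ p ∧ ∃ x : X, ∀ j, em q ⊓ f j = em q ⊓ fam x j) ∧
    (∀ (I : Type 1) [Small.{0} I], ∃ (T Th : Type 1) (_ : LinearOrder T) (_ : WellFoundedLT T)
      (_ : LinearOrder Th) (_ : WellFoundedLT Th) (_ : Small.{0} Th),
      #I ≤ #Th ∧ Infinite Th ∧ Nonempty T ∧ Nonempty (GF em T Th)) := by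
  obtain ⟨m, hm⟩ := exists_good
  obtain ⟨B, iB, em, h1, h2, h3, h4⟩ := BVM.exists_completion (PP m)
  have hem : DenseEmb em := ⟨h1, h2, h3, h4⟩
  refine ⟨B, iB, PP m, inferInstance, em, hem, ⟨fun k => emp1 (m k)⟩, ?_, ?_, ?_⟩
  · intro J _ D hD1 hD2 p
    obtain ⟨q, hq, W, v, hv1, hv2⟩ := c1 hm hem (fun x : Shrink.{0} J => D ((equivShrink J).symm x))
      (fun j => hD1 _) (fun j => hD2 _) p
    refine ⟨q, hq, ULift.{1} W, inferInstance, fun j t => v (equivShrink J j) t.down,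
      fun j t => ?_, fun j => ?_⟩
    · have := hv1 (equivShrink J j) t.down
      rwa [Equiv.symm_apply_apply] at this
    · refine (hv2 (equivShrink J j)).trans (iSup_le fun t => ?_)
      exact le_iSup (fun t : ULift.{1} W => em (v (equivShrink J j) t.down)) ⟨t⟩
  · intro J _
    obtain ⟨X, fam, hX⟩ := c2 hm hem (Shrink.{0} J)
    refine ⟨ULift.{1} X, inferInstance, fun x j => fam x.down (equivShrink J j), fun f p => ?_⟩
    obtain ⟨q, hq, x, hx⟩ := hX (fun y => f ((equivShrink J).symm y)) p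
    refine ⟨q, hq, ⟨x⟩, fun j => ?_⟩
    have := hx (equivShrink J j)
    rwa [Equiv.symm_apply_apply] at this
  · intro I _
    obtain ⟨i, hi⟩ := hm.cof #(Shrink.{0} I)
    refine ⟨ULift.{1} (TT (m i)), ULift.{1} (Th (m i)), inferInstance, ?_,
      LinearOrder.lift' ULift.down ULift.down_injective, ?_, inferInstance, ?_, ?_, ?_,
      exists_GF hm hem i⟩
    · exact ⟨InvImage.wf ULift.down (wellFounded_lt (α := TT (m i)))⟩
    · exact ⟨InvImage.wf ULift.down (wellFounded_lt (α := Th (m i)))⟩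
    · have h5 : #(Shrink.{0} I) ≤ #(Th (m i)) := by
        rw [Cardinal.mk_ord_toType]; exact hi.trans (Order.le_succ _)
      obtain ⟨f⟩ := (Cardinal.le_def _ _).1 h5
      refine Cardinal.mk_le_of_injective (f := fun x => ULift.up (f (equivShrink I x))) ?_
      intro x y hxy
      exact (equivShrink I).injective (f.injective (congrArg ULift.down hxy))
    · have h6 : Infinite (Th (m i)) := by
        rw [Cardinal.infinite_iff, Cardinal.mk_ord_toType]
        exact (hm.inf i).trans (Order.le_succ _)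
      exact inferInstance
    · have h6 : Infinite (TT (m i)) := by
        rw [Cardinal.infinite_iff, Cardinal.mk_ord_toType]
        exact (kappa_inf hm i).trans (Order.le_succ _)
      exact inferInstance

end Pool.Agent.MBG.PC
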