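import Pool.Agent.MBG.Strat

/-! Choice of functions, restrictions, sequences. -/

set_option linter.unusedVariables false
set_option linter.unusedSectionVars false
set_option linter.unreachableTactic false
set_option linter.unusedTactic false

namespace Pool.Agent.MBG

open BVM BName SetModel MP63050e MPe811a4

universe u

variable {B : Type u} [CompleteBooleanAlgebra B]

/-- Choice of functions, uniformly in `h`. -/
theorem choice_fun {X Y : BName B} {R : (h : Ult B) → Mdl h → Mdl h → Prop}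
    (hR : BPred (fun h : Ult B => h)
      (fun h (p : BName B × BName B) => R h (Mdl.mk h p.1) (Mdl.mk h p.2)))
    {Q : Ult B → Prop} (hQ : Clop Q)
    (H : ∀ h, Q h → ∀ x, E h x (Mdl.mk h X) → ∃ y, E h y (Mdl.mk h Y) ∧ R h x y) :
    ∃ f : BName B, ∀ h, Q h → IsFun (E h) (Mdl.mk h f) (Mdl.mk h X) (Mdl.mk h Y) ∧
      ∀ x y, Has (E h) (Mdl.mk h f) [x, y] → R h x y := by
  obtain ⟨ι, e, c, hX, hs⟩ := exists_nice X
  have h1 : ∀ i, ∃ y : BName B, ∀ h, (Q h ∧ h.V (c i)) → E h (Mdl.mk h y) (Mdl.mk h Y) ∧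
      R h (Mdl.mk h (e i)) (Mdl.mk h y) := by
    intro i
    refine exists_wit (P := fun h y => E h y (Mdl.mk h Y) ∧ R h (Mdl.mk h (e i)) y) ?_ ?_
    · refine BPred.and (BPred.mem BTerm.id (BTerm.const _)) ?_
      refine BPred.comp (Δ := BName B) hR (f := fun y => (e i, y)) ?_
      intro p q
      refine le_inf ?_ le_rfl
      change _ ≤ beq (e i) (e i)
      rw [beq_refl]; exact le_top
    · intro h hh
      exact H h hh.1 _ (by rw [← hX h]; exact V_coe hh.2)
  choose y hy using h1
  refine ⟨hN e c y, fun h hq => ?_⟩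
  rw [← hX h]
  have hf := isFun_hN hs hQ (y := y) (L := Y) (fun h hq i hi => (hy i h ⟨hq, hi⟩).1) h hq
  refine ⟨hf, fun x z hxz => ?_⟩
  refine forall_mem (P := fun h x => ∀ z, Has (E h) (Mdl.mk h (hN e c y)) [x, z] → R h x z) e c
    ?_ hQ ?_ h hq x (has_mem hf hxz).1 z hxz
  · refine BPred.all (BPred.imp ?_ hR)
    exact bp_has2 (BTerm.const _) BTerm.id.fst BTerm.snd
  · intro h hq i hi z hz
    rw [has_hN hs hi] at hz
    subst hz
    exact (hy i h ⟨hq, hi⟩).2

/-! ### Functions in the model -/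

section
variable {h : Ult B}

theorem isFun_dom {f x y F G : Mdl h} (h1 : IsFun (E h) f x F) (h2 : IsFun (E h) f y G) :
    x = y := by
  apply Mdl.ext
  intro z
  constructor
  · intro hz
    obtain ⟨b, hb, -⟩ := h1.2 z hz
    exact (has_mem h2 hb).1
  · intro hz
    obtain ⟨b, hb, -⟩ := h2.2 z hz
    exact (has_mem h1 hb).1

theorem fun_ext {f g a L L' : Mdl h} (hf : IsFun (E h) f a L) (hg : IsFun (E h) g a L')
    (H : ∀ m v, Has (E h) f [m, v] → Has (E h) g [m, v]) : f = g := by
  apply Mdl.ext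
  intro z
  constructor
  · intro hz
    obtain ⟨m, v, -, -, hp⟩ := hf.1 z hz
    rw [isPair_iff] at hp
    subst hp
    exact (has_iff (by simp)).1 (H m v ((has_iff (by simp)).2 hz))
  · intro hz
    obtain ⟨m, v, hm, -, hp⟩ := hg.1 z hz
    rw [isPair_iff] at hp
    subst hp
    obtain ⟨v', hv', -⟩ := hf.2 m hm
    have h1 := H m v' hv'
    have h2 : Has (E h) g [m, v] := (has_iff (by simp)).2 hz
    rw [has_uniq hg h2 h1]
    exact (has_iff (by simp)).1 hv'

theorem has_res {s f n a b : Mdl h} (hs : IsRes (E h) s f n) :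
    Has (E h) s [a, b] ↔ Has (E h) f [a, b] ∧ E h a n := by
  rw [has_iff (by simp), has_iff (by simp), hs]
  refine and_congr_right fun _ => ?_
  constructor
  · rintro ⟨a', b', ha, hp⟩
    rw [isPair_iff] at hp
    rw [(pr_inj.1 (show pr h a b = pr h a' b' from hp)).1]
    exact ha
  · intro ha
    exact ⟨a, b, ha, isPair_iff.2 rfl⟩

theorem isFun_res {s f n w F : Mdl h} (hf : IsFun (E h) f w F) (hs : IsRes (E h) s f n)
    (hn : ∀ z, E h z n → E h z w) : IsFun (E h) s n F := by
  constructor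
  · intro p hp
    have h1 := (hs p).1 hp
    obtain ⟨a, b, ha, hb, hab⟩ := hf.1 p h1.1
    obtain ⟨-, a', b', ha', hp'⟩ := h1
    rw [isPair_iff] at hab hp'
    subst hab
    rw [← (pr_inj.1 hp').1] at ha'
    exact ⟨a, b, ha', hb, isPair_iff.2 rfl⟩
  · intro a ha
    obtain ⟨b, hb, hb'⟩ := hf.2 a (hn a ha)
    exact ⟨b, (has_res hs).2 ⟨hb, ha⟩, fun b' h' => hb' b' ((has_res hs).1 h').1⟩

end

theorem exists_res (f n : BName B) : ∃ s : BName B, ∀ h : Ult B,
    IsRes (E h) (Mdl.mk h s) (Mdl.mk h f) (Mdl.mk h n) := by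
  obtain ⟨s, hs⟩ := separation_name (H := fun h : Ult B => h)
    (D := fun h z => ∃ a b, E h a (Mdl.mk h n) ∧ IsPair (E h) z a b)
    (by
      repeat' first
        | exact BMap.id
        | apply BMap.fst
        | apply BMap.snd
        | exact BTerm.const _
        | apply bterm_opair
        | apply BTerm.of
        | apply BPred.mem
        | apply BPred.eq
        | apply bp_has2
        | apply bp_has3
        | apply bp_eq_pr
        | apply bp_isPair
        | apply bp_isUPair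
        | apply bp_isFun
        | apply BPred.not
        | apply BPred.and
        | apply BPred.or
        | apply BPred.iff
        | apply BPred.imp
        | refine BPred.ex ?_
        | refine BPred.all ?_
        | exact BPred.const _) f
  exact ⟨s, fun h p => hs h p⟩

theorem nN_sub_om {h : Ult B} (n : ℕ) (z : Mdl h) (hz : E h z (Mdl.mk h (nN B n))) :
    E h z (Mdl.mk h (omN B)) :=
  vN_subset_vNset h _ z hz

/-- To prove a statement for the elements of the natural number `k`. -/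
theorem forall_nN {P : (h : Ult B) → Mdl h → Prop}
    (hP : BPred (fun h : Ult B => h) (fun h (x : BName B) => P h (Mdl.mk h x)))
    {Q : Ult B → Prop} (hQ : Clop Q) (k : ℕ)
    (H : ∀ h, Q h → ∀ j, j < k → P h (Mdl.mk h (nN B j))) :
    ∀ h, Q h → ∀ z, E h z (Mdl.mk h (nN B k)) → P h z := by
  intro h hq z hz
  unfold nN at hz
  rw [vN_eq] at hz
  refine forall_mem (P := P) (fun b : {b : ULift.{u} ℕ // b < ULift.up k} => (vN b.1 : BName B))
    (fun _ => ⊤) hP hQ ?_ h hq z hz
  intro h hq j _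
  exact H h hq j.1.down (ulift_lt.1 j.2)

/-- To prove a statement for the elements of `ω`. -/
theorem forall_om' {P : (h : Ult B) → Mdl h → Prop}
    (hP : BPred (fun h : Ult B => h) (fun h (x : BName B) => P h (Mdl.mk h x)))
    {Q : Ult B → Prop} (hQ : Clop Q)
    (H : ∀ h, Q h → ∀ n : ℕ, P h (Mdl.mk h (nN B n))) :
    ∀ h, Q h → ∀ z, E h z (Mdl.mk h (omN B)) → P h z := by
  obtain ⟨b, hb⟩ := hQ
  intro h hq z hz
  exact forall_om hP b (fun h hh n => H h ((hb h).2 hh) n) h ((hb h).1 hq) z hz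

/-! ### Sequences -/

/-- The name of the sequence `n ↦ e (z n)`. -/
noncomputable def zN {ι : Type u} (e : ι → BName B) (z : ℕ → ι) : BName B :=
  hN (fun n : ULift.{u} ℕ => nN B n.down) (fun _ => ⊤) (fun n => e (z n.down))

theorem sep_om : Sep (fun n : ULift.{u} ℕ => nN B n.down) (fun _ => (⊤ : B)) := by
  intro h i j _ _ hij
  exact ULift.ext _ _ (nN_inj.1 hij)

theorem om_eq (h : Ult B) :
    Mdl.mk h (BName.mk (ULift.{u} ℕ) (fun n : ULift.{u} ℕ => nN B n.down) (fun _ => ⊤)) =
      Mdl.mk h (omN B) := by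
  apply Mdl.ext
  intro z
  constructor
  · refine forall_mem' (P := fun h z => E h z (Mdl.mk h (omN B))) _ _ ?_ ?_ h z
    · exact BPred.mem BTerm.id (BTerm.const _)
    · intro h n _
      exact E_nN_om _
  · refine forall_om' (P := fun h z => E h z (Mdl.mk h (BName.mk (ULift.{u} ℕ)
      (fun n : ULift.{u} ℕ => nN B n.down) (fun _ => ⊤)))) ?_ clop_true ?_ h trivial z
    · exact BPred.mem BTerm.id (BTerm.const _)
    · intro h _ n
      exact V_coe (e := fun n : ULift.{u} ℕ => nN B n.down) (c := fun _ => ⊤) (i := ULift.up n)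
        h.top'

variable {ι : Type u} {e : ι → BName B} {c : ι → B}

theorem has_zN {h : Ult B} {z : ℕ → ι} {n : ℕ} {y : Mdl h} :
    Has (E h) (Mdl.mk h (zN e z)) [Mdl.mk h (nN B n), y] ↔ y = Mdl.mk h (e (z n)) :=
  has_hN sep_om (i := ULift.up n) h.top'

theorem isFun_zN {Q : Ult B → Prop} (hQ : Clop Q) {z : ℕ → ι}
    (hz : ∀ h, Q h → ∀ n, h.V (c (z n))) {h : Ult B} (hq : Q h) :
    IsFun (E h) (Mdl.mk h (zN e z)) (Mdl.mk h (omN B)) (Mdl.mk h (BName.mk ι e c)) := by
  rw [← om_eq]
  exact isFun_hN sep_om hQ (y := fun n : ULift.{u} ℕ => e (z n.down))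
    (L := BName.mk ι e c) (fun h hq i _ => V_coe (hz h hq i.down)) h hq

/-- A name which is `a` if `b` holds and `a'` otherwise. -/
theorem exists_ite (b : B) (a a' : BName B) : ∃ y : BName B, ∀ h : Ult B,
    (h.V b → Mdl.mk h y = Mdl.mk h a) ∧ (¬ h.V b → Mdl.mk h y = Mdl.mk h a') := by
  classical
  obtain ⟨y, hy⟩ := exists_wit (P := fun h y => (h.V b → y = Mdl.mk h a) ∧
    (¬ h.V b → y = Mdl.mk h a')) (Q := fun _ => True) (by
      refine BPred.and (BPred.imp (bp_V b) ?_) (BPred.imp (BPred.not (bp_V b)) ?_)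
      · exact BPred.eq BTerm.id (BTerm.const _)
      · exact BPred.eq BTerm.id (BTerm.const _)) (by
      intro h _
      by_cases hb : h.V b
      · exact ⟨Mdl.mk h a, fun _ => rfl, fun h' => (h' hb).elim⟩
      · exact ⟨Mdl.mk h a', fun h' => (hb h').elim, fun _ => rfl⟩)
  exact ⟨y, fun h => hy h trivial⟩

end Pool.Agent.MBG
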