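import Pool.Agent.MBG.G1

/-! The names of the moves. -/

set_option linter.unusedVariables false
set_option linter.unusedSectionVars false
set_option linter.unreachableTactic false
set_option linter.unusedTactic false

namespace Pool.Agent.MBG

open BVM BName SetModel MP63050e MPe811a4 Cardinal

universe u

section fn

variable {B : Type u} [CompleteBooleanAlgebra B] {Th κ : Type u} [LinearOrder Th]
  [WellFoundedLT Th]

/-- The name of the function with value `y v` at the board `b` under `C b v`. -/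
noncomputable def fnN (C : Th → κ → B) (y : κ → BName B) : BName B :=
  hN (fun p : Th × κ => (vN p.1 : BName B)) (fun p => C p.1 p.2) (fun p => y p.2)

theorem eq_bot_of {b : B} (H : ∀ h : Ult B, ¬ h.V b) : b = ⊥ := by
  by_contra hb
  obtain ⟨h, hh⟩ := Ult.exists_of_ne_bot hb
  exact H h hh

theorem sep_fn {C : Th → κ → B} (hC : ∀ b v v', v ≠ v' → C b v ⊓ C b v' = ⊥) :
    Sep (fun p : Th × κ => (vN p.1 : BName B)) (fun p => C p.1 p.2) := by
  rintro h ⟨b, v⟩ ⟨b', v'⟩ hi hj hij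
  have h1 : b = b' := vN_inj.1 hij
  subst h1
  by_contra hne
  have h2 : v ≠ v' := fun h2 => hne (by rw [h2])
  have h3 : h.V (C b v ⊓ C b v') := (h.inf' _ _).2 ⟨hi, hj⟩
  rw [hC b v v' h2] at h3
  exact h.bot h3

variable {C : Th → κ → B} {y : κ → BName B}

theorem has_fnN (hC : ∀ b v v', v ≠ v' → C b v ⊓ C b v' = ⊥) {h : Ult B} {b : Th} {v : κ}
    (hv : h.V (C b v)) {z : Mdl h} :
    Has (E h) (Mdl.mk h (fnN C y)) [Mdl.mk h (vN b), z] ↔ z = Mdl.mk h (y v) :=
  has_hN (sep_fn hC) (i := (b, v)) hv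

theorem fn_dom {h : Ult B} (hs : h.V (⨅ b, ⨆ v, C b v)) :
    Mdl.mk h (BName.mk (Th × κ) (fun p => (vN p.1 : BName B)) (fun p => C p.1 p.2)) =
      Mdl.mk h (vNset B Th) := by
  apply Mdl.ext
  intro z
  constructor
  · refine forall_mem' (P := fun h z => E h z (Mdl.mk h (vNset B Th))) _ _ ?_ ?_ h z
    · exact BPred.mem BTerm.id (BTerm.const _)
    · intro h p _
      exact E_vN_vNset _
  · refine forall_full (P := fun h z => E h z (Mdl.mk h (BName.mk (Th × κ)
      (fun p => (vN p.1 : BName B)) (fun p => C p.1 p.2)))) _ ?_ (⨅ b, ⨆ v, C b v) ?_ h hs z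
    · exact BPred.mem BTerm.id (BTerm.const _)
    · intro h hs b
      refine h.mono ((iInf_le _ b).trans (iSup_le fun v => ?_)) hs
      exact coe_le_bmem (BName.mk (Th × κ) (fun p => (vN p.1 : BName B)) (fun p => C p.1 p.2))
        (b, v)

theorem isFun_fnN (hC : ∀ b v v', v ≠ v' → C b v ⊓ C b v' = ⊥) {Q : Ult B → Prop} (hQ : Clop Q)
    (hs : ∀ h, Q h → h.V (⨅ b, ⨆ v, C b v)) {L : BName B}
    (hL : ∀ h, Q h → ∀ b v, h.V (C b v) → E h (Mdl.mk h (y v)) (Mdl.mk h L)) :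
    ∀ h, Q h → IsFun (E h) (Mdl.mk h (fnN C y)) (Mdl.mk h (vNset B Th)) (Mdl.mk h L) := by
  intro h hq
  rw [← fn_dom (hs h hq)]
  exact isFun_hN (sep_fn hC) hQ (fun h hq p hp => hL h hq p.1 p.2 hp) h hq

end fn

variable {B : Type u} [CompleteBooleanAlgebra B] {P : Type u} [Preorder P] {em : P → B}
  {T Th ι : Type u} [LinearOrder T] [WellFoundedLT T] [LinearOrder Th] [WellFoundedLT Th]

/-- A code of a function: its values at `b` are given by a partition with members in `Sub a`. -/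
structure IsCode (G : GF em T Th) (c' : ι → B) (C : Th → ι → B) (a : T) : Prop where
  sub : ∀ b v, C b v ∈ G.Sub a
  disj : ∀ b v v', v ≠ v' → C b v ⊓ C b v' = ⊥
  le : ∀ b v, C b v ≤ c' v

/-- The truth value of: the code is defined on all boards. -/
noncomputable def cval (C : Th → ι → B) : B := ⨅ b, ⨆ v, C b v

/-- The situation below the condition `p`: `L = mk ι e c`, and the supports of the coefficients
of `L` and of the payoff set are bounded by `aA`. -/
structure Ctx (G : GF em T Th) (e : ι → BName B) (c : ι → B) (A : BName B) where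
  hem : DenseEmb em
  hs : Sep e c
  hTh : ℵ₀ ≤ #Th
  hι : #ι ≤ #Th
  p : P
  aA : T
  c' : ι → B
  a' : (ℕ → ι) → B
  d : ι
  sec : ι → Th
  s : Th → ι
  y : Th → BName B
  s_sec : ∀ v, s (sec v) = v
  c'_sub : ∀ v, c' v ∈ G.Sub aA
  a'_sub : ∀ z, a' z ∈ G.Sub aA
  hc : ∀ h : Ult B, h.V (em p) → ∀ v, h.V (c' v) ↔ h.V (c v)
  ha : ∀ h : Ult B, h.V (em p) → ∀ z, h.V (a' z) ↔ E h (Mdl.mk h (zN e z)) (Mdl.mk h A)
  hd : ∀ h : Ult B, h.V (em p) → h.V (c d)
  hy : ∀ (h : Ult B) x, (h.V (c' (s x)) → Mdl.mk h (y x) = Mdl.mk h (e (s x))) ∧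
    (¬ h.V (c' (s x)) → Mdl.mk h (y x) = Mdl.mk h (e d))

/-- Below a given condition there is such a situation. -/
theorem exists_ctx (hem : DenseEmb em) (G : GF em T Th) {e : ι → BName B} {c : ι → B}
    (hs : Sep e c) (A : BName B) (hTh : ℵ₀ ≤ #Th) (hι : #ι ≤ #Th) {q : P}
    (hq : Fo em q (fun h => ∃ r, E h r (Mdl.mk h (BName.mk ι e c)))) :
    ∃ X : Ctx G e c A, X.p ≤ q := by
  classical
  obtain ⟨q1, hq1, d, hd⟩ := decide_mem hem e c (Q := fun _ _ => True) (BPred.const _)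
    (p := q) (fun h hh => by
      obtain ⟨r, hr⟩ := hq h hh
      exact ⟨r, hr, trivial⟩)
  obtain ⟨sec, hsec⟩ : ∃ sec : ι → Th, Function.Injective sec := by
    obtain ⟨f⟩ := (Cardinal.le_def _ _).1 hι
    exact ⟨f, f.injective⟩
  have hne : Nonempty ι := ⟨d⟩
  let s : Th → ι := Function.invFun sec
  have hss : ∀ v, s (sec v) = v := Function.leftInverse_invFun hsec
  have hJ : #(ι ⊕ (ℕ → ι)) ≤ #(ℕ → Th) := by
    have h1 : #(ι ⊕ (ℕ → ι)) = #ι + #(ℕ → ι) := by simp
    have h2 : #(ℕ → ι) ≤ #(ℕ → Th) :=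
      Cardinal.mk_le_of_injective (f := fun z n => sec (z n)) (fun z z' hz => by
        funext n
        exact hsec (congrFun hz n))
    have h3 : #ι ≤ #(ℕ → Th) :=
      Cardinal.mk_le_of_injective (f := fun v (n : ℕ) => sec v) (fun v v' hv =>
        hsec (congrFun hv 0))
    have h4 : ℵ₀ ≤ #(ℕ → Th) := hTh.trans
      (Cardinal.mk_le_of_injective (f := fun v (n : ℕ) => v) (fun v v' hv => congrFun hv 0))
    rw [h1]
    exact Cardinal.add_le_of_le h4 h3 h2
  obtain ⟨q2, hq2, aA, c0, hc0, hc0'⟩ := G.supp (ι ⊕ (ℕ → ι)) hJ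
    (fun j => j.elim c (fun z => bmem (zN e z) A)) q1
  have key : ∀ (h : Ult B), h.V (em q2) → ∀ j, h.V (c0 j) ↔
      h.V ((fun j : ι ⊕ (ℕ → ι) => j.elim c (fun z => bmem (zN e z) A)) j) := by
    intro h hh j
    have h1 := hc0' j
    constructor
    · intro hj
      have h2 : h.V (em q2 ⊓ c0 j) := (h.inf' _ _).2 ⟨hh, hj⟩
      rw [← h1] at h2
      exact ((h.inf' _ _).1 h2).2
    · intro hj
      have h2 : h.V (em q2 ⊓ _) := (h.inf' _ _).2 ⟨hh, hj⟩
      rw [h1] at h2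
      exact ((h.inf' _ _).1 h2).2
  choose y hy using fun x : Th => exists_ite (c0 (Sum.inl (s x))) (e (s x)) (e d)
  refine ⟨{ hem := hem, hs := hs, hTh := hTh, hι := hι, p := q2, aA := aA,
            c' := fun v => c0 (Sum.inl v), a' := fun z => c0 (Sum.inr z), d := d, sec := sec,
            s := s, y := y, s_sec := hss, c'_sub := fun v => hc0 _, a'_sub := fun z => hc0 _,
            hc := fun h hh v => key h hh (Sum.inl v),
            ha := fun h hh z => key h hh (Sum.inr z),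
            hd := fun h hh => (hd h (h.mono (hem.mono _ _ hq2) hh)).1,
            hy := fun h x => hy x h }, hq2.trans hq1⟩

namespace Ctx

variable {G : GF em T Th} {e : ι → BName B} {c : ι → B} {A : BName B} (X : Ctx G e c A)

/-- The name of `L`. -/
def L (X : Ctx G e c A) : BName B := BName.mk ι e c

/-- The name of ONE's move at the coordinate `(a, n)`. -/
noncomputable def g (X : Ctx G e c A) (a : T) (n : ℕ) : BName B := fnN (G.gv a n) X.y

/-- The name of the set of the pairs `(f, a)` with `f` named at level `a`. -/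
noncomputable def Nm (X : Ctx G e c A) : BName B :=
  BName.mk {q : (Th → ι → B) × T // IsCode G X.c' q.1 q.2}
    (fun q => opair (fnN q.1.1 e) (vN q.1.2)) (fun q => cval q.1.1)

/-- The name of the set of the triples `(n, (a, g a n))`, `aA ≤ a`. -/
noncomputable def Gm (X : Ctx G e c A) : BName B :=
  BName.mk (ULift.{u} ℕ × {a : T // X.aA ≤ a})
    (fun q => opair (nN B q.1.down) (opair (vN q.2.1) (X.g q.2.1 q.1.down))) (fun _ => ⊤)

include X

theorem V_coe_c {h : Ult B} {v : ι} (hv : h.V (c v)) :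
    E h (Mdl.mk h (e v)) (Mdl.mk h X.L) := V_coe hv

theorem y_mem {h : Ult B} (hp : h.V (em X.p)) (x : Th) :
    E h (Mdl.mk h (X.y x)) (Mdl.mk h X.L) := by
  by_cases hx : h.V (X.c' (X.s x))
  · rw [(X.hy h x).1 hx]
    exact X.V_coe_c ((X.hc h hp _).1 hx)
  · rw [(X.hy h x).2 hx]
    exact X.V_coe_c (X.hd h hp)

theorem isFun_g {h : Ult B} (hp : h.V (em X.p)) (a : T) (n : ℕ) :
    IsFun (E h) (Mdl.mk h (X.g a n)) (Mdl.mk h (vNset B Th)) (Mdl.mk h X.L) := by
  refine isFun_fnN (fun b v v' hvv => G.gv_disj a n b v v' hvv) (clop_V (em X.p)) ?_ ?_ h hp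
  · intro h _
    have : (⨅ b, ⨆ v, G.gv a n b v) = ⊤ := by simp [G.gv_sup]
    rw [this]
    exact h.top'
  · intro h hp b v _
    exact X.y_mem hp v

theorem has_g {h : Ult B} {a : T} {n : ℕ} {b : Th} {v : ι} (h1 : h.V (G.gv a n b (X.sec v)))
    (h2 : h.V (X.c' v)) {z : Mdl h} :
    Has (E h) (Mdl.mk h (X.g a n)) [Mdl.mk h (vN b), z] ↔ z = Mdl.mk h (e v) := by
  have h3 := has_fnN (C := G.gv a n) (y := X.y) (fun b v v' hvv => G.gv_disj a n b v v' hvv) h1
    (z := z)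
  have h4 : Mdl.mk h (X.y (X.sec v)) = Mdl.mk h (e v) := by
    have h5 := (X.hy h (X.sec v)).1
    rw [X.s_sec] at h5
    exact h5 h2
  rw [h4] at h3
  exact h3

theorem mem_of_code {C : Th → ι → B} {a : T} (hC : IsCode G X.c' C a) {h : Ult B}
    (hp : h.V (em X.p)) {b : Th} {v : ι} (hv : h.V (C b v)) : h.V (c v) :=
  (X.hc h hp v).1 (h.mono (hC.le b v) hv)

theorem isFun_code {C : Th → ι → B} {a : T} (hC : IsCode G X.c' C a) {h : Ult B}
    (hp : h.V (em X.p)) (hv : h.V (cval C)) :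
    IsFun (E h) (Mdl.mk h (fnN C e)) (Mdl.mk h (vNset B Th)) (Mdl.mk h X.L) := by
  refine isFun_fnN hC.disj (Clop.and (clop_V (em X.p)) (clop_V (cval C))) ?_ ?_ h ⟨hp, hv⟩
  · intro h hh
    exact hh.2
  · intro h hh b v hv
    exact X.V_coe_c (X.mem_of_code hC hh.1 hv)

/-- Functions are named by codes, densely. -/
theorem exists_codes (f : ℕ → BName B) {q : P} (hq : q ≤ X.p) (k : ℕ)
    (hf : ∀ h : Ult B, h.V (em q) → ∀ j, j < k →
      IsFun (E h) (Mdl.mk h (f j)) (Mdl.mk h (vNset B Th)) (Mdl.mk h X.L)) :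
    ∃ r, r ≤ q ∧ ∃ a, X.aA ≤ a ∧ ∃ C : ℕ → Th → ι → B, ∀ j, j < k → IsCode G X.c' (C j) a ∧
      ∀ h : Ult B, h.V (em r) → h.V (cval (C j)) ∧ Mdl.mk h (f j) = Mdl.mk h (fnN (C j) e) := by
  classical
  have hJ : #(ULift.{u} ℕ × Th × ι) ≤ #(ℕ → Th) := by
    have h1 : #(ULift.{u} ℕ × Th × ι) = ℵ₀ * (#Th * #ι) := by simp
    have h2 : #Th ≤ #(ℕ → Th) :=
      Cardinal.mk_le_of_injective (f := fun v (n : ℕ) => v) (fun v v' hv => congrFun hv 0)
    rw [h1]
    refine le_trans ?_ h2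
    refine (mul_le_mul' X.hTh (mul_le_mul' le_rfl X.hι)).trans ?_
    rw [Cardinal.mul_eq_self X.hTh, Cardinal.mul_eq_self X.hTh]
  have hbp : ∀ (j : ℕ) (b : Th), BPred (fun h : Ult B => h) (fun h (v : BName B) =>
      Has (E h) (Mdl.mk h (f j)) [Mdl.mk h (vN b), Mdl.mk h v]) := fun j b =>
    bp_has2 (BTerm.const _) (BTerm.const _) BTerm.id
  let β : ℕ → Th → ι → B := fun j b v =>
    bval (fun h => Has (E h) (Mdl.mk h (f j)) [Mdl.mk h (vN b), Mdl.mk h (e v)]) ⊓ c v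
  have hβ : ∀ j b v (h : Ult B), h.V (β j b v) ↔
      Has (E h) (Mdl.mk h (f j)) [Mdl.mk h (vN b), Mdl.mk h (e v)] ∧ h.V (c v) := by
    intro j b v h
    rw [h.inf', ← ((hbp j b).clop (e v)).iff h]
  obtain ⟨r, hr, a0, c0, hc0, hc0'⟩ := G.supp (ULift.{u} ℕ × Th × ι) hJ
    (fun x => β x.1.down x.2.1 x.2.2) q
  have key : ∀ (h : Ult B), h.V (em r) → ∀ j b v,
      (h.V (c0 (ULift.up j, b, v)) ↔ h.V (β j b v)) := by
    intro h hh j b v
    have h1 := hc0' (ULift.up j, b, v)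
    constructor
    · intro hj
      have h2 : h.V (em r ⊓ c0 (ULift.up j, b, v)) := (h.inf' _ _).2 ⟨hh, hj⟩
      rw [← h1] at h2
      exact ((h.inf' _ _).1 h2).2
    · intro hj
      have h2 : h.V (em r ⊓ β j b v) := (h.inf' _ _).2 ⟨hh, hj⟩
      rw [h1] at h2
      exact ((h.inf' _ _).1 h2).2
  let ro : ι → ι → Prop := WellOrderingRel
  let C : ℕ → Th → ι → B := fun j b v => c0 (ULift.up j, b, v) ⊓ X.c' v ⊓
    (⨆ w : {w : ι // ro w v}, c0 (ULift.up j, b, w.1))ᶜ
  have hsub : ∀ j b v, C j b v ∈ G.Sub (max a0 X.aA) := by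
    intro j b v
    have h0 : ∀ x, c0 x ∈ G.Sub (max a0 X.aA) := fun x =>
      G.sub_mono _ _ (le_max_left _ _) (hc0 x)
    refine G.sub_inf (G.sub_inf (h0 _) ?_) ?_
    · exact G.sub_mono _ _ (le_max_right _ _) (X.c'_sub v)
    · exact G.sub_compl _ _ (G.sub_iSup fun w => h0 _)
  have hdis1 : ∀ j b v v', ro v v' → C j b v ⊓ C j b v' = ⊥ := by
    intro j b v v' hvv
    rw [← le_bot_iff, ← inf_compl_self (a := c0 (ULift.up j, b, v))]
    refine inf_le_inf (inf_le_left.trans inf_le_left) (inf_le_right.trans ?_)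
    exact compl_le_compl (le_iSup (fun w : {w : ι // ro w v'} => c0 (ULift.up j, b, w.1))
      ⟨v, hvv⟩)
  have hcode : ∀ j, IsCode G X.c' (C j) (max a0 X.aA) := by
    intro j
    refine ⟨hsub j, ?_, fun b v => inf_le_left.trans inf_le_right⟩
    intro b v v' hvv
    rcases trichotomous_of ro v v' with h1 | h1 | h1
    · exact hdis1 j b v v' h1
    · exact (hvv h1).elim
    · rw [inf_comm]; exact hdis1 j b v' v h1
  have hC1 : ∀ (h : Ult B), h.V (em r) → ∀ j b v, h.V (C j b v) →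
      Has (E h) (Mdl.mk h (f j)) [Mdl.mk h (vN b), Mdl.mk h (e v)] := by
    intro h hh j b v hv
    have h1 := h.mono (inf_le_left.trans inf_le_left) hv
    exact ((hβ j b v h).1 ((key h hh j b v).1 h1)).1
  have hC2 : ∀ j, j < k → ∀ b v, em r ⊓ β j b v ≤ C j b v := by
    intro j hj b v
    refine le_inf (le_inf ?_ ?_) ?_
    · rw [Ult.le_iff]
      intro h hh
      rw [h.inf'] at hh
      exact (key h hh.1 j b v).2 hh.2
    · rw [Ult.le_iff]
      intro h hh
      rw [h.inf'] at hh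
      exact (X.hc h (h.mono (X.hem.mono _ _ (hr.trans hq)) hh.1) v).2 ((hβ j b v h).1 hh.2).2
    · rw [le_compl_iff_disjoint_right, disjoint_iff, inf_iSup_eq]
      refine le_bot_iff.1 (iSup_le fun w => le_of_eq (eq_bot_of fun h hh => ?_))
      rw [h.inf', h.inf'] at hh
      obtain ⟨⟨h1, h2⟩, h3⟩ := hh
      have h4 := (hβ j b v h).1 h2
      have h5 := (hβ j b w.1 h).1 ((key h h1 j b w.1).1 h3)
      have h6 := has_uniq (hf h (h.mono (X.hem.mono _ _ hr) h1) j hj) h4.1 h5.1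
      have h7 : v = w.1 := X.hs h v w.1 h4.2 h5.2 h6
      have h8 := w.2
      rw [← h7] at h8
      exact irrefl_of ro v h8
  have hC3 : ∀ j, j < k → em r ≤ cval (C j) := by
    intro j hj
    refine le_iInf fun b => X.hem.le_of fun p hp => ?_
    obtain ⟨q', hq', v, hv⟩ := decide_mem X.hem e c
      (Q := fun h v => Has (E h) (Mdl.mk h (f j)) [Mdl.mk h (vN b), v]) (hbp j b) (p := p)
      (fun h hh => by
        have h1 := hf h (h.mono (X.hem.mono _ _ hr) (h.mono hp hh)) j hj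
        obtain ⟨v, hv, -⟩ := h1.2 _ (E_vN_vNset b)
        exact ⟨v, (has_mem h1 hv).2, hv⟩)
    refine ⟨q', hq', le_trans ?_ (le_iSup (C j b) v)⟩
    refine le_trans ?_ (hC2 j hj b v)
    rw [Ult.le_iff]
    intro h hh
    rw [h.inf', hβ]
    exact ⟨h.mono ((X.hem.mono _ _ hq').trans hp) hh, (hv h hh).2, (hv h hh).1⟩
  refine ⟨r, hr, max a0 X.aA, le_max_right _ _, C, fun j hj => ⟨hcode j, fun h hh => ?_⟩⟩
  have hv := h.mono (hC3 j hj) hh
  refine ⟨hv, ?_⟩
  have hp : h.V (em X.p) := h.mono (X.hem.mono _ _ (hr.trans hq)) hh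
  refine (fun_ext (X.isFun_code (hcode j) hp hv) (hf h (h.mono (X.hem.mono _ _ hr) hh) j hj)
    ?_).symm
  intro m v hmv
  rw [has_iff (by simp)] at hmv ⊢
  refine forall_mem (P := fun h p => E h p (Mdl.mk h (f j)))
    (fun p : Th × ι => opair (vN p.1 : BName B) (e p.2)) (fun p => C j p.1 p.2) ?_
    (clop_V (em r)) ?_ h hh _ hmv
  · exact BPred.mem BTerm.id (BTerm.const _)
  · intro h hh p hp
    exact (has_iff (by simp)).1 (hC1 h hh j p.1 p.2 hp)

end Ctx

end Pool.Agent.MBG
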