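import Pool.Agent.MBG.G2

/-! The strategy of player ONE and what is decided about a play. -/

set_option linter.unusedVariables false
set_option linter.unusedSectionVars false
set_option linter.unreachableTactic false
set_option linter.unusedTactic false

namespace Pool.Agent.MBG

open BVM BName SetModel MP63050e MPe811a4 Cardinal

universe u

variable {B : Type u} [CompleteBooleanAlgebra B] {P : Type u} [Preorder P] {em : P → B}
  {T Th ι : Type u} [LinearOrder T] [WellFoundedLT T] [LinearOrder Th] [WellFoundedLT Th]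

/-- The relation between the positions and the moves of ONE. -/
def OneRel {M : Type*} (E : M → M → Prop) (F Nm Gm s g : M) : Prop :=
  ∃ n a, IsFun E s n F ∧ Has E Gm [n, a, g] ∧ ∀ m f, Has E s [m, f] → Has E Nm [f, a]

theorem bp_oneRel {Γ : Type*} [BSet B Γ] {F Nm Gm s g : Γ → BName B} (hF : BTerm F)
    (hNm : BTerm Nm) (hGm : BTerm Gm) (hs : BTerm s) (hg : BTerm g) :
    BPred (fun h : Ult B => h) (fun h γ => OneRel (E h) (Mdl.mk h (F γ)) (Mdl.mk h (Nm γ))
      (Mdl.mk h (Gm γ)) (Mdl.mk h (s γ)) (Mdl.mk h (g γ))) := by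
  unfold OneRel
  refine BPred.ex (BPred.ex (BPred.and ?_ (BPred.and ?_ (BPred.all (BPred.all (BPred.imp ?_ ?_))))))
  · exact bp_isFun hs.fst.fst BTerm.snd.fst hF.fst.fst
  · exact bp_has3 hGm.fst.fst BTerm.snd.fst BTerm.snd hg.fst.fst
  · exact bp_has2 hs.fst.fst.fst.fst BTerm.snd.fst BTerm.snd
  · exact bp_has2 hNm.fst.fst.fst.fst BTerm.snd BTerm.snd.fst.fst

/-- Below two conditions whose meet is not zero there is a common extension. -/
theorem exists_below (hem : DenseEmb em) {p q : P} (h : em p ≤ em q) : ∃ r, r ≤ p ∧ r ≤ q :=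
  hem.compat p q (by rw [inf_eq_left.2 h]; exact hem.ne_bot p)

/-- To prove an implication whose assumption implies `em p₀`. -/
theorem imp_below (hem : DenseEmb em) {p₀ : P} {Q R : Ult B → Prop} (hQ : Clop Q) (hR : Clop R)
    (hQp : ∀ h, Q h → h.V (em p₀)) (H : ∀ p, p ≤ p₀ → Fo em p Q → ∃ q, q ≤ p ∧ Fo em q R) :
    ∀ h, Q h → R h := by
  refine imp_of_fo hem hQ hR fun p hp => ?_
  obtain ⟨r, hr1, hr2⟩ := exists_below hem (Ult.le_iff.2 fun h hh => hQp h (hp h hh))
  obtain ⟨q, hq, hqR⟩ := H r hr2 (Fo.mono hem hr1 hp)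
  exact ⟨q, hq.trans hr1, hqR⟩

/-- Deciding a natural number. -/
theorem decide_nat (hem : DenseEmb em) {Q : (h : Ult B) → Mdl h → Prop}
    (hQ : BPred (fun h : Ult B => h) (fun h (x : BName B) => Q h (Mdl.mk h x))) {p : P}
    (H : Fo em p (fun h => ∃ z, E h z (Mdl.mk h (omN B)) ∧ Q h z)) :
    ∃ q, q ≤ p ∧ ∃ k : ℕ, Fo em q (fun h => Q h (Mdl.mk h (nN B k))) := by
  obtain ⟨q, hq, k, hk⟩ := decide_mem hem (fun n : ULift.{u} ℕ => nN B n.down) (fun _ => ⊤) hQ
    (p := p) (fun h hh => by
      obtain ⟨z, hz, hz'⟩ := H h hh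
      exact ⟨z, by rw [om_eq]; exact hz, hz'⟩)
  exact ⟨q, hq, k.down, fun h hh => (hk h hh).2⟩

namespace Ctx

variable {G : GF em T Th} {e : ι → BName B} {c : ι → B} {A : BName B} (X : Ctx G e c A)
  {F S : BName B}
  (hF : ∀ h, IsMoves (E h) (Mdl.mk h (vNset B Th)) (Mdl.mk h X.L) (Mdl.mk h F))
  (hS : ∀ h, IsSeqSet (E h) (Mdl.mk h (omN B)) (Mdl.mk h F) (Mdl.mk h S))

include X hF

theorem g_mem {h : Ult B} (hp : h.V (em X.p)) (a : T) (n : ℕ) :
    E h (Mdl.mk h (X.g a n)) (Mdl.mk h F) := (hF h _).2 (X.isFun_g hp a n)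

omit hF in
theorem code_mem_Nm {C : Th → ι → B} {a : T} (hC : IsCode G X.c' C a) {h : Ult B}
    (hv : h.V (cval C)) :
    Has (E h) (Mdl.mk h X.Nm) [Mdl.mk h (fnN C e), Mdl.mk h (vN a)] := by
  rw [has_iff (by simp)]
  exact V_coe (e := fun q : {q : (Th → ι → B) × T // IsCode G X.c' q.1 q.2} =>
    opair (fnN q.1.1 e) (vN q.1.2)) (c := fun q => cval q.1.1) (i := ⟨(C, a), hC⟩) hv

omit hF in
theorem has_Gm {h : Ult B} {a : T} (ha : X.aA ≤ a) (n : ℕ) :
    Has (E h) (Mdl.mk h X.Gm) [Mdl.mk h (nN B n), Mdl.mk h (vN a), Mdl.mk h (X.g a n)] := by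
  rw [has_iff (by simp)]
  exact V_coe (e := fun q : ULift.{u} ℕ × {a : T // X.aA ≤ a} =>
    opair (nN B q.1.down) (opair (vN q.2.1) (X.g q.2.1 q.1.down))) (c := fun _ => ⊤)
    (i := (ULift.up n, ⟨a, ha⟩)) h.top'

/-- The moves of a position are named, densely. -/
theorem exists_named (s : BName B) {q : P} (hq : q ≤ X.p) (k : ℕ)
    (hs : Fo em q (fun h => IsFun (E h) (Mdl.mk h s) (Mdl.mk h (nN B k)) (Mdl.mk h F))) :
    ∃ r, r ≤ q ∧ ∃ a, X.aA ≤ a ∧ Fo em r (fun h => ∀ m f, Has (E h) (Mdl.mk h s) [m, f] →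
      Has (E h) (Mdl.mk h X.Nm) [f, Mdl.mk h (vN a)]) := by
  have hval : ∀ h : Ult B, h.V (em q) → ∀ j, j < k →
      Has (E h) (Mdl.mk h s) [Mdl.mk h (nN B j), Mdl.mk h (vl s (nN B j))] ∧
      E h (Mdl.mk h (vl s (nN B j))) (Mdl.mk h F) := fun h hh j hj =>
    has_vl_of (hs h hh) (E_nN_nN.2 hj)
  obtain ⟨r, hr, a, ha, C, hC⟩ := X.exists_codes (fun j => vl s (nN B j)) hq k
    (fun h hh j hj => (hF h _).1 (hval h hh j hj).2)
  refine ⟨r, hr, a, ha, fun h hh m f hmf => ?_⟩
  have hhq := h.mono (X.hem.mono _ _ hr) hh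
  refine forall_nN (P := fun h m => ∀ f, Has (E h) (Mdl.mk h s) [m, f] →
    Has (E h) (Mdl.mk h X.Nm) [f, Mdl.mk h (vN a)]) ?_ (clop_V (em r)) k ?_ h hh m
    (has_mem (hs h hhq) hmf).1 f hmf
  · repeat' first
      | exact BMap.id
      | apply BMap.fst
      | apply BMap.snd
      | exact BTerm.const _
      | apply bterm_opair
      | apply BTerm.of
      | apply BPred.mem
      | apply BPred.eq
      | apply bp_has2
      | apply bp_has3
      | apply bp_eq_pr
      | apply bp_isPair
      | apply bp_isUPair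
      | apply bp_isFun
      | apply BPred.not
      | apply BPred.and
      | apply BPred.or
      | apply BPred.iff
      | apply BPred.imp
      | refine BPred.ex ?_
      | refine BPred.all ?_
      | exact BPred.const _
  · intro h hh j hj f hf
    have hhq := h.mono (X.hem.mono _ _ hr) hh
    rw [has_uniq (hs h hhq) hf (hval h hhq j hj).1, ((hC j hj).2 h hh).2]
    exact X.code_mem_Nm (hC j hj).1 ((hC j hj).2 h hh).1

include hS

/-- A strategy of ONE. -/
theorem exists_one : ∃ σ : BName B, ∀ h : Ult B, h.V (em X.p) →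
    IsFun (E h) (Mdl.mk h σ) (Mdl.mk h S) (Mdl.mk h F) ∧
    ∀ s g, Has (E h) (Mdl.mk h σ) [s, g] → OneRel (E h) (Mdl.mk h F) (Mdl.mk h X.Nm)
      (Mdl.mk h X.Gm) s g := by
  refine choice_fun (R := fun h s g => OneRel (E h) (Mdl.mk h F) (Mdl.mk h X.Nm)
      (Mdl.mk h X.Gm) s g) (bp_oneRel (BTerm.const _) (BTerm.const _) (BTerm.const _)
      BTerm.id.fst BTerm.snd) (clop_V (em X.p)) ?_
  intro h hp s hs
  obtain ⟨s, rfl⟩ := s.exists_rep
  refine imp_below X.hem (p₀ := X.p) (Q := fun h => h.V (em X.p) ∧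
    E h (Mdl.mk h s) (Mdl.mk h S)) (R := fun h => ∃ g, E h g (Mdl.mk h F) ∧
    OneRel (E h) (Mdl.mk h F) (Mdl.mk h X.Nm) (Mdl.mk h X.Gm) (Mdl.mk h s) g)
    (Clop.and (clop_V _) (clop_mem _ _)) ?_ (fun h hh => hh.1) ?_ h ⟨hp, hs⟩
  · refine BPred.clop (P := fun h s => ∃ g, E h g (Mdl.mk h F) ∧
      OneRel (E h) (Mdl.mk h F) (Mdl.mk h X.Nm) (Mdl.mk h X.Gm) (Mdl.mk h s) g) ?_ s
    refine BPred.ex (BPred.and (BPred.mem BTerm.snd (BTerm.const _)) ?_)
    exact bp_oneRel (BTerm.const _) (BTerm.const _) (BTerm.const _) BTerm.id.fst BTerm.snd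
  · intro p hpp hp
    obtain ⟨q, hq, k, hk⟩ := decide_nat X.hem (Q := fun h n =>
      IsFun (E h) (Mdl.mk h s) n (Mdl.mk h F)) (by repeat' first
                                                     | exact BMap.id
                                                     | apply BMap.fst
                                                     | apply BMap.snd
                                                     | exact BTerm.const _
                                                     | apply bterm_opair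
                                                     | apply BTerm.of
                                                     | apply BPred.mem
                                                     | apply BPred.eq
                                                     | apply bp_has2
                                                     | apply bp_has3
                                                     | apply bp_eq_pr
                                                     | apply bp_isPair
                                                     | apply bp_isUPair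
                                                     | apply bp_isFun
                                                     | apply BPred.not
                                                     | apply BPred.and
                                                     | apply BPred.or
                                                     | apply BPred.iff
                                                     | apply BPred.imp
                                                     | refine BPred.ex ?_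
                                                     | refine BPred.all ?_
                                                     | exact BPred.const _) (p := p) (fun h hh =>
        (hS h _).1 (hp h hh).2)
    obtain ⟨r, hr, a, ha, hra⟩ := X.exists_named hF s (hq.trans hpp) k hk
    refine ⟨r, hr.trans hq, fun h hh => ?_⟩
    refine ⟨Mdl.mk h (X.g a k), X.g_mem hF (h.mono (X.hem.mono _ _ (hr.trans (hq.trans hpp))) hh)
      a k, Mdl.mk h (nN B k), Mdl.mk h (vN a), hk h (h.mono (X.hem.mono _ _ hr) hh),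
      X.has_Gm ha k, hra h hh⟩

omit hS in
/-- The decisions about the moves of ONE. -/
theorem decide_even (σ f : BName B) {q₀ : P} (hq₀ : q₀ ≤ X.p)
    (hσ : ∀ h : Ult B, h.V (em q₀) → ∀ s g, Has (E h) (Mdl.mk h σ) [s, g] →
      OneRel (E h) (Mdl.mk h F) (Mdl.mk h X.Nm) (Mdl.mk h X.Gm) s g)
    (hf : ∀ h : Ult B, h.V (em q₀) → IsFun (E h) (Mdl.mk h f) (Mdl.mk h (omN B)) (Mdl.mk h F) ∧
      FollowsOne (E h) (Mdl.mk h (evN B)) (Mdl.mk h σ) (Mdl.mk h f)) {m : ℕ} (hm : Even m)
    {q : P} (hq : q ≤ q₀) : ∃ r, r ≤ q ∧ ∃ a, X.aA ≤ a ∧ Fo em r (fun h =>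
      Has (E h) (Mdl.mk h f) [Mdl.mk h (nN B m), Mdl.mk h (X.g a m)] ∧
      ∀ j f', E h j (Mdl.mk h (nN B m)) → Has (E h) (Mdl.mk h f) [j, f'] →
        Has (E h) (Mdl.mk h X.Nm) [f', Mdl.mk h (vN a)]) := by
  obtain ⟨s, hs⟩ := exists_res f (nN B m)
  have hq' : ∀ h : Ult B, h.V (em q) → h.V (em q₀) := fun h hh => h.mono (X.hem.mono _ _ hq) hh
  have hφ : ∀ h : Ult B, h.V (em q₀) → Has (E h) (Mdl.mk h f)
      [Mdl.mk h (nN B m), Mdl.mk h (vl f (nN B m))] := fun h hh =>
    (has_vl_of (hf h hh).1 (E_nN_om m)).1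
  obtain ⟨r, hr, ⟨n, a, ha⟩, hra⟩ := decide_mem X.hem
    (fun q : ULift.{u} ℕ × {a : T // X.aA ≤ a} =>
      opair (nN B q.1.down) (opair (vN q.2.1) (X.g q.2.1 q.1.down))) (fun _ => ⊤)
    (Q := fun h x => ∃ α, x = pr h (Mdl.mk h (nN B m)) (pr h α (Mdl.mk h (vl f (nN B m)))) ∧
      ∀ m' f', Has (E h) (Mdl.mk h s) [m', f'] → Has (E h) (Mdl.mk h X.Nm) [f', α])
    (by repeat' first
          | exact BMap.id
          | apply BMap.fst
          | apply BMap.snd
          | exact BTerm.const _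
          | apply bterm_opair
          | apply BTerm.of
          | apply BPred.mem
          | apply BPred.eq
          | apply bp_has2
          | apply bp_has3
          | apply bp_eq_pr
          | apply bp_isPair
          | apply bp_isUPair
          | apply bp_isFun
          | apply BPred.not
          | apply BPred.and
          | apply BPred.or
          | apply BPred.iff
          | apply BPred.imp
          | refine BPred.ex ?_
          | refine BPred.all ?_
          | exact BPred.const _) (p := q) (fun h hh => by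
      have h1 := (hf h (hq' h hh)).2 (Mdl.mk h (nN B m)) (Mdl.mk h s) (Mdl.mk h (vl f (nN B m)))
        (E_evN.2 hm) (hs h) (hφ h (hq' h hh))
      obtain ⟨n, a, h2, h3, h4⟩ := hσ h (hq' h hh) _ _ h1
      have h5 := isFun_dom h2 (isFun_res (hf h (hq' h hh)).1 (hs h) (fun z => nN_sub_om m z))
      subst h5
      exact ⟨_, (has_iff (by simp)).1 h3, a, rfl, h4⟩)
  refine ⟨r, hr, a, ha, fun h hh => ?_⟩
  obtain ⟨-, α, h1, h2⟩ := hra h hh
  rw [← pr_mk, ← pr_mk] at h1
  obtain ⟨h3, h4⟩ := pr_inj.1 h1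
  obtain ⟨h5, h6⟩ := pr_inj.1 h4
  have h7 : n.down = m := nN_inj.1 h3
  change Mdl.mk h (X.g a n.down) = _ at h6
  rw [h7] at h6
  change Mdl.mk h (vN a) = α at h5
  rw [h6]
  refine ⟨hφ h (hq' h (h.mono (X.hem.mono _ _ hr) hh)), fun j f' hj hjf => ?_⟩
  rw [h5]
  exact h2 j f' ((has_res (hs h)).2 ⟨hjf, hj⟩)

omit hS hF in
/-- The decision of a code. -/
theorem decide_code (φ : BName B) {q : P} {a : T}
    (hφ : Fo em q (fun h => Has (E h) (Mdl.mk h X.Nm) [Mdl.mk h φ, Mdl.mk h (vN a)])) :
    ∃ r, r ≤ q ∧ ∃ C, IsCode G X.c' C a ∧ Fo em r (fun h =>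
      h.V (cval C) ∧ Mdl.mk h φ = Mdl.mk h (fnN C e)) := by
  obtain ⟨r, hr, ⟨⟨C, a'⟩, hC⟩, hra⟩ := decide_mem X.hem
    (fun q : {q : (Th → ι → B) × T // IsCode G X.c' q.1 q.2} =>
      opair (fnN q.1.1 e) (vN q.1.2)) (fun q => cval q.1.1)
    (Q := fun h x => x = pr h (Mdl.mk h φ) (Mdl.mk h (vN a)))
    (by repeat' first
          | exact BMap.id
          | apply BMap.fst
          | apply BMap.snd
          | exact BTerm.const _
          | apply bterm_opair
          | apply BTerm.of
          | apply BPred.mem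
          | apply BPred.eq
          | apply bp_has2
          | apply bp_has3
          | apply bp_eq_pr
          | apply bp_isPair
          | apply bp_isUPair
          | apply bp_isFun
          | apply BPred.not
          | apply BPred.and
          | apply BPred.or
          | apply BPred.iff
          | apply BPred.imp
          | refine BPred.ex ?_
          | refine BPred.all ?_
          | exact BPred.const _) (p := q) (fun h hh => ⟨_, (has_iff (by simp)).1 (hφ h hh), rfl⟩)
  have h1 : ∀ h : Ult B, h.V (em r) → Mdl.mk h (fnN C e) = Mdl.mk h φ ∧ a' = a := by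
    intro h hh
    have h1 := (hra h hh).2
    rw [← pr_mk] at h1
    obtain ⟨h2, h3⟩ := pr_inj.1 h1
    exact ⟨h2, vN_inj.1 h3⟩
  obtain ⟨h, hh⟩ := Ult.exists_of_ne_bot (X.hem.ne_bot r)
  have h2 := (h1 h hh).2
  subst h2
  exact ⟨r, hr, C, hC, fun h hh => ⟨(hra h hh).1, (h1 h hh).1.symm⟩⟩

omit hS hF in
/-- What `q` decides about the play `f`. -/
structure Dec (X : Ctx G e c A) (f : BName B) where
  q : P
  hq : q ≤ X.p
  a : ℕ → T
  μ : ℕ → ℕ
  C : ℕ → Th → ι → B
  a_ge : ∀ m, Even m → X.aA ≤ a m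
  hμ : ∀ k m, Even m → k < m → a (μ k) ≤ a m
  f_even : ∀ m, Even m → ∀ h : Ult B, h.V (em q) →
    Has (E h) (Mdl.mk h f) [Mdl.mk h (nN B m), Mdl.mk h (X.g (a m) m)]
  f_odd : ∀ k, Odd k → ∀ h : Ult B, h.V (em q) →
    Has (E h) (Mdl.mk h f) [Mdl.mk h (nN B k), Mdl.mk h (fnN (C k) e)]
  code : ∀ k, Odd k → IsCode G X.c' (C k) (a (μ k))
  hcval : ∀ k, Odd k → em q ≤ cval (C k)

omit hS in
theorem exists_dec (σ f : BName B) {q₀ : P} (hq₀ : q₀ ≤ X.p)
    (hσ : ∀ h : Ult B, h.V (em q₀) → ∀ s g, Has (E h) (Mdl.mk h σ) [s, g] →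
      OneRel (E h) (Mdl.mk h F) (Mdl.mk h X.Nm) (Mdl.mk h X.Gm) s g)
    (hf : ∀ h : Ult B, h.V (em q₀) → IsFun (E h) (Mdl.mk h f) (Mdl.mk h (omN B)) (Mdl.mk h F) ∧
      FollowsOne (E h) (Mdl.mk h (evN B)) (Mdl.mk h σ) (Mdl.mk h f)) :
    ∃ D : Dec X f, D.q ≤ q₀ := by
  classical
  obtain ⟨q1, hq1, h1⟩ := G.dist' (p := q₀) (D := fun m => {q | Even m → ∃ a, X.aA ≤ a ∧
      Fo em q (fun h => Has (E h) (Mdl.mk h f) [Mdl.mk h (nN B m), Mdl.mk h (X.g a m)] ∧
      ∀ j f', E h j (Mdl.mk h (nN B m)) → Has (E h) (Mdl.mk h f) [j, f'] →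
        Has (E h) (Mdl.mk h X.Nm) [f', Mdl.mk h (vN a)])}) (by
    intro m p q hqp hp hm
    obtain ⟨a, ha, hpa⟩ := hp hm
    exact ⟨a, ha, Fo.mono X.hem hqp hpa⟩) (by
    intro m q hq
    by_cases hm : Even m
    · obtain ⟨r, hr, h1⟩ := X.decide_even hF σ f hq₀ hσ hf hm hq
      exact ⟨r, hr, fun _ => h1⟩
    · exact ⟨q, le_rfl, fun h => (hm h).elim⟩)
  have h1' : ∀ m, ∃ a, Even m → X.aA ≤ a ∧
      Fo em q1 (fun h => Has (E h) (Mdl.mk h f) [Mdl.mk h (nN B m), Mdl.mk h (X.g a m)] ∧
      ∀ j f', E h j (Mdl.mk h (nN B m)) → Has (E h) (Mdl.mk h f) [j, f'] →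
        Has (E h) (Mdl.mk h X.Nm) [f', Mdl.mk h (vN a)]) := by
    intro m
    by_cases hm : Even m
    · obtain ⟨a, ha⟩ := h1 m hm
      exact ⟨a, fun _ => ha⟩
    · exact ⟨X.aA, fun h => (hm h).elim⟩
  choose a ha using h1'
  choose μ hμ1 hμ2 hμ3 using fun k => exists_min a k
  obtain ⟨q2, hq2, h2⟩ := G.dist' (p := q1) (D := fun k => {q | Odd k → ∃ C,
      IsCode G X.c' C (a (μ k)) ∧ Fo em q (fun h => h.V (cval C) ∧
        Has (E h) (Mdl.mk h f) [Mdl.mk h (nN B k), Mdl.mk h (fnN C e)])}) (by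
    intro m p q hqp hp hm
    obtain ⟨C, hC, hpC⟩ := hp hm
    exact ⟨C, hC, Fo.mono X.hem hqp hpC⟩) (by
    intro k q hq
    by_cases hk : Odd k
    · have hv : ∀ h : Ult B, h.V (em q) → Has (E h) (Mdl.mk h f)
          [Mdl.mk h (nN B k), Mdl.mk h (vl f (nN B k))] := fun h hh =>
        (has_vl_of (hf h (h.mono (X.hem.mono _ _ (hq.trans hq1)) hh)).1 (E_nN_om k)).1
      obtain ⟨r, hr, C, hC, hrC⟩ := X.decide_code (vl f (nN B k)) (q := q) (a := a (μ k))
        (fun h hh => ((ha (μ k) (hμ1 k)).2 h (h.mono (X.hem.mono _ _ hq) hh)).2 _ _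
          (E_nN_nN.2 (hμ2 k)) (hv h hh))
      refine ⟨r, hr, fun _ => ⟨C, hC, fun h hh => ⟨(hrC h hh).1, ?_⟩⟩⟩
      rw [← (hrC h hh).2]
      exact hv h (h.mono (X.hem.mono _ _ hr) hh)
    · exact ⟨q, le_rfl, fun h => (hk h).elim⟩)
  have h2' : ∀ k, ∃ C : Th → ι → B, Odd k → IsCode G X.c' C (a (μ k)) ∧
      Fo em q2 (fun h => h.V (cval C) ∧
        Has (E h) (Mdl.mk h f) [Mdl.mk h (nN B k), Mdl.mk h (fnN C e)]) := by
    intro k
    by_cases hk : Odd k
    · obtain ⟨C, hC⟩ := h2 k hk
      exact ⟨C, fun _ => hC⟩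
    · exact ⟨fun _ _ => ⊥, fun h => (hk h).elim⟩
  choose C hC using h2'
  exact ⟨{ q := q2, hq := hq2.trans (hq1.trans hq₀), a := a, μ := μ, C := C,
           a_ge := fun m hm => (ha m hm).1, hμ := fun k m hm hkm => hμ3 k m hm hkm,
           f_even := fun m hm h hh => ((ha m hm).2 h (h.mono (X.hem.mono _ _ hq2) hh)).1,
           f_odd := fun k hk h hh => ((hC k hk).2 h hh).2,
           code := fun k hk => (hC k hk).1,
           hcval := fun k hk => Ult.le_iff.2 fun h hh => ((hC k hk).2 h hh).1 },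
    hq2.trans hq1⟩

end Ctx

end Pool.Agent.MBG
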