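import Pool.Agent.MBG.G3

/-! The strategy of player TWO. -/

set_option linter.unusedVariables false
set_option linter.unusedSectionVars false
set_option linter.unreachableTactic false
set_option linter.unusedTactic false

namespace Pool.Agent.MBG

open BVM BName SetModel MP63050e MPe811a4 Cardinal

universe u

variable {B : Type u} [CompleteBooleanAlgebra B] {P : Type u} [Preorder P] {em : P → B}
  {T Th ι : Type u} [LinearOrder T] [WellFoundedLT T] [LinearOrder Th] [WellFoundedLT Th]

/-- `z` extends the sequence of the moves on the board `r` in the position `s` with domain `n`,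
followed by `v`, and it is consistent with the one-board strategy at `n`. -/
def Ext2 {M : Type*} (E : M → M → Prop) (W n s r v z : M) : Prop :=
  Has E W [z, n] ∧ (∀ m g v', Has E s [m, g] → Has E g [r, v'] → Has E z [m, v']) ∧ Has E z [n, v]

/-- The relation between the positions and the moves of TWO. -/
def TwoRel {M : Type*} (E : M → M → Prop) (X K F W s g : M) : Prop :=
  ∀ n, IsFun E s n F → ¬ E n X → ∀ r v, E r K → Has E g [r, v] → ∃ z, Ext2 E W n s r v z

theorem bp_ext2 {Γ : Type*} [BSet B Γ] {W n s r v z : Γ → BName B} (hW : BTerm W) (hn : BTerm n)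
    (hs : BTerm s) (hr : BTerm r) (hv : BTerm v) (hz : BTerm z) :
    BPred (fun h : Ult B => h) (fun h γ => Ext2 (E h) (Mdl.mk h (W γ)) (Mdl.mk h (n γ))
      (Mdl.mk h (s γ)) (Mdl.mk h (r γ)) (Mdl.mk h (v γ)) (Mdl.mk h (z γ))) := by
  unfold Ext2
  refine BPred.and ?_ (BPred.and ?_ ?_)
  · exact bp_has2 hW hz hn
  · refine BPred.all (BPred.all (BPred.all (BPred.imp ?_ (BPred.imp ?_ ?_))))
    · exact bp_has2 hs.fst.fst.fst BTerm.snd.fst.fst BTerm.snd.fst
    · exact bp_has2 BTerm.snd.fst hr.fst.fst.fst BTerm.snd
    · exact bp_has2 hz.fst.fst.fst BTerm.snd.fst.fst BTerm.snd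
  · exact bp_has2 hz hn hv

theorem bp_twoRel {Γ : Type*} [BSet B Γ] {X K F W s g : Γ → BName B} (hX : BTerm X)
    (hK : BTerm K) (hF : BTerm F) (hW : BTerm W) (hs : BTerm s) (hg : BTerm g) :
    BPred (fun h : Ult B => h) (fun h γ => TwoRel (E h) (Mdl.mk h (X γ)) (Mdl.mk h (K γ))
      (Mdl.mk h (F γ)) (Mdl.mk h (W γ)) (Mdl.mk h (s γ)) (Mdl.mk h (g γ))) := by
  unfold TwoRel
  refine BPred.all (BPred.imp ?_ (BPred.imp (BPred.not ?_) (BPred.all (BPred.all (BPred.imp ?_
    (BPred.imp ?_ (BPred.ex ?_)))))))
  · exact bp_isFun hs.fst BTerm.snd hF.fst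
  · exact BPred.mem BTerm.snd hX.fst
  · exact BPred.mem BTerm.snd.fst hK.fst.fst.fst
  · exact bp_has2 hg.fst.fst.fst BTerm.snd.fst BTerm.snd
  · exact bp_ext2 hW.fst.fst.fst.fst BTerm.snd.fst.fst.fst hs.fst.fst.fst.fst
      BTerm.snd.fst.fst BTerm.snd.fst BTerm.snd

namespace Ctx

variable {G : GF em T Th} {e : ι → BName B} {c : ι → B} {A : BName B} (X : Ctx G e c A)

/-- The name of the set of the pairs `(z, n)` with `z` consistent with the one-board strategy
`Tv` at `n`. -/
noncomputable def WN (e : ι → BName B) (c : ι → B) (Tv : ℕ → (ℕ → ι) → ι → B) : BName B :=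
  BName.mk (ULift.{u} ℕ × (ℕ → ι)) (fun q => opair (zN e q.2) (nN B q.1.down))
    (fun q => Tv q.1.down q.2 (q.2 q.1.down) ⊓ ⨅ j, c (q.2 j))

variable {F S : BName B}
  (hF : ∀ h, IsMoves (E h) (Mdl.mk h (vNset B Th)) (Mdl.mk h X.L) (Mdl.mk h F))
  (hS : ∀ h, IsSeqSet (E h) (Mdl.mk h (omN B)) (Mdl.mk h F) (Mdl.mk h S))

include X hF

/-- Deciding the moves on the board `b` in the position `s`. -/
theorem decide_board (s : BName B) {q : P} (hq : q ≤ X.p) {k : ℕ}
    (hs : Fo em q (fun h => IsFun (E h) (Mdl.mk h s) (Mdl.mk h (nN B k)) (Mdl.mk h F)))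
    (b : Th) : ∃ r, r ≤ q ∧ ∃ l : ℕ → ι, ∀ j, j < k → Fo em r (fun h => h.V (c (l j)) ∧
      ∀ g v, Has (E h) (Mdl.mk h s) [Mdl.mk h (nN B j), g] → Has (E h) g [Mdl.mk h (vN b), v] →
        v = Mdl.mk h (e (l j))) := by
  obtain ⟨r, hr, h1⟩ := G.dist' (p := q) (D := fun j => {q | j < k → ∃ v,
      Fo em q (fun h => h.V (c v) ∧
      ∀ g v', Has (E h) (Mdl.mk h s) [Mdl.mk h (nN B j), g] →
        Has (E h) g [Mdl.mk h (vN b), v'] → v' = Mdl.mk h (e v))}) (by
    intro m p q hqp hp hm
    obtain ⟨v, hv⟩ := hp hm
    exact ⟨v, Fo.mono X.hem hqp hv⟩) (by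
    intro j p hp
    by_cases hj : j < k
    · have h2 : ∀ h : Ult B, h.V (em p) →
          Has (E h) (Mdl.mk h s) [Mdl.mk h (nN B j), Mdl.mk h (vl s (nN B j))] ∧
          Has (E h) (Mdl.mk h (vl s (nN B j))) [Mdl.mk h (vN b),
            Mdl.mk h (vl (vl s (nN B j)) (vN b))] ∧
          E h (Mdl.mk h (vl (vl s (nN B j)) (vN b))) (Mdl.mk h X.L) := by
        intro h hh
        have h3 := has_vl_of (hs h (h.mono (X.hem.mono _ _ hp) hh)) (E_nN_nN.2 hj)
        have h4 := has_vl_of ((hF h _).1 h3.2) (E_vN_vNset b)
        exact ⟨h3.1, h4.1, h4.2⟩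
      obtain ⟨r, hr, v, hv⟩ := decide_mem X.hem e c
        (Q := fun h x => x = Mdl.mk h (vl (vl s (nN B j)) (vN b)))
        (BPred.eq BTerm.id (BTerm.const _)) (p := p) (fun h hh => ⟨_, (h2 h hh).2.2, rfl⟩)
      refine ⟨r, hr, fun _ => ⟨v, fun h hh => ⟨(hv h hh).1, fun g v' h3 h4 => ?_⟩⟩⟩
      have h5 := h2 h (h.mono (X.hem.mono _ _ hr) hh)
      have h6 := hs h (h.mono (X.hem.mono _ _ (hr.trans hp)) hh)
      rw [has_uniq h6 h3 h5.1] at h4
      rw [(hv h hh).2]
      exact has_uniq ((hF h _).1 (has_mem h6 h5.1).2) h4 h5.2.1
    · exact ⟨p, le_rfl, fun h => (hj h).elim⟩)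
  have h1' : ∀ j, ∃ v, j < k → Fo em r (fun h => h.V (c v) ∧
      ∀ g v', Has (E h) (Mdl.mk h s) [Mdl.mk h (nN B j), g] →
        Has (E h) g [Mdl.mk h (vN b), v'] → v' = Mdl.mk h (e v)) := by
    intro j
    by_cases hj : j < k
    · obtain ⟨v, hv⟩ := h1 j hj
      exact ⟨v, fun _ => hv⟩
    · exact ⟨X.d, fun h => (hj h).elim⟩
  choose l hl using h1'
  exact ⟨r, hr, l, hl⟩

include hS

/-- A strategy of TWO. -/
theorem exists_two {p₀ : P} (hp₀ : p₀ ≤ X.p) {Tv : ℕ → (ℕ → ι) → ι → B}
    (hT1 : ∀ k l l' v, (∀ j, j < k → l j = l' j) → Tv k l v = Tv k l' v)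
    (hT2 : ∀ k, Odd k → ∀ l p, p ≤ p₀ → ∃ q, q ≤ p ∧ ∃ v, em q ≤ Tv k l v)
    (hT3 : ∀ k, Odd k → ∀ l v, Tv k l v ≤ X.c' v) :
    ∃ τ : BName B, ∀ h : Ult B, h.V (em p₀) →
      IsFun (E h) (Mdl.mk h τ) (Mdl.mk h S) (Mdl.mk h F) ∧
      ∀ s g, Has (E h) (Mdl.mk h τ) [s, g] → TwoRel (E h) (Mdl.mk h (evN B))
        (Mdl.mk h (vNset B Th)) (Mdl.mk h F) (Mdl.mk h (WN e c Tv)) s g := by
  refine choice_fun (R := fun h s g => TwoRel (E h) (Mdl.mk h (evN B))
        (Mdl.mk h (vNset B Th)) (Mdl.mk h F) (Mdl.mk h (WN e c Tv)) s g)
      (bp_twoRel (BTerm.const _) (BTerm.const _) (BTerm.const _) (BTerm.const _)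
      BTerm.id.fst BTerm.snd) (clop_V (em p₀)) ?_
  intro h hp s hs
  obtain ⟨s, rfl⟩ := s.exists_rep
  refine imp_below X.hem (p₀ := p₀) (Q := fun h => h.V (em p₀) ∧
    E h (Mdl.mk h s) (Mdl.mk h S)) (R := fun h => ∃ g, E h g (Mdl.mk h F) ∧
    TwoRel (E h) (Mdl.mk h (evN B)) (Mdl.mk h (vNset B Th)) (Mdl.mk h F)
      (Mdl.mk h (WN e c Tv)) (Mdl.mk h s) g)
    (Clop.and (clop_V _) (clop_mem _ _)) ?_ (fun h hh => hh.1) ?_ h ⟨hp, hs⟩
  · refine BPred.clop (P := fun h s => ∃ g, E h g (Mdl.mk h F) ∧
      TwoRel (E h) (Mdl.mk h (evN B)) (Mdl.mk h (vNset B Th)) (Mdl.mk h F)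
        (Mdl.mk h (WN e c Tv)) (Mdl.mk h s) g) ?_ s
    refine BPred.ex (BPred.and (BPred.mem BTerm.snd (BTerm.const _)) ?_)
    exact bp_twoRel (BTerm.const _) (BTerm.const _) (BTerm.const _) (BTerm.const _)
      BTerm.id.fst BTerm.snd
  · intro p hpp hp
    obtain ⟨q, hq, k, hk⟩ := decide_nat X.hem (Q := fun h n =>
      IsFun (E h) (Mdl.mk h s) n (Mdl.mk h F)) (by repeat' first
                                                     | exact BMap.id
                                                     | apply BMap.fst
                                                     | apply BMap.snd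
                                                     | exact BTerm.const _
                                                     | apply bterm_opair
                                                     | apply BTerm.of
                                                     | apply BPred.mem
                                                     | apply BPred.eq
                                                     | apply bp_has2
                                                     | apply bp_has3
                                                     | apply bp_eq_pr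
                                                     | apply bp_isPair
                                                     | apply bp_isUPair
                                                     | apply bp_isFun
                                                     | apply BPred.not
                                                     | apply BPred.and
                                                     | apply BPred.or
                                                     | apply BPred.iff
                                                     | apply BPred.imp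
                                                     | refine BPred.ex ?_
                                                     | refine BPred.all ?_
                                                     | exact BPred.const _) (p := p) (fun h hh =>
        (hS h _).1 (hp h hh).2)
    have hqp₀ : q ≤ p₀ := hq.trans hpp
    have hqX : q ≤ X.p := hqp₀.trans hp₀
    refine ⟨q, hq, ?_⟩
    rcases Nat.even_or_odd k with hkk | hkk
    · intro h hh
      refine ⟨Mdl.mk h (X.g X.aA 0), X.g_mem hF (h.mono (X.hem.mono _ _ hqX) hh) _ _, ?_⟩
      intro n hn hne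
      rw [isFun_dom hn (hk h hh)] at hne
      exact (hne (E_evN.2 hkk)).elim
    · -- the answer on each board
      obtain ⟨g, hg⟩ := choice_fun (X := vNset B Th) (Y := X.L)
        (R := fun h r v => ∃ z, Ext2 (E h) (Mdl.mk h (WN e c Tv)) (Mdl.mk h (nN B k))
          (Mdl.mk h s) r v z) (BPred.ex (bp_ext2 (BTerm.const _) (BTerm.const _) (BTerm.const _)
          BTerm.id.fst.fst BTerm.snd.fst BTerm.snd)) (clop_V (em q)) (by
        intro h hh r hr
        refine forall_full (P := fun h r => ∃ v, E h v (Mdl.mk h X.L) ∧
          ∃ z, Ext2 (E h) (Mdl.mk h (WN e c Tv)) (Mdl.mk h (nN B k)) (Mdl.mk h s) r v z)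
          (fun b : Th => (vN b : BName B)) ?_ (em q) ?_ h hh r hr
        · refine BPred.ex (BPred.and (BPred.mem BTerm.snd (BTerm.const _)) (BPred.ex ?_))
          exact bp_ext2 (BTerm.const _) (BTerm.const _) (BTerm.const _)
            BTerm.id.fst.fst BTerm.snd.fst BTerm.snd
        · intro h hh b
          refine imp_below X.hem (p₀ := q) (Q := fun h => h.V (em q))
            (R := fun h => ∃ v, E h v (Mdl.mk h X.L) ∧ ∃ z, Ext2 (E h) (Mdl.mk h (WN e c Tv))
              (Mdl.mk h (nN B k)) (Mdl.mk h s) (Mdl.mk h (vN b)) v z) (clop_V _) ?_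
            (fun h hh => hh) ?_ h hh
          · refine BPred.clop (P := fun h s => ∃ v, E h v (Mdl.mk h X.L) ∧
              ∃ z, Ext2 (E h) (Mdl.mk h (WN e c Tv)) (Mdl.mk h (nN B k)) (Mdl.mk h s)
                (Mdl.mk h (vN b)) v z) ?_ s
            refine BPred.ex (BPred.and (BPred.mem BTerm.snd (BTerm.const _)) (BPred.ex ?_))
            exact bp_ext2 (BTerm.const _) (BTerm.const _) BTerm.id.fst.fst
              (BTerm.const _) BTerm.snd.fst BTerm.snd
          · intro p1 hp1 _
            obtain ⟨p2, hp2, l, hl⟩ := X.decide_board hF s (hp1.trans hqX)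
              (fun h hh => hk h (h.mono (X.hem.mono _ _ hp1) hh)) b
            obtain ⟨p3, hp3, v, hv⟩ := hT2 k hkk l p2 (hp2.trans (hp1.trans hqp₀))
            let z : ℕ → ι := fun j => if j < k then l j else if j = k then v else X.d
            have hz1 : ∀ j, j < k → z j = l j := fun j hj => if_pos hj
            have hz2 : z k = v := by
              change (if k < k then l k else if k = k then v else X.d) = v
              rw [if_neg (lt_irrefl k), if_pos rfl]
            have hz3 : ∀ j, k < j → z j = X.d := by
              intro j hj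
              change (if j < k then l j else if j = k then v else X.d) = X.d
              rw [if_neg (by omega), if_neg (by omega)]
            have hp3X : p3 ≤ X.p := hp3.trans (hp2.trans (hp1.trans hqX))
            have hTv : Tv k z v = Tv k l v := hT1 k z l v hz1
            have hvc : ∀ h : Ult B, h.V (em p3) → h.V (c v) := fun h hh =>
              (X.hc h (h.mono (X.hem.mono _ _ hp3X) hh) v).1
                (h.mono (hv.trans (hT3 k hkk l v)) hh)
            have hzc : ∀ h : Ult B, h.V (em p3) → ∀ j, h.V (c (z j)) := by
              intro h hh j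
              rcases lt_trichotomy j k with hj | hj | hj
              · rw [hz1 j hj]
                exact (hl j hj h (h.mono (X.hem.mono _ _ hp3) hh)).1
              · rw [hj, hz2]; exact hvc h hh
              · rw [hz3 j hj]; exact X.hd h (h.mono (X.hem.mono _ _ hp3X) hh)
            refine ⟨p3, hp3.trans hp2, fun h hh => ?_⟩
            refine ⟨Mdl.mk h (e v), X.V_coe_c (hvc h hh), Mdl.mk h (zN e z), ?_, ?_, ?_⟩
            · rw [has_iff (by simp)]
              refine V_coe (e := fun q : ULift.{u} ℕ × (ℕ → ι) =>
                opair (zN e q.2) (nN B q.1.down))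
                (c := fun q => Tv q.1.down q.2 (q.2 q.1.down) ⊓ ⨅ j, c (q.2 j))
                (i := (ULift.up k, z)) ?_
              refine (h.inf' _ _).2 ⟨?_, ?_⟩
              · change h.V (Tv k z (z k))
                rw [hz2, hTv]
                exact h.mono hv hh
              · refine h.mono (le_iInf fun j => ?_) hh
                exact Ult.le_iff.2 fun h hh => hzc h hh j
            · intro m g v' hm hv'
              have hsf : ∀ h : Ult B, h.V (em p3) →
                  IsFun (E h) (Mdl.mk h s) (Mdl.mk h (nN B k)) (Mdl.mk h F) := fun h hh =>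
                hk h (h.mono (X.hem.mono _ _ (hp3.trans (hp2.trans hp1))) hh)
              refine forall_nN (P := fun h m => ∀ g v', Has (E h) (Mdl.mk h s) [m, g] →
                Has (E h) g [Mdl.mk h (vN b), v'] → Has (E h) (Mdl.mk h (zN e z)) [m, v'])
                ?_ (clop_V (em p3)) k ?_ h hh m (has_mem (hsf h hh) hm).1 g v' hm hv'
              · repeat' first
                  | exact BMap.id
                  | apply BMap.fst
                  | apply BMap.snd
                  | exact BTerm.const _
                  | apply bterm_opair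
                  | apply BTerm.of
                  | apply BPred.mem
                  | apply BPred.eq
                  | apply bp_has2
                  | apply bp_has3
                  | apply bp_eq_pr
                  | apply bp_isPair
                  | apply bp_isUPair
                  | apply bp_isFun
                  | apply BPred.not
                  | apply BPred.and
                  | apply BPred.or
                  | apply BPred.iff
                  | apply BPred.imp
                  | refine BPred.ex ?_
                  | refine BPred.all ?_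
                  | exact BPred.const _
              · intro h hh j hj g v' h1 h2
                rw [has_zN, hz1 j hj]
                exact (hl j hj h (h.mono (X.hem.mono _ _ hp3) hh)).2 g v' h1 h2
            · rw [has_zN, hz2])
      intro h hh
      refine ⟨Mdl.mk h g, (hF h _).2 (hg h hh).1, ?_⟩
      intro n hn hne r v hr hrv
      rw [isFun_dom hn (hk h hh)]
      exact (hg h hh).2 r v hrv

end Ctx

end Pool.Agent.MBG
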