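import Pool.Agent.MBG.G4

/-! The game is determined. -/

set_option linter.unusedVariables false
set_option linter.unusedSectionVars false
set_option linter.unreachableTactic false
set_option linter.unusedTactic false

namespace Pool.Agent.MBG

open BVM BName SetModel MP63050e MPe811a4 Cardinal

universe u

variable {B : Type u} [CompleteBooleanAlgebra B] {P : Type u} [Preorder P] {em : P → B}
  {T Th ι : Type u} [LinearOrder T] [WellFoundedLT T] [LinearOrder Th] [WellFoundedLT Th]

namespace Ctx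

variable {G : GF em T Th} {e : ι → BName B} {c : ι → B} {A : BName B} (X : Ctx G e c A)

/-- Deciding a sequence of elements of `L`. -/
theorem decide_seq (x : BName B) {q : P} (hq : q ≤ X.p)
    (hx : Fo em q (fun h => IsFun (E h) (Mdl.mk h x) (Mdl.mk h (omN B)) (Mdl.mk h X.L))) :
    ∃ r, r ≤ q ∧ ∃ z : ℕ → ι, Fo em r (fun h =>
      (∀ n, h.V (c (z n))) ∧ Mdl.mk h x = Mdl.mk h (zN e z)) := by
  have hv : ∀ h : Ult B, h.V (em q) → ∀ j : ℕ,
      Has (E h) (Mdl.mk h x) [Mdl.mk h (nN B j), Mdl.mk h (vl x (nN B j))] ∧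
      E h (Mdl.mk h (vl x (nN B j))) (Mdl.mk h X.L) := fun h hh j =>
    has_vl_of (hx h hh) (E_nN_om j)
  obtain ⟨r, hr, h1⟩ := G.dist' (p := q) (D := fun j => {q | ∃ v,
      Fo em q (fun h => h.V (c v) ∧ Has (E h) (Mdl.mk h x) [Mdl.mk h (nN B j),
        Mdl.mk h (e v)])}) (by
    rintro m p q hqp ⟨v, hv⟩
    exact ⟨v, Fo.mono X.hem hqp hv⟩) (by
    intro j p hp
    obtain ⟨r, hr, v, hv'⟩ := decide_mem X.hem e c
      (Q := fun h y => y = Mdl.mk h (vl x (nN B j)))
      (BPred.eq BTerm.id (BTerm.const _)) (p := p) (fun h hh =>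
        ⟨_, (hv h (h.mono (X.hem.mono _ _ hp) hh) j).2, rfl⟩)
    refine ⟨r, hr, v, fun h hh => ⟨(hv' h hh).1, ?_⟩⟩
    rw [(hv' h hh).2]
    exact (hv h (h.mono (X.hem.mono _ _ (hr.trans hp)) hh) j).1)
  choose z hz using h1
  refine ⟨r, hr, z, fun h hh => ⟨fun n => (hz n h hh).1, ?_⟩⟩
  have hf : IsFun (E h) (Mdl.mk h (zN e z)) (Mdl.mk h (omN B)) (Mdl.mk h (BName.mk ι e c)) :=
    isFun_zN (clop_V (em r)) (fun h hh n => (hz n h hh).1) hh
  refine (fun_ext hf (hx h (h.mono (X.hem.mono _ _ hr) hh)) ?_).symm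
  intro m v hm
  refine forall_om' (P := fun h m => ∀ v, Has (E h) (Mdl.mk h (zN e z)) [m, v] →
    Has (E h) (Mdl.mk h x) [m, v]) ?_ (clop_V (em r)) ?_ h hh m (has_mem hf hm).1 v hm
  · repeat' first
      | exact BMap.id
      | apply BMap.fst
      | apply BMap.snd
      | exact BTerm.const _
      | apply bterm_opair
      | apply BTerm.of
      | apply BPred.mem
      | apply BPred.eq
      | apply bp_has2
      | apply bp_has3
      | apply bp_eq_pr
      | apply bp_isPair
      | apply bp_isUPair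
      | apply bp_isFun
      | apply BPred.not
      | apply BPred.and
      | apply BPred.or
      | apply BPred.iff
      | apply BPred.imp
      | refine BPred.ex ?_
      | refine BPred.all ?_
      | exact BPred.const _
  · intro h hh n v hv'
    rw [has_zN] at hv'
    rw [hv']
    exact (hz n h hh).2

variable {F S : BName B}
  (hF : ∀ h, IsMoves (E h) (Mdl.mk h (vNset B Th)) (Mdl.mk h X.L) (Mdl.mk h F))
  (hS : ∀ h, IsSeqSet (E h) (Mdl.mk h (omN B)) (Mdl.mk h F) (Mdl.mk h S))

include X hF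

/-- The moves on the board `r` of a play in which TWO follows the strategy are consistent with
the one-board strategy. -/
theorem consistent {q : P} {Tv : ℕ → (ℕ → ι) → ι → B}
    (hT1 : ∀ k l l' v, (∀ j, j < k → l j = l' j) → Tv k l v = Tv k l' v) {τ f r : BName B}
    {z : ℕ → ι}
    (hτ : ∀ h : Ult B, h.V (em q) → ∀ s g, Has (E h) (Mdl.mk h τ) [s, g] →
      TwoRel (E h) (Mdl.mk h (evN B)) (Mdl.mk h (vNset B Th)) (Mdl.mk h F)
        (Mdl.mk h (WN e c Tv)) s g)
    (hf : ∀ h : Ult B, h.V (em q) → IsFun (E h) (Mdl.mk h f) (Mdl.mk h (omN B)) (Mdl.mk h F) ∧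
      FollowsTwo (E h) (Mdl.mk h (omN B)) (Mdl.mk h (evN B)) (Mdl.mk h τ) (Mdl.mk h f) ∧
      E h (Mdl.mk h r) (Mdl.mk h (vNset B Th)) ∧
      IsBoard (E h) (Mdl.mk h (omN B)) (Mdl.mk h X.L) (Mdl.mk h f) (Mdl.mk h r)
        (Mdl.mk h (zN e z)) ∧ ∀ n, h.V (c (z n))) {k : ℕ} (hk : Odd k) :
    em q ≤ Tv k z (z k) := by
  rw [Ult.le_iff]
  intro h hh
  obtain ⟨s, hs⟩ := exists_res f (nN B k)
  -- the values of the play
  have hval : ∀ h : Ult B, h.V (em q) → ∀ j : ℕ,
      Has (E h) (Mdl.mk h f) [Mdl.mk h (nN B j), Mdl.mk h (vl f (nN B j))] ∧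
      Has (E h) (Mdl.mk h (vl f (nN B j))) [Mdl.mk h r, Mdl.mk h (e (z j))] := by
    intro h hh j
    obtain ⟨h1, h2, h3, h4, h5⟩ := hf h hh
    have h6 := has_vl_of h1 (E_nN_om j)
    have h7 := has_vl_of ((hF h _).1 h6.2) h3
    refine ⟨h6.1, ?_⟩
    have h8 := h4.2 _ _ _ h6.1 h7.1
    rw [has_zN] at h8
    rw [← h8]
    exact h7.1
  obtain ⟨h1, h2, h3, h4, h5⟩ := hf h hh
  have hne : ¬ E h (Mdl.mk h (nN B k)) (Mdl.mk h (evN B)) := by
    rw [E_evN, Nat.not_even_iff_odd]; exact hk
  have h6 := hτ h hh _ _ (h2 (Mdl.mk h (nN B k)) (Mdl.mk h s) _ (E_nN_om k) hne (hs h)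
    (hval h hh k).1)
  obtain ⟨z', h7, h8, h9⟩ := h6 (Mdl.mk h (nN B k))
    (isFun_res h1 (hs h) (fun z => nN_sub_om k z)) hne _ _ h3 (hval h hh k).2
  rw [has_iff (by simp)] at h7
  refine forall_mem (P := fun h p => ∀ z', p = pr h z' (Mdl.mk h (nN B k)) →
    (∀ m g v', Has (E h) (Mdl.mk h s) [m, g] → Has (E h) g [Mdl.mk h r, v'] →
      Has (E h) z' [m, v']) → Has (E h) z' [Mdl.mk h (nN B k), Mdl.mk h (e (z k))] →
      h.V (Tv k z (z k)))
    (fun q : ULift.{u} ℕ × (ℕ → ι) => opair (zN e q.2) (nN B q.1.down))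
    (fun q => Tv q.1.down q.2 (q.2 q.1.down) ⊓ ⨅ j, c (q.2 j)) ?_ (clop_V (em q)) ?_ h hh _ h7
    z' rfl h8 h9
  · refine BPred.all (BPred.imp ?_ (BPred.imp ?_ (BPred.imp ?_ (bp_V _))))
    · repeat' first
        | exact BMap.id
        | apply BMap.fst
        | apply BMap.snd
        | exact BTerm.const _
        | apply bterm_opair
        | apply BTerm.of
        | apply BPred.mem
        | apply BPred.eq
        | apply bp_has2
        | apply bp_has3
        | apply bp_eq_pr
        | apply bp_isPair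
        | apply bp_isUPair
        | apply bp_isFun
        | apply BPred.not
        | apply BPred.and
        | apply BPred.or
        | apply BPred.iff
        | apply BPred.imp
        | refine BPred.ex ?_
        | refine BPred.all ?_
        | exact BPred.const _
    · repeat' first
        | exact BMap.id
        | apply BMap.fst
        | apply BMap.snd
        | exact BTerm.const _
        | apply bterm_opair
        | apply BTerm.of
        | apply BPred.mem
        | apply BPred.eq
        | apply bp_has2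
        | apply bp_has3
        | apply bp_eq_pr
        | apply bp_isPair
        | apply bp_isUPair
        | apply bp_isFun
        | apply BPred.not
        | apply BPred.and
        | apply BPred.or
        | apply BPred.iff
        | apply BPred.imp
        | refine BPred.ex ?_
        | refine BPred.all ?_
        | exact BPred.const _
    · repeat' first
        | exact BMap.id
        | apply BMap.fst
        | apply BMap.snd
        | exact BTerm.const _
        | apply bterm_opair
        | apply BTerm.of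
        | apply BPred.mem
        | apply BPred.eq
        | apply bp_has2
        | apply bp_has3
        | apply bp_eq_pr
        | apply bp_isPair
        | apply bp_isUPair
        | apply bp_isFun
        | apply BPred.not
        | apply BPred.and
        | apply BPred.or
        | apply BPred.iff
        | apply BPred.imp
        | refine BPred.ex ?_
        | refine BPred.all ?_
        | exact BPred.const _
  · rintro h hh ⟨⟨k'⟩, z1⟩ hi z' hz' h8 h9
    rw [← pr_mk] at hz'
    obtain ⟨h10, h11⟩ := pr_inj.1 hz'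
    have h12 : k' = k := nN_inj.1 h11
    subst h12
    rw [h.inf'] at hi
    obtain ⟨hi1, hi2⟩ := hi
    obtain ⟨h1, h2, h3, h4, h5⟩ := hf h hh
    have hc1 : ∀ j, h.V (c (z1 j)) := fun j => h.mono (iInf_le _ j) hi2
    rw [← h10] at h8 h9
    have h13 : ∀ j, j < k' → z1 j = z j := by
      intro j hj
      have h14 := h8 (Mdl.mk h (nN B j)) _ _ ((has_res (hs h)).2 ⟨(hval h hh j).1, E_nN_nN.2 hj⟩)
        (hval h hh j).2
      rw [has_zN] at h14
      exact (X.hs h _ _ (h5 j) (hc1 j) h14).symm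
    have h15 : z1 k' = z k' := by
      rw [has_zN] at h9
      exact (X.hs h _ _ (h5 k') (hc1 k') h9).symm
    change h.V (Tv k' z1 (z1 k')) at hi1
    rw [hT1 k' z1 z _ h13, h15] at hi1
    exact hi1

include hS

theorem two_wins {f : BName B} (D : Dec X f)
    (hf : ∀ h : Ult B, h.V (em D.q) →
      IsFun (E h) (Mdl.mk h f) (Mdl.mk h (omN B)) (Mdl.mk h F) ∧
      ∀ r x, E h r (Mdl.mk h (vNset B Th)) →
        IsBoard (E h) (Mdl.mk h (omN B)) (Mdl.mk h X.L) (Mdl.mk h f) r x →
        ¬ E h x (Mdl.mk h A)) :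
    ∀ h : Ult B, h.V (em D.q) → TwoWins (E h) (Mdl.mk h (omN B)) (Mdl.mk h X.L)
      (Mdl.mk h (vNset B Th)) (Mdl.mk h F) (Mdl.mk h S) (Mdl.mk h (evN B)) (Mdl.mk h A) := by
  obtain ⟨b, Tv, hT1, hT2, hT3, hT4⟩ := exists_strategy G X.hem X.sec (p₀ := D.q) (a := D.a)
    (μ := D.μ) D.hμ (aA := X.aA) D.a_ge X.c'_sub (C := D.C) (fun k hk => (D.code k hk).sub)
    (fun k hk => (D.code k hk).le) (fun k hk b => (D.hcval k hk).trans (iInf_le _ b))
  obtain ⟨τ, hτ⟩ := X.exists_two hF hS D.hq hT1 hT2 hT3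
  intro h hh
  refine ⟨Mdl.mk h τ, (hτ h hh).1, ?_⟩
  intro f' hf' hfol r x hr hx hA
  obtain ⟨f', rfl⟩ := f'.exists_rep
  obtain ⟨r, rfl⟩ := r.exists_rep
  obtain ⟨x, rfl⟩ := x.exists_rep
  change E h (Mdl.mk h x) (Mdl.mk h A) at hA
  let Q : Ult B → Prop := fun h => h.V (em D.q) ∧
    (IsFun (E h) (Mdl.mk h f') (Mdl.mk h (omN B)) (Mdl.mk h F) ∧
    FollowsTwo (E h) (Mdl.mk h (omN B)) (Mdl.mk h (evN B)) (Mdl.mk h τ) (Mdl.mk h f') ∧
    E h (Mdl.mk h r) (Mdl.mk h (vNset B Th)) ∧
    IsBoard (E h) (Mdl.mk h (omN B)) (Mdl.mk h X.L) (Mdl.mk h f') (Mdl.mk h r) (Mdl.mk h x) ∧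
    E h (Mdl.mk h x) (Mdl.mk h A))
  have hQ : Clop Q := by
    refine Clop.and (clop_V _) ?_
    refine BPred.clop (P := fun h x =>
      IsFun (E h) (Mdl.mk h f') (Mdl.mk h (omN B)) (Mdl.mk h F) ∧
      FollowsTwo (E h) (Mdl.mk h (omN B)) (Mdl.mk h (evN B)) (Mdl.mk h τ) (Mdl.mk h f') ∧
      E h (Mdl.mk h r) (Mdl.mk h (vNset B Th)) ∧
      IsBoard (E h) (Mdl.mk h (omN B)) (Mdl.mk h X.L) (Mdl.mk h f') (Mdl.mk h r) (Mdl.mk h x) ∧
      E h (Mdl.mk h x) (Mdl.mk h A)) ?_ x
    unfold FollowsTwo IsBoard IsRes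
    repeat' first
      | exact BMap.id
      | apply BMap.fst
      | apply BMap.snd
      | exact BTerm.const _
      | apply bterm_opair
      | apply BTerm.of
      | apply BPred.mem
      | apply BPred.eq
      | apply bp_has2
      | apply bp_has3
      | apply bp_eq_pr
      | apply bp_isPair
      | apply bp_isUPair
      | apply bp_isFun
      | apply BPred.not
      | apply BPred.and
      | apply BPred.or
      | apply BPred.iff
      | apply BPred.imp
      | refine BPred.ex ?_
      | refine BPred.all ?_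
      | exact BPred.const _
  refine imp_below X.hem (p₀ := D.q) (Q := Q) (R := fun _ => False) hQ
    ⟨⊥, fun h => ⟨fun h' => h'.elim, fun h' => h.bot h'⟩⟩ (fun h hh => hh.1) ?_ h
    ⟨hh, hf', hfol, hr, hx, hA⟩
  intro p hp hpQ
  exfalso
  obtain ⟨q, hq, z, hz⟩ := X.decide_seq x (hp.trans D.hq) (fun h hh => (hpQ h hh).2.2.2.2.1.1)
  have hqD : q ≤ D.q := hq.trans hp
  have hqX : q ≤ X.p := hqD.trans D.hq
  have h1 : ∀ k, Odd k → em q ≤ Tv k z (z k) := by
    intro k hk
    refine X.consistent hF hT1 (τ := τ) (f := f') (r := r) (fun h hh =>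
      (hτ h (h.mono (X.hem.mono _ _ hqD) hh)).2) ?_ hk
    intro h hh
    obtain ⟨-, h2, h3, h4, h5, h6⟩ := hpQ h (h.mono (X.hem.mono _ _ hq) hh)
    refine ⟨h2, h3, h4, ?_, (hz h hh).1⟩
    rw [← (hz h hh).2]
    exact h5
  obtain ⟨w, hw, hw1, hw2, hw3⟩ := hT4 z q hqD h1
  have h2 : em w ≤ X.a' z := by
    refine hw3 _ (X.a'_sub z) (Ult.le_iff.2 fun h hh => ?_)
    rw [X.ha h (h.mono (X.hem.mono _ _ hqX) hh), ← (hz h hh).2]
    exact (hpQ h (h.mono (X.hem.mono _ _ hq) hh)).2.2.2.2.2
  have h3 : ∀ n, em w ≤ X.c' (z n) := by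
    intro n
    refine hw3 _ (X.c'_sub _) (Ult.le_iff.2 fun h hh => ?_)
    rw [X.hc h (h.mono (X.hem.mono _ _ hqX) hh)]
    exact (hz h hh).1 n
  have hwX : w ≤ X.p := hw.trans D.hq
  have h4 : ∀ h : Ult B, h.V (em w) → ∀ n, h.V (c (z n)) := fun h hh n =>
    (X.hc h (h.mono (X.hem.mono _ _ hwX) hh) _).1 (h.mono (h3 n) hh)
  obtain ⟨k, hk⟩ := Ult.exists_of_ne_bot (X.hem.ne_bot w)
  have hkD : k.V (em D.q) := k.mono (X.hem.mono _ _ hw) hk
  refine (hf k hkD).2 (Mdl.mk k (vN b)) (Mdl.mk k (zN e z)) (E_vN_vNset b) ⟨?_, ?_⟩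
    ((X.ha k (k.mono (X.hem.mono _ _ hwX) hk) z).1 (k.mono h2 hk))
  · exact isFun_zN (clop_V (em w)) h4 hk
  · intro n g v hn hg
    refine forall_om' (P := fun h n => ∀ g v, Has (E h) (Mdl.mk h f) [n, g] →
      Has (E h) g [Mdl.mk h (vN b), v] → Has (E h) (Mdl.mk h (zN e z)) [n, v]) ?_
      (clop_V (em w)) ?_ k hk n (has_mem (hf k hkD).1 hn).1 g v hn hg
    · repeat' first
        | exact BMap.id
        | apply BMap.fst
        | apply BMap.snd
        | exact BTerm.const _
        | apply bterm_opair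
        | apply BTerm.of
        | apply BPred.mem
        | apply BPred.eq
        | apply bp_has2
        | apply bp_has3
        | apply bp_eq_pr
        | apply bp_isPair
        | apply bp_isUPair
        | apply bp_isFun
        | apply BPred.not
        | apply BPred.and
        | apply BPred.or
        | apply BPred.iff
        | apply BPred.imp
        | refine BPred.ex ?_
        | refine BPred.all ?_
        | exact BPred.const _
    · intro h hh n g v hn hg
      have hD : h.V (em D.q) := h.mono (X.hem.mono _ _ hw) hh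
      rw [has_zN]
      rcases Nat.even_or_odd n with hn' | hn'
      · rw [has_uniq (hf h hD).1 hn (D.f_even n hn' h hD)] at hg
        exact (X.has_g (h.mono (hw2 n hn') hh) (h.mono (h3 n) hh)).1 hg
      · rw [has_uniq (hf h hD).1 hn (D.f_odd n hn' h hD)] at hg
        exact (has_fnN (D.code n hn').disj (h.mono (hw1 n hn') hh)).1 hg

end Ctx

theorem evens_uniq {h : Ult B} {X : Mdl h} (hX : IsEvens (E h) (Mdl.mk h (omN B)) X) :
    X = Mdl.mk h (evN B) := by
  have key : ∀ z, E h z (Mdl.mk h (omN B)) → (E h z X ↔ E h z (Mdl.mk h (evN B))) := by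
    intro z hz
    refine forall_om' (P := fun h z => ∀ X, IsEvens (E h) (Mdl.mk h (omN B)) X →
      (E h z X ↔ E h z (Mdl.mk h (evN B)))) ?_ clop_true ?_ h trivial z hz X hX
    · unfold IsEvens IsEmp IsSucc
      repeat' first
        | exact BMap.id
        | apply BMap.fst
        | apply BMap.snd
        | exact BTerm.const _
        | apply bterm_opair
        | apply BTerm.of
        | apply BPred.mem
        | apply BPred.eq
        | apply bp_has2
        | apply bp_has3
        | apply bp_eq_pr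
        | apply bp_isPair
        | apply bp_isUPair
        | apply bp_isFun
        | apply BPred.not
        | apply BPred.and
        | apply BPred.or
        | apply BPred.iff
        | apply BPred.imp
        | refine BPred.ex ?_
        | refine BPred.all ?_
        | exact BPred.const _
    · intro h _ n X hX
      rw [E_evN]
      induction n with
      | zero => exact ⟨fun _ => Even.zero, fun _ => hX.2.1 _ (isEmp_nN_zero h)⟩
      | succ n ih =>
        rw [hX.2.2 _ _ (E_nN_om n) (fun z => E_nN_succ n z), ih, Nat.even_add_one]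
  apply Mdl.ext
  intro z
  constructor
  · intro hz
    exact (key z (hX.1 z hz)).1 hz
  · intro hz
    exact (key z ((isEvens h).1 z hz)).2 hz

/-- The game with `Th` boards is determined. -/
theorem game (hem : DenseEmb em) (G : GF em T Th) (hTh : ℵ₀ ≤ #Th) {e : ι → BName B}
    {c : ι → B} (hs : Sep e c) (hι : #ι ≤ #Th) (A : BName B) (h : Ult B)
    (hL : ∃ x, E h x (Mdl.mk h (BName.mk ι e c))) :
    Determined (E h) (Mdl.mk h (omN B)) (Mdl.mk h (BName.mk ι e c)) (Mdl.mk h (vNset B Th))
      (Mdl.mk h A) := by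
  intro F S X hF hS hX
  obtain ⟨F0, hF0⟩ := exists_moves (vNset B Th) (BName.mk ι e c)
  obtain ⟨S0, hS0⟩ := exists_seqSet F0
  have h1 : F = Mdl.mk h F0 := Mdl.ext fun g => (hF g).trans (hF0 h g).symm
  subst h1
  have h2 : S = Mdl.mk h S0 := Mdl.ext fun g => (hS g).trans (hS0 h g).symm
  subst h2
  have h3 : X = Mdl.mk h (evN B) := evens_uniq hX
  subst h3
  by_contra hcon
  push Not at hcon
  obtain ⟨hone, htwo⟩ := hcon
  apply htwo
  have hQ : Clop (fun h : Ult B => (∃ r, E h r (Mdl.mk h (BName.mk ι e c))) ∧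
      ¬ OneWins (E h) (Mdl.mk h (omN B)) (Mdl.mk h (BName.mk ι e c)) (Mdl.mk h (vNset B Th))
        (Mdl.mk h F0) (Mdl.mk h S0) (Mdl.mk h (evN B)) (Mdl.mk h A)) := by
    refine BPred.clop (P := fun h A => (∃ r, E h r (Mdl.mk h (BName.mk ι e c))) ∧
      ¬ OneWins (E h) (Mdl.mk h (omN B)) (Mdl.mk h (BName.mk ι e c)) (Mdl.mk h (vNset B Th))
        (Mdl.mk h F0) (Mdl.mk h S0) (Mdl.mk h (evN B)) (Mdl.mk h A)) ?_ A
    unfold OneWins FollowsOne IsBoard IsRes
    repeat' first
      | exact BMap.id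
      | apply BMap.fst
      | apply BMap.snd
      | exact BTerm.const _
      | apply bterm_opair
      | apply BTerm.of
      | apply BPred.mem
      | apply BPred.eq
      | apply bp_has2
      | apply bp_has3
      | apply bp_eq_pr
      | apply bp_isPair
      | apply bp_isUPair
      | apply bp_isFun
      | apply BPred.not
      | apply BPred.and
      | apply BPred.or
      | apply BPred.iff
      | apply BPred.imp
      | refine BPred.ex ?_
      | refine BPred.all ?_
      | exact BPred.const _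
  have hR : Clop (fun h : Ult B =>
      TwoWins (E h) (Mdl.mk h (omN B)) (Mdl.mk h (BName.mk ι e c)) (Mdl.mk h (vNset B Th))
        (Mdl.mk h F0) (Mdl.mk h S0) (Mdl.mk h (evN B)) (Mdl.mk h A)) := by
    refine BPred.clop (P := fun h A =>
      TwoWins (E h) (Mdl.mk h (omN B)) (Mdl.mk h (BName.mk ι e c)) (Mdl.mk h (vNset B Th))
        (Mdl.mk h F0) (Mdl.mk h S0) (Mdl.mk h (evN B)) (Mdl.mk h A)) ?_ A
    unfold TwoWins FollowsTwo IsBoard IsRes
    repeat' first
      | exact BMap.id
      | apply BMap.fst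
      | apply BMap.snd
      | exact BTerm.const _
      | apply bterm_opair
      | apply BTerm.of
      | apply BPred.mem
      | apply BPred.eq
      | apply bp_has2
      | apply bp_has3
      | apply bp_eq_pr
      | apply bp_isPair
      | apply bp_isUPair
      | apply bp_isFun
      | apply BPred.not
      | apply BPred.and
      | apply BPred.or
      | apply BPred.iff
      | apply BPred.imp
      | refine BPred.ex ?_
      | refine BPred.all ?_
      | exact BPred.const _
  refine imp_of_fo hem hQ hR ?_ h ⟨hL, hone⟩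
  intro p hp
  obtain ⟨X, hX⟩ := exists_ctx hem G hs A hTh hι (fun h hh => (hp h hh).1)
  have hF0' : ∀ h, IsMoves (E h) (Mdl.mk h (vNset B Th)) (Mdl.mk h X.L) (Mdl.mk h F0) := hF0
  obtain ⟨σ, hσ⟩ := X.exists_one hF0' hS0
  obtain ⟨f, hf⟩ := exists_wit (P := fun h f => IsFun (E h) f (Mdl.mk h (omN B)) (Mdl.mk h F0) ∧
      FollowsOne (E h) (Mdl.mk h (evN B)) (Mdl.mk h σ) f ∧
      ∀ r x, E h r (Mdl.mk h (vNset B Th)) →
        IsBoard (E h) (Mdl.mk h (omN B)) (Mdl.mk h (BName.mk ι e c)) f r x →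
        ¬ E h x (Mdl.mk h A)) (Q := fun h => h.V (em X.p)) (by
      unfold FollowsOne IsBoard IsRes
      repeat' first
        | exact BMap.id
        | apply BMap.fst
        | apply BMap.snd
        | exact BTerm.const _
        | apply bterm_opair
        | apply BTerm.of
        | apply BPred.mem
        | apply BPred.eq
        | apply bp_has2
        | apply bp_has3
        | apply bp_eq_pr
        | apply bp_isPair
        | apply bp_isUPair
        | apply bp_isFun
        | apply BPred.not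
        | apply BPred.and
        | apply BPred.or
        | apply BPred.iff
        | apply BPred.imp
        | refine BPred.ex ?_
        | refine BPred.all ?_
        | exact BPred.const _) (by
      intro h hh
      have h1 := (hp h (h.mono (hem.mono _ _ hX) hh)).2
      by_contra hcon
      apply h1
      refine ⟨Mdl.mk h σ, (hσ h hh).1, fun f hf1 hf2 => ?_⟩
      by_contra hcon'
      apply hcon
      refine ⟨f, hf1, hf2, fun r x hr hx hA => hcon' ⟨r, x, hr, hx, hA⟩⟩)
  obtain ⟨D, hD⟩ := X.exists_dec hF0' σ f (q₀ := X.p) le_rfl (fun h hh => (hσ h hh).2)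
    (fun h hh => ⟨(hf h hh).1, (hf h hh).2.1⟩)
  refine ⟨D.q, D.hq.trans hX, ?_⟩
  exact X.two_wins hF0' hS0 D (fun h hh =>
    ⟨(hf h (h.mono (hem.mono _ _ D.hq) hh)).1, (hf h (h.mono (hem.mono _ _ D.hq) hh)).2.2⟩)

end Pool.Agent.MBG
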