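import Pool.Agent.MBG.U3

/-! The names with hereditarily small index types, and the set of all of them. -/

set_option linter.unusedVariables false
set_option linter.unusedSectionVars false
set_option linter.unreachableTactic false
set_option linter.unusedTactic false

namespace Pool.Agent.MBG

open BVM BName SetModel MP63050e MPe811a4

universe u v w

/-- Names with hereditarily small index types. -/
inductive SName (B : Type 1) : Type 1
  | mk (ι : Type) (a : ι → SName B) (b : ι → B) : SName B

variable {B : Type 1} [CompleteBooleanAlgebra B]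

/-- The name given by a small name. -/
def SName.emb : SName B → BName B
  | .mk ι a b => BName.mk (ULift.{1} ι) (fun i => (a i.down).emb) (fun i => b i.down)

theorem SName.emb_mk (ι : Type) (a : ι → SName B) (b : ι → B) :
    (SName.mk ι a b).emb = BName.mk (ULift.{1} ι) (fun i => (a i.down).emb) (fun i => b i.down) :=
  rfl

variable (B) in
/-- The name of the set of all small names. -/
def Mset : BName B := BName.mk (SName B) SName.emb (fun _ => ⊤)

/-- `x` belongs to the submodel. -/
def InM {h : Ult B} (x : Mdl h) : Prop := E h x (Mdl.mk h (Mset B))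

theorem inM_emb {h : Ult B} (s : SName B) : InM (Mdl.mk h s.emb) :=
  E_of_full (SName.emb : SName B → BName B) h s

/-- `x` is equivalent to a small name. -/
def IsS (x : BName B) : Prop := ∃ s : SName B, ∀ h : Ult B, Mdl.mk h x = Mdl.mk h s.emb

theorem IsS.inM {x : BName B} (hx : IsS x) {h : Ult B} : InM (Mdl.mk h x) := by
  obtain ⟨s, hs⟩ := hx
  rw [hs h]
  exact inM_emb s

theorem isS_emb (s : SName B) : IsS s.emb := ⟨s, fun _ => rfl⟩

theorem bp_inM {J : Type*} {H : J → Ult B} {Γ : Type v} [BSet B Γ] {f : Γ → BName B}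
    (hf : BTerm f) : BPred H (fun j γ => InM (Mdl.mk (H j) (f γ))) :=
  BPred.mem hf (BTerm.const _)

/-- Names with the same elements below `b`. -/
theorem mk_congr {J J' : Type 1} {a : J → BName B} {a' : J' → BName B} {f : J → B} {g : J' → B}
    {b : B} (H1 : ∀ h : Ult B, h.V b → ∀ j, h.V (f j) → E h (Mdl.mk h (a j)) (Mdl.mk h (BName.mk J' a' g)))
    (H2 : ∀ h : Ult B, h.V b → ∀ j, h.V (g j) → E h (Mdl.mk h (a' j)) (Mdl.mk h (BName.mk J a f)))
    {h : Ult B} (hb : h.V b) : Mdl.mk h (BName.mk J a f) = Mdl.mk h (BName.mk J' a' g) := by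
  apply Mdl.ext
  intro z
  constructor
  · refine forall_mem (P := fun h z => E h z (Mdl.mk h (BName.mk J' a' g))) a f ?_ (clop_V b) H1
      h hb z
    exact BPred.mem BTerm.id (BTerm.const _)
  · refine forall_mem (P := fun h z => E h z (Mdl.mk h (BName.mk J a f))) a' g ?_ (clop_V b) H2
      h hb z
    exact BPred.mem BTerm.id (BTerm.const _)

theorem isS_mk {J : Type 1} [Small.{0} J] {a : J → BName B} (ha : ∀ j, IsS (a j)) (b : J → B) :
    IsS (BName.mk J a b) := by
  choose s hs using ha
  refine ⟨SName.mk (Shrink.{0} J) (fun i => s ((equivShrink J).symm i))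
    (fun i => b ((equivShrink J).symm i)), fun h => ?_⟩
  rw [SName.emb_mk]
  refine mk_congr (b := ⊤) ?_ ?_ h.top'
  · intro h _ j hj
    have h1 := V_coe (e := fun i : ULift.{1} (Shrink.{0} J) =>
      (s ((equivShrink J).symm i.down)).emb) (c := fun i => b ((equivShrink J).symm i.down))
      (h := h) (i := ULift.up (equivShrink J j)) (by simpa using hj)
    rw [hs j h]
    simpa using h1
  · intro h _ j hj
    rw [← hs _ h]
    exact V_coe (e := a) (c := b) (i := (equivShrink J).symm j.down) hj

section

variable {h : Ult B}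

theorem inM_trans {x y : Mdl h} (hx : InM x) (hy : E h y x) : InM y := by
  refine forall_full (P := fun h x => ∀ y, E h y x → E h y (Mdl.mk h (Mset B)))
    (SName.emb : SName B → BName B) ?_ ⊤ ?_ h h.top' x hx y hy
  · exact BPred.all (BPred.imp (BPred.mem BTerm.snd BTerm.id.fst)
      (BPred.mem BTerm.snd (BTerm.const _)))
  · rintro h - ⟨ι, a, b⟩ y hy
    rw [SName.emb_mk] at hy
    refine forall_mem' (P := fun h y => E h y (Mdl.mk h (Mset B))) _ _ ?_ ?_ h y hy
    · exact BPred.mem BTerm.id (BTerm.const _)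
    · intro h i _
      exact inM_emb _

/-- Subsets of a name have names with the same index type. -/
theorem subset_name {J : Type 1} {a : J → BName B} {b : J → B} {y : BName B}
    (hy : ∀ z, E h z (Mdl.mk h y) → E h z (Mdl.mk h (BName.mk J a b))) :
    (Mdl.mk h y : Mdl h) = Mdl.mk h (BName.mk J a (fun i => bmem (a i) y)) := by
  apply Mdl.ext
  intro w
  obtain ⟨w, rfl⟩ := w.exists_rep
  constructor
  · intro hw
    have hw2 := hy _ hw
    rw [E_mk] at hw hw2 ⊢
    have : bmem w y ⊓ bmem w (BName.mk J a b) ≤ bmem w (BName.mk J a (fun i => bmem (a i) y)) := by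
      rw [bmem_mk w a b, inf_iSup_eq, bmem_mk]
      refine iSup_mono fun i => le_inf ?_ (inf_le_right.trans inf_le_right)
      refine le_trans ?_ (bmem_congr_left w (a i) y)
      exact le_inf (inf_le_right.trans inf_le_right) inf_le_left
    exact h.mono this ((h.inf' _ _).2 ⟨hw, hw2⟩)
  · intro hw
    rw [E_mk] at hw ⊢
    refine h.mono ?_ hw
    rw [bmem_mk]
    refine iSup_le fun i => ?_
    refine le_trans ?_ (bmem_congr_left (a i) w y)
    rw [beq_symm (a i) w, inf_comm]

theorem inM_subset {x y : Mdl h} (hx : InM x) (hy : ∀ z, E h z y → E h z x) : InM y := by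
  refine forall_full (P := fun h x => ∀ y, (∀ z, E h z y → E h z x) → E h y (Mdl.mk h (Mset B)))
    (SName.emb : SName B → BName B) ?_ ⊤ ?_ h h.top' x hx y hy
  · exact BPred.all (BPred.imp (BPred.all (BPred.imp (BPred.mem BTerm.snd BTerm.snd.fst)
      (BPred.mem BTerm.snd BTerm.id.fst.fst))) (BPred.mem BTerm.snd (BTerm.const _)))
  · rintro h - ⟨ι, a, b⟩ y hy
    obtain ⟨y, rfl⟩ := y.exists_rep
    rw [SName.emb_mk] at hy
    rw [subset_name hy]
    exact inM_emb (SName.mk ι a (fun i => bmem (a i).emb y))

theorem inM_up {x y : Mdl h} (hx : InM x) (hy : InM y) : InM (up h x y) := by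
  refine forall_full2 (P := fun h x y => InM (up h x y)) SName.emb SName.emb ?_ ?_ h x y hx hy
  · exact bp_inM (bterm_upair BTerm.id.fst BTerm.snd)
  · intro h s t
    rw [up_mk]
    refine IsS.inM (isS_mk (fun i => ?_) _)
    obtain ⟨i⟩ := i
    cases i
    · exact isS_emb _
    · exact isS_emb _

theorem isS_sunion (s : SName B) : IsS (sunion s.emb) := by
  obtain ⟨ι, a, b⟩ := s
  have h1 : ∀ i : (SName.mk ι a b).emb.Idx, Small.{0} ((SName.mk ι a b).emb.fam i).Idx := by
    intro i
    change Small.{0} ((a (ULift.down i)).emb).Idx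
    cases a (ULift.down i) with
    | mk ι' a' b' => exact (inferInstance : Small.{0} (ULift.{1} ι'))
  have h2 : Small.{0} (SName.mk ι a b).emb.Idx := (inferInstance : Small.{0} (ULift.{1} ι))
  refine isS_mk (fun p => ?_) _
  obtain ⟨i, j⟩ := p
  change IsS (((a (ULift.down i)).emb).fam j)
  revert j
  change ∀ j : ((a (ULift.down i)).emb).Idx, IsS (((a (ULift.down i)).emb).fam j)
  cases a (ULift.down i) with
  | mk ι' a' b' =>
    intro j
    exact isS_emb _

theorem exists_union {x : Mdl h} (hx : InM x) :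
    ∃ u, InM u ∧ ∀ z, E h z u ↔ ∃ y, E h y x ∧ E h z y := by
  refine forall_full (P := fun h x => ∃ u, InM u ∧ ∀ z, E h z u ↔ ∃ y, E h y x ∧ E h z y)
    (SName.emb : SName B → BName B) ?_ ⊤ ?_ h h.top' x hx
  · refine BPred.ex (BPred.and (bp_inM BTerm.snd) (BPred.all (BPred.iff ?_ (BPred.ex
      (BPred.and ?_ ?_)))))
    · exact BPred.mem BTerm.snd BTerm.snd.fst
    · exact BPred.mem BTerm.snd BTerm.id.fst.fst.fst
    · exact BPred.mem BTerm.snd.fst BTerm.snd
  · intro h _ s
    exact ⟨_, (isS_sunion s).inM, fun z => E_sunion h s.emb z⟩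

theorem isS_vN {α : Type 1} [Small.{0} α] [LinearOrder α] [WellFoundedLT α] (a : α) :
    IsS (vN a : BName B) := by
  induction a using (wellFounded_lt (α := α)).induction with
  | _ a ih =>
    rw [vN_eq]
    exact isS_mk (fun b : {b : α // b < a} => ih b.1 b.2) _

theorem isS_vNset (α : Type 1) [Small.{0} α] [LinearOrder α] [WellFoundedLT α] :
    IsS (vNset B α) := isS_mk (fun b => isS_vN b) _

theorem inM_om : InM (Mdl.mk h (omN B)) := (isS_vNset _).inM

end

end Pool.Agent.MBG
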