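import Pool.Agent.MBG.M1

/-! Power set and collection in the submodel. -/

set_option linter.unusedVariables false
set_option linter.unusedSectionVars false
set_option linter.unreachableTactic false
set_option linter.unusedTactic false

namespace Pool.Agent.MBG

open BVM BName SetModel MP63050e MPe811a4

universe u v w

variable {B : Type 1} [CompleteBooleanAlgebra B] {P : Type 1} [Preorder P]

/-- Small families of dense open sets have small predense subsets, densely. -/
def Fusion (em : P → B) : Prop :=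
  ∀ (J : Type 1) [Small.{0} J] (D : J → P → Prop), (∀ j p, ∃ q, q ≤ p ∧ D j q) →
    (∀ j p q, q ≤ p → D j p → D j q) → ∀ p, ∃ q, q ≤ p ∧
      ∃ (X : Type 1) (_ : Small.{0} X) (w : J → X → P), ∀ j, (∀ t, D j (w j t)) ∧
        em q ≤ ⨆ t, em (w j t)

/-- Small families of elements of `B` are, densely, in a small set of families. -/
def Approx (em : P → B) : Prop :=
  ∀ (J : Type 1) [Small.{0} J], ∃ (X : Type 1) (_ : Small.{0} X) (fam : X → J → B),
    ∀ (f : J → B) (p : P), ∃ q, q ≤ p ∧ ∃ x : X, ∀ j, em q ⊓ f j = em q ⊓ fam x j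

variable {em : P → B}

theorem V_of_inf {h : Ult B} {a b c : B} (H : a ⊓ b = a ⊓ c) (ha : h.V a) (hb : h.V b) : h.V c := by
  have h1 := (h.inf' _ _).2 ⟨ha, hb⟩
  rw [H, h.inf'] at h1
  exact h1.2

theorem exists_power (hem : DenseEmb em) (hA : Approx em) {h : Ult B} {x : Mdl h} (hx : InM x) :
    ∃ p, InM p ∧ ∀ y, (∀ z, E h z y → E h z x) → E h y p := by
  refine forall_full (P := fun h x => ∃ p, InM p ∧ ∀ y, (∀ z, E h z y → E h z x) → E h y p)
    (SName.emb : SName B → BName B) ?_ ⊤ ?_ h h.top' x hx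
  · refine BPred.ex (BPred.and (bp_inM BTerm.snd) (BPred.all (BPred.imp
      (BPred.all (BPred.imp ?_ ?_)) ?_)))
    · exact BPred.mem BTerm.snd BTerm.snd.fst
    · exact BPred.mem BTerm.snd BTerm.id.fst.fst.fst
    · exact BPred.mem BTerm.snd BTerm.snd.fst
  · rintro h - ⟨ι, a, b⟩
    obtain ⟨X, hX, fam, hfam⟩ := hA (ULift.{1} ι)
    refine ⟨Mdl.mk h (BName.mk X (fun x => BName.mk (ULift.{1} ι) (fun i => (a i.down).emb)
      (fam x)) (fun _ => ⊤)), ?_, ?_⟩
    · exact (isS_mk (fun x => isS_mk (fun i => isS_emb _) _) _).inM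
    · intro y hy
      obtain ⟨y, rfl⟩ := y.exists_rep
      rw [SName.emb_mk] at hy
      rw [subset_name hy]
      set f : ULift.{1} ι → B := fun i => bmem (a i.down).emb y with hf
      rw [E_mk, bmem_full]
      have key : (⊤ : B) ≤ ⨆ x, beq (BName.mk (ULift.{1} ι) (fun i => (a i.down).emb) f)
          (BName.mk (ULift.{1} ι) (fun i => (a i.down).emb) (fam x)) := by
        refine hem.le_of fun p _ => ?_
        obtain ⟨q, hqp, x, hx⟩ := hfam f p
        refine ⟨q, hqp, le_iSup_of_le x ?_⟩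
        rw [Ult.le_iff]
        intro h hq
        rw [← Mdl.mk_eq]
        refine mk_congr (b := em q) ?_ ?_ hq
        · intro h hq j hj
          exact V_coe (e := fun i : ULift.{1} ι => (a i.down).emb) (c := fam x) (i := j)
            (V_of_inf (hx j) hq hj)
        · intro h hq j hj
          exact V_coe (e := fun i : ULift.{1} ι => (a i.down).emb) (c := f) (i := j)
            (V_of_inf (hx j).symm hq hj)
      exact h.mono key h.top'

/-- The empty small name. -/
def SName.nil (B : Type 1) : SName B := SName.mk PEmpty (fun i => i.elim) (fun i => i.elim)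

/-- Collection in the submodel, uniformly. -/
theorem exists_coll (hem : DenseEmb em) (hF : Fusion em) {R : (h : Ult B) → Mdl h → Mdl h → Prop}
    (hR : BPred (fun h : Ult B => h)
      (fun h (p : BName B × BName B) => R h (Mdl.mk h p.1) (Mdl.mk h p.2)))
    {h : Ult B} {x : Mdl h} (hx : InM x) :
    ∃ w, InM w ∧ ∀ y, E h y x → (∃ z, InM z ∧ R h y z) → ∃ z, E h z w ∧ R h y z := by
  classical
  have bp1 : BPred (fun h : Ult B => h) (fun h (y : BName B) => ∃ z, InM z ∧ R h (Mdl.mk h y) z) :=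
    BPred.ex (Q := fun h y z => InM z ∧ R h (Mdl.mk h y) z) (BPred.and (bp_inM BTerm.snd) hR)
  have bp2 : BPred (fun h : Ult B => h) (fun h (q : BName B × BName B) =>
      ∃ w, InM w ∧ ∀ y, E h y (Mdl.mk h q.1) → (∃ z, InM z ∧ R h y z) → ∃ z, E h z w ∧ R h y z) := by
    refine BPred.ex (Q := fun h (q : BName B × BName B) w => InM w ∧ ∀ y, E h y (Mdl.mk h q.1) →
      (∃ z, InM z ∧ R h y z) → ∃ z, E h z w ∧ R h y z) (BPred.and (bp_inM BTerm.snd) ?_)
    refine BPred.all (Q := fun h (q : (BName B × BName B) × BName B) y =>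
      E h y (Mdl.mk h q.1.1) → (∃ z, InM z ∧ R h y z) → ∃ z, E h z (Mdl.mk h q.2) ∧ R h y z)
      (BPred.imp ?_ (BPred.imp ?_ ?_))
    · exact BPred.mem BTerm.snd BTerm.id.fst.fst.fst
    · exact bp1.comp (f := fun q : ((BName B × BName B) × BName B) × BName B => q.2)
        (fun γ γ' => inf_le_right)
    · refine BPred.ex (Q := fun h (q : ((BName B × BName B) × BName B) × BName B) z =>
        E h z (Mdl.mk h q.1.2) ∧ R h (Mdl.mk h q.2) z) (BPred.and ?_ ?_)
      · exact BPred.mem BTerm.snd BTerm.snd.fst.fst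
      · exact hR.comp (f := fun q : (((BName B × BName B) × BName B) × BName B) × BName B =>
          (q.1.2, q.2)) (fun γ γ' => le_inf (inf_le_left.trans inf_le_right) inf_le_right)
  have bp3 : BPred (fun h : Ult B => h) (fun h (x : BName B) =>
      ∃ w, InM w ∧ ∀ y, E h y (Mdl.mk h x) → (∃ z, InM z ∧ R h y z) → ∃ z, E h z w ∧ R h y z) :=
    bp2.comp (f := fun x : BName B => (x, x)) (fun γ γ' => le_inf le_rfl le_rfl)
  refine forall_full (P := fun h x => ∃ w, InM w ∧ ∀ y, E h y x → (∃ z, InM z ∧ R h y z) →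
    ∃ z, E h z w ∧ R h y z) (SName.emb : SName B → BName B) bp3 ⊤ ?_ h h.top' x hx
  rintro h - ⟨ι, a, b⟩
  rw [SName.emb_mk]
  set e : ULift.{1} ι → BName B := fun i => (a i.down).emb with he
  set cc : ULift.{1} ι → B := fun i => b i.down with hcc
  -- witnesses
  have hwit : ∀ i : ULift.{1} ι, ∃ z : BName B, ∀ h : Ult B,
      (∃ z, InM z ∧ R h (Mdl.mk h (e i)) z) →
        InM (Mdl.mk h z) ∧ R h (Mdl.mk h (e i)) (Mdl.mk h z) := fun i =>
    exists_wit (P := fun h z => InM z ∧ R h (Mdl.mk h (e i)) z)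
      (BPred.and (bp_inM BTerm.id) (hR.comp (f := fun z : BName B => (e i, z))
        (fun γ γ' => le_inf (by
          change _ ≤ beq (e i) (e i)
          rw [beq_refl]; exact le_top) le_rfl))) (fun h H => H)
  choose z hz using hwit
  have hcl : ∀ i, Clop (fun h : Ult B => ∃ z, InM z ∧ R h (Mdl.mk h (e i)) z) := fun i =>
    BPred.clop (P := fun h (y : BName B) => ∃ z, InM z ∧ R h (Mdl.mk h y) z) bp1 (e i)
  let D : ULift.{1} ι → P → Prop := fun i q =>
    (∀ h : Ult B, h.V (em q) → ¬ ∃ z, InM z ∧ R h (Mdl.mk h (e i)) z) ∨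
      ∃ s : SName B, ∀ h : Ult B, h.V (em q) → R h (Mdl.mk h (e i)) (Mdl.mk h s.emb)
  refine imp_of_fo (P := P) (em := em) hem clop_true (R := fun h => ∃ w, InM w ∧
    ∀ y, E h y (Mdl.mk h (BName.mk (ULift.{1} ι) e cc)) → (∃ z, InM z ∧ R h y z) →
      ∃ z, E h z w ∧ R h y z) (BPred.clop (P := fun h x => ∃ w, InM w ∧
        ∀ y, E h y (Mdl.mk h x) → (∃ z, InM z ∧ R h y z) → ∃ z, E h z w ∧ R h y z) bp3 _) ?_ h trivial
  intro p _
  obtain ⟨q, hqp, X, hX, w, hw⟩ := hF (ULift.{1} ι) D (by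
    intro i p
    obtain ⟨q, hqp, hq | hq⟩ := decide_fo hem (hcl i) p
    · obtain ⟨r, hrq, s, hs⟩ := decide_mem hem (SName.emb : SName B → BName B) (fun _ => ⊤)
        (Q := fun h x => R h (Mdl.mk h (e i)) x) (hR.comp (f := fun z : BName B => (e i, z))
          (fun γ γ' => le_inf (by
            change _ ≤ beq (e i) (e i)
            rw [beq_refl]; exact le_top) le_rfl)) (p := q) (fun h hh => by
            obtain ⟨z, hz, hz'⟩ := hq h hh
            exact ⟨z, hz, hz'⟩)
      exact ⟨r, hrq.trans hqp, Or.inr ⟨s, fun h hh => (hs h hh).2⟩⟩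
    · exact ⟨q, hqp, Or.inl hq⟩) (by
    rintro i p q hqp (hD | ⟨s, hs⟩)
    · exact Or.inl fun h hh => hD h (h.mono (hem.mono _ _ hqp) hh)
    · exact Or.inr ⟨s, fun h hh => hs h (h.mono (hem.mono _ _ hqp) hh)⟩) p
  let s' : ULift.{1} ι → X → SName B := fun i t =>
    if hh : ∃ s : SName B, ∀ h : Ult B, h.V (em (w i t)) → R h (Mdl.mk h (e i)) (Mdl.mk h s.emb)
    then Classical.choose hh else SName.nil B
  have hs' : ∀ i t, (∃ s : SName B, ∀ h : Ult B, h.V (em (w i t)) →
      R h (Mdl.mk h (e i)) (Mdl.mk h s.emb)) → ∀ h : Ult B, h.V (em (w i t)) →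
      R h (Mdl.mk h (e i)) (Mdl.mk h (s' i t).emb) := by
    intro i t hh
    have : s' i t = Classical.choose hh := dif_pos hh
    rw [this]
    exact Classical.choose_spec hh
  set W : BName B := BName.mk (ULift.{1} ι × X) (fun q => (s' q.1 q.2).emb) (fun _ => ⊤) with hW
  refine ⟨q, hqp, fun h hq => ⟨Mdl.mk h W, (isS_mk (fun _ => isS_emb _) _).inM, ?_⟩⟩
  have bp4 : BPred (fun h : Ult B => h) (fun h (y : BName B) =>
      (∃ z, InM z ∧ R h (Mdl.mk h y) z) → ∃ z, E h z (Mdl.mk h W) ∧ R h (Mdl.mk h y) z) :=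
    bp1.imp (BPred.ex (Q := fun h (y : BName B) z => E h z (Mdl.mk h W) ∧ R h (Mdl.mk h y) z)
      (BPred.and (BPred.mem BTerm.snd (BTerm.const _)) hR))
  refine forall_mem (P := fun h y => (∃ z, InM z ∧ R h y z) → ∃ z, E h z (Mdl.mk h W) ∧ R h y z)
    e cc bp4 (clop_V (em q)) ?_ h hq
  intro h hq i _
  refine of_iSup (P := fun h => (∃ z, InM z ∧ R h (Mdl.mk h (e i)) z) →
    ∃ z, E h z (Mdl.mk h W) ∧ R h (Mdl.mk h (e i)) z) (BPred.clop (P := fun h (y : BName B) =>
      (∃ z, InM z ∧ R h (Mdl.mk h y) z) → ∃ z, E h z (Mdl.mk h W) ∧ R h (Mdl.mk h y) z) bp4 (e i))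
    (fun t => em (w i t)) ?_ (h.mono (hw i).2 hq)
  intro t h ht hex
  rcases (hw i).1 t with hD | hD
  · exact (hD h ht hex).elim
  · exact ⟨Mdl.mk h (s' i t).emb, E_of_full (fun q : ULift.{1} ι × X => (s' q.1 q.2).emb) h (i, t),
      hs' i t hD h ht⟩

end Pool.Agent.MBG
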