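import Pool.Agent.MBG.M2

/-! The submodel is a model of ZFC. -/

set_option linter.unusedVariables false
set_option linter.unusedSectionVars false
set_option linter.unreachableTactic false
set_option linter.unusedTactic false

namespace Pool.Agent.MBG

open BVM BName SetModel MP63050e MPe811a4

universe u v w

variable {B : Type 1} [CompleteBooleanAlgebra B] {P : Type 1} [Preorder P] {em : P → B}

/-- The submodel. -/
abbrev SM (h : Ult B) : Type 2 := {x : Mdl h // InM x}

/-- The membership relation of the submodel. -/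
def ES (h : Ult B) (x y : SM h) : Prop := E h x.1 y.1

section Formula

open FirstOrder FirstOrder.Language

/-- Satisfaction with quantifiers bounded by the submodel. -/
def RealM (h : Ult B) {β : Type v} : {n : ℕ} → memLang.BoundedFormula β n → (β → Mdl h) →
    (Fin n → Mdl h) → Prop
  | _, .falsum, _, _ => False
  | _, .equal t₁ t₂, v, xs => letI := memStructure (E h);
      t₁.realize (Sum.elim v xs) = t₂.realize (Sum.elim v xs)
  | _, .rel R ts, v, xs => letI := memStructure (E h);
      Structure.RelMap R (fun i => (ts i).realize (Sum.elim v xs))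
  | _, .imp φ ψ, v, xs => RealM h φ v xs → RealM h ψ v xs
  | _, .all φ, v, xs => ∀ x, InM x → RealM h φ v (Fin.snoc xs x)

theorem bpred_realM {J : Type*} (H : J → Ult B) {β : Type v} {n : ℕ}
    (φ : memLang.BoundedFormula β n) :
    BPred H (fun j (γ : (β → BName B) × (Fin n → BName B)) =>
      RealM (H j) φ (fun b => Mdl.mk (H j) (γ.1 b)) (fun i => Mdl.mk (H j) (γ.2 i))) := by
  induction φ with
  | falsum => exact (BPred.const False).congr fun j γ => Iff.rfl
  | equal t₁ t₂ =>
    obtain ⟨f, hf, hf'⟩ := bterm_val H t₁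
    obtain ⟨g, hg, hg'⟩ := bterm_val H t₂
    refine (BPred.eq hf hg).congr fun j γ => ?_
    rw [← hf' j γ, ← hg' j γ]
    exact Iff.rfl
  | rel R ts =>
    cases R with
    | mem =>
      obtain ⟨f, hf, hf'⟩ := bterm_val H (ts 0)
      obtain ⟨g, hg, hg'⟩ := bterm_val H (ts 1)
      refine (BPred.mem hf hg).congr fun j γ => ?_
      rw [← hf' j γ, ← hg' j γ]
      exact Iff.rfl
  | imp φ ψ ih1 ih2 => exact (ih1.imp ih2).congr fun j γ => Iff.rfl
  | all φ ih =>
    rename_i n
    have h1 := BPred.comp (Δ := ((β → BName B) × (Fin n → BName B)) × BName B) ih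
      (f := fun p => (p.1.1, Fin.snoc p.1.2 p.2)) (by
        intro p q
        refine le_inf (inf_le_left.trans inf_le_left) (le_iInf fun i => ?_)
        refine Fin.lastCases ?_ (fun i => ?_) i
        · simp only [Fin.snoc_last]
          exact inf_le_right
        · simp only [Fin.snoc_castSucc]
          exact inf_le_left.trans (inf_le_right.trans (iInf_le _ i)))
    refine (BPred.all (Q := fun j γ x => InM x →
      RealM (H j) φ (fun b => Mdl.mk (H j) (γ.1 b)) (Fin.snoc (fun i => Mdl.mk (H j) (γ.2 i)) x))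
      (BPred.imp (bp_inM BTerm.snd) (h1.congr fun j γ => ?_))).congr fun j γ => Iff.rfl
    have : (Fin.snoc (fun i => Mdl.mk (H j) (γ.1.2 i)) (Mdl.mk (H j) γ.2) : Fin (n+1) → Mdl (H j)) =
        fun i => Mdl.mk (H j) ((Fin.snoc γ.1.2 γ.2 : Fin (n+1) → BName B) i) := by
      funext i
      refine Fin.lastCases ?_ (fun i => ?_) i
      · simp only [Fin.snoc_last]
      · simp only [Fin.snoc_castSucc]
    simp only [this]

theorem term_val {h : Ult B} {β : Type v} {n : ℕ} (t : memLang.Term (β ⊕ Fin n))
    (v : β → SM h) (xs : Fin n → SM h) :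
    (letI := memStructure (ES h); t.realize (Sum.elim v xs)).1 =
      letI := memStructure (E h); t.realize (Sum.elim (fun b => (v b).1) (fun i => (xs i).1)) := by
  cases t with
  | var a =>
    cases a with
    | inl b => rfl
    | inr i => rfl
  | func f _ => exact f.elim

theorem snoc_val {h : Ult B} {n : ℕ} (xs : Fin n → SM h) (x : SM h) :
    (fun i => ((Fin.snoc (α := fun _ => SM h) xs x) i).1) =
      (Fin.snoc (α := fun _ => Mdl h) (fun i => (xs i).1) x.1) := by
  funext i
  refine Fin.lastCases ?_ (fun i => ?_) i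
  · rw [Fin.snoc_last (α := fun _ => SM h), Fin.snoc_last (α := fun _ => Mdl h)]
  · rw [Fin.snoc_castSucc (α := fun _ => SM h), Fin.snoc_castSucc (α := fun _ => Mdl h)]

theorem realM_iff {h : Ult B} {β : Type v} {n : ℕ} (φ : memLang.BoundedFormula β n)
    (v : β → SM h) (xs : Fin n → SM h) :
    (letI := memStructure (ES h); φ.Realize v xs) ↔
      RealM h φ (fun b => (v b).1) (fun i => (xs i).1) := by
  induction φ with
  | falsum => exact Iff.rfl
  | equal t₁ t₂ =>
    rw [RealM, ← term_val t₁, ← term_val t₂]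
    exact Subtype.ext_iff
  | rel R ts =>
    cases R with
    | mem =>
      exact iff_of_eq (congrArg₂ (E h) (term_val (ts 0) v xs) (term_val (ts 1) v xs))
  | imp φ ψ ih1 ih2 => exact imp_congr (ih1 xs) (ih2 xs)
  | all φ ih =>
    rename_i n
    constructor
    · intro H x hx
      have h1 := (ih (Fin.snoc xs (⟨x, hx⟩ : SM h))).1 (H ⟨x, hx⟩)
      exact (congrArg (RealM h φ _) (snoc_val xs ⟨x, hx⟩)).mp h1
    · intro H x
      refine (ih (Fin.snoc xs x)).2 ?_
      exact (congrArg (RealM h φ _) (snoc_val xs x)).mpr (H x.1 x.2)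

theorem def₁_SM {h : Ult B} {D : SM h → Prop} (hD : Def₁ (ES h) D) :
    ∃ D' : Mdl h → Prop, BPred (fun _ : Unit => h) (fun _ (x : BName B) => D' (Mdl.mk h x)) ∧
      ∀ x : SM h, D x ↔ D' x.1 := by
  let _ := memStructure (ES h)
  have hD' : (Set.univ : Set (SM h)).Definable memLang {x : Fin 1 → SM h | x 0 ∈ {x | D x}} := hD
  rw [Set.definable_iff_exists_formula_sum] at hD'
  obtain ⟨φ, hφ⟩ := hD'
  choose par hpar using fun a : (Set.univ : Set (SM h)) => a.1.1.exists_rep
  refine ⟨fun x => RealM h φ (Sum.elim (fun a : (Set.univ : Set (SM h)) => a.1.1) (fun _ => x))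
    Fin.elim0, ?_, ?_⟩
  · have h1 := BPred.comp (Δ := BName B) (bpred_realM (fun _ : Unit => h) φ)
      (f := fun x => (Sum.elim par (fun _ => x), Fin.elim0)) (by
        intro p q
        refine le_inf (le_iInf fun i => ?_) (le_iInf fun i => i.elim0)
        rcases i with i | i
        · simp only [Sum.elim_inl, beq_refl]
          exact le_top
        · simp only [Sum.elim_inr]
          exact le_rfl)
    refine h1.congr fun j x => ?_
    have h3 : (fun b => Mdl.mk h (Sum.elim par (fun _ : Fin 1 => x) b)) =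
        (Sum.elim (fun a : (Set.univ : Set (SM h)) => a.1.1) (fun _ => Mdl.mk h x)) := by
      funext b
      rcases b with b | b
      · simp only [Sum.elim_inl, hpar]
      · simp only [Sum.elim_inr]
    have h4 : (fun i : Fin 0 => Mdl.mk h (Fin.elim0 i)) = Fin.elim0 := by
      funext i; exact i.elim0
    change RealM h φ _ Fin.elim0 ↔ RealM h φ (fun b => Mdl.mk h (Sum.elim par (fun _ => x) b))
      (fun i => Mdl.mk h (Fin.elim0 i))
    rw [h3, h4]
  · intro x
    have h2 : (fun _ : Fin 1 => x) ∈ {x : Fin 1 → SM h | x 0 ∈ {x | D x}} ↔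
        (fun _ : Fin 1 => x) ∈ {v | φ.Realize (Sum.elim (↑) v)} := by rw [hφ]
    refine Iff.trans h2 ?_
    have h5 := realM_iff φ (Sum.elim (↑) (fun _ : Fin 1 => x) :
      (Set.univ : Set (SM h)) ⊕ Fin 1 → SM h) (Fin.elim0 : Fin 0 → SM h)
    have h3 : (fun b => ((Sum.elim (↑) (fun _ : Fin 1 => x) :
        (Set.univ : Set (SM h)) ⊕ Fin 1 → SM h) b).1) =
        (Sum.elim (fun a : (Set.univ : Set (SM h)) => a.1.1) (fun _ => x.1)) := by
      funext b
      rcases b with b | b <;> rfl
    have h4 : (fun i : Fin 0 => (Fin.elim0 i : SM h).1) = (Fin.elim0 : Fin 0 → Mdl h) := by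
      funext i; exact i.elim0
    rw [h3, h4] at h5
    refine Iff.trans ?_ h5
    change BoundedFormula.Realize φ _ _ ↔ BoundedFormula.Realize φ _ _
    have h6 : (default : Fin 0 → SM h) = Fin.elim0 := by
      funext i; exact i.elim0
    rw [← h6]

theorem def₂_SM {h : Ult B} {R : SM h → SM h → Prop} (hR : Def₂ (ES h) R) :
    ∃ R' : Mdl h → Mdl h → Prop, BPred (fun _ : Unit => h)
      (fun _ (p : BName B × BName B) => R' (Mdl.mk h p.1) (Mdl.mk h p.2)) ∧
      ∀ x y : SM h, R x y ↔ R' x.1 y.1 := by
  let _ := memStructure (ES h)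
  have hD' : (Set.univ : Set (SM h)).Definable memLang
      {x : Fin 2 → SM h | (x 0, x 1) ∈ {p : SM h × SM h | R p.1 p.2}} := hR
  rw [Set.definable_iff_exists_formula_sum] at hD'
  obtain ⟨φ, hφ⟩ := hD'
  choose par hpar using fun a : (Set.univ : Set (SM h)) => a.1.1.exists_rep
  refine ⟨fun x y => RealM h φ (Sum.elim (fun a : (Set.univ : Set (SM h)) => a.1.1) ![x, y])
    Fin.elim0, ?_, ?_⟩
  · have h1 := BPred.comp (Δ := BName B × BName B) (bpred_realM (fun _ : Unit => h) φ)
      (f := fun p => (Sum.elim par ![p.1, p.2], Fin.elim0)) (by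
        intro p q
        refine le_inf (le_iInf fun i => ?_) (le_iInf fun i => i.elim0)
        rcases i with i | i
        · simp only [Sum.elim_inl, beq_refl]
          exact le_top
        · simp only [Sum.elim_inr]
          fin_cases i
          · exact inf_le_left
          · exact inf_le_right)
    refine h1.congr fun j x => ?_
    have h3 : (fun b => Mdl.mk h (Sum.elim par ![x.1, x.2] b)) =
        (Sum.elim (fun a : (Set.univ : Set (SM h)) => a.1.1) ![Mdl.mk h x.1, Mdl.mk h x.2]) := by
      funext b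
      rcases b with b | b
      · simp only [Sum.elim_inl, hpar]
      · simp only [Sum.elim_inr]
        fin_cases b <;> rfl
    have h4 : (fun i : Fin 0 => Mdl.mk h (Fin.elim0 i)) = Fin.elim0 := by
      funext i; exact i.elim0
    change RealM h φ _ Fin.elim0 ↔ RealM h φ (fun b => Mdl.mk h (Sum.elim par ![x.1, x.2] b))
      (fun i => Mdl.mk h (Fin.elim0 i))
    rw [h3, h4]
  · intro x y
    have h2 : (![x, y]) ∈ {x : Fin 2 → SM h | (x 0, x 1) ∈ {p : SM h × SM h | R p.1 p.2}} ↔
        (![x, y]) ∈ {v | φ.Realize (Sum.elim (↑) v)} := by rw [hφ]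
    refine Iff.trans h2 ?_
    have h5 := realM_iff φ (Sum.elim (↑) ![x, y] :
      (Set.univ : Set (SM h)) ⊕ Fin 2 → SM h) (Fin.elim0 : Fin 0 → SM h)
    have h3 : (fun b => ((Sum.elim (↑) ![x, y] :
        (Set.univ : Set (SM h)) ⊕ Fin 2 → SM h) b).1) =
        (Sum.elim (fun a : (Set.univ : Set (SM h)) => a.1.1) ![x.1, y.1]) := by
      funext b
      rcases b with b | b
      · rfl
      · fin_cases b <;> rfl
    have h4 : (fun i : Fin 0 => (Fin.elim0 i : SM h).1) = (Fin.elim0 : Fin 0 → Mdl h) := by
      funext i; exact i.elim0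
    rw [h3, h4] at h5
    refine Iff.trans ?_ h5
    change BoundedFormula.Realize φ _ _ ↔ BoundedFormula.Realize φ _ _
    have h6 : (default : Fin 0 → SM h) = Fin.elim0 := by
      funext i; exact i.elim0
    rw [← h6]

end Formula

end Pool.Agent.MBG
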