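import Pool.Agent.MBG.M3

/-! The submodel is a model of ZFC. -/

set_option linter.unusedVariables false
set_option linter.unusedSectionVars false
set_option linter.unreachableTactic false
set_option linter.unusedTactic false

namespace Pool.Agent.MBG

open BVM BName SetModel MP63050e MPe811a4

universe u v w

variable {B : Type 1} [CompleteBooleanAlgebra B] {P : Type 1} [Preorder P] {em : P → B}

/-- Separation at one ultrafilter. -/
theorem exists_sep {h : Ult B} {D : Mdl h → Prop}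
    (hD : BPred (fun _ : Unit => h) (fun _ (x : BName B) => D (Mdl.mk h x))) (x : Mdl h) :
    ∃ y, ∀ z, E h z y ↔ E h z x ∧ D z := by
  obtain ⟨x, rfl⟩ := x.exists_rep
  obtain ⟨y, hy⟩ := separation_name (H := fun _ : Unit => h) (D := fun _ z => D z) hD x
  exact ⟨Mdl.mk h y, hy ()⟩

/-- Collection in the submodel at one ultrafilter. -/
theorem exists_coll' (hem : DenseEmb em) (hF : Fusion em) {h : Ult B}
    {R : Mdl h → Mdl h → Prop} (hR : BPred (fun _ : Unit => h)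
      (fun _ (p : BName B × BName B) => R (Mdl.mk h p.1) (Mdl.mk h p.2)))
    {x : Mdl h} (hx : InM x) :
    ∃ w, InM w ∧ ∀ y, E h y x → (∃ z, InM z ∧ R y z) → ∃ z, E h z w ∧ R y z := by
  obtain ⟨φ, hφ, hφ'⟩ := hR
  let R' : (h : Ult B) → Mdl h → Mdl h → Prop := fun h x y =>
    ∃ x' y', Mdl.mk h x' = x ∧ Mdl.mk h y' = y ∧ h.V (φ (x', y'))
  have hR' : ∀ (h : Ult B) x y, R' h (Mdl.mk h x) (Mdl.mk h y) ↔ h.V (φ (x, y)) := by
    intro h x y
    constructor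
    · rintro ⟨x', y', h1, h2, h3⟩
      refine h.mono (hφ (x', y') (x, y)) ((h.inf' _ _).2 ⟨(h.inf' _ _).2 ⟨?_, ?_⟩, h3⟩)
      · exact Mdl.mk_eq.1 h1
      · exact Mdl.mk_eq.1 h2
    · intro H
      exact ⟨x, y, rfl, rfl, H⟩
  obtain ⟨w, hw, hw'⟩ := exists_coll hem hF (R := R') ⟨φ, hφ, fun h p => hR' h p.1 p.2⟩ hx
  have key : ∀ y z : Mdl h, R' h y z ↔ R y z := by
    intro y z
    obtain ⟨y, rfl⟩ := y.exists_rep
    obtain ⟨z, rfl⟩ := z.exists_rep
    rw [hR' h y z]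
    exact (hφ' () (y, z)).symm
  refine ⟨w, hw, fun y hy hz => ?_⟩
  obtain ⟨z, hz, hz'⟩ := hz
  obtain ⟨z', h1, h2⟩ := hw' y hy ⟨z, hz, (key y z).2 hz'⟩
  exact ⟨z', h1, (key y z').1 h2⟩

theorem bp_mem_const {h : Ult B} (c : Mdl h) :
    BPred (fun _ : Unit => h) (fun _ (x : BName B) => E h (Mdl.mk h x) c) := by
  obtain ⟨c, rfl⟩ := c.exists_rep
  exact BPred.mem (H := fun _ : Unit => h) BTerm.id (BTerm.const c)

/-- The submodel is a model of ZFC. -/
theorem sm_zfc (hem : DenseEmb em) (hF : Fusion em) (hA : Approx em) (h : Ult B) :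
    IsModelZFC (ES h) where
  extensionality := fun x y hxy => by
    refine Subtype.ext (Mdl.ext fun z => ?_)
    constructor
    · intro hz
      exact (hxy ⟨z, inM_trans x.2 hz⟩).1 hz
    · intro hz
      exact (hxy ⟨z, inM_trans y.2 hz⟩).2 hz
  foundation := fun x hx => by
    obtain ⟨y, hy⟩ := hx
    obtain ⟨y, hy, hy'⟩ := foundation x.1 ⟨y.1, hy⟩
    exact ⟨⟨y, inM_trans x.2 hy⟩, hy, fun z hz hzx => hy' z.1 hz hzx⟩
  pairing := fun a b => by
    refine ⟨⟨up h a.1 b.1, inM_up a.2 b.2⟩, fun z => ?_⟩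
    refine (E_up a.1 b.1 z.1).trans ?_
    rw [Subtype.ext_iff, Subtype.ext_iff]
  union := fun x => by
    obtain ⟨u, hu, hu'⟩ := exists_union x.2
    refine ⟨⟨u, hu⟩, fun z => (hu' z.1).trans ?_⟩
    constructor
    · rintro ⟨y, hy, hz⟩
      exact ⟨⟨y, inM_trans x.2 hy⟩, hy, hz⟩
    · rintro ⟨y, hy, hz⟩
      exact ⟨y.1, hy, hz⟩
  powerset := fun x => by
    obtain ⟨p, hp, hp'⟩ := exists_power hem hA x.2
    obtain ⟨x', hx'⟩ := x.1.exists_rep
    obtain ⟨q, hq⟩ := exists_sep (h := h) (D := fun z => ∀ w, E h w z → E h w x.1) (by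
      rw [← hx']
      exact BPred.all (H := fun _ : Unit => h)
        (Q := fun _ (z : BName B) w => E h w (Mdl.mk h z) → E h w (Mdl.mk h x'))
        ((BPred.mem (H := fun _ : Unit => h) BTerm.snd BTerm.id.fst).imp
          (BPred.mem (H := fun _ : Unit => h) BTerm.snd (BTerm.const x')))) p
    refine ⟨⟨q, inM_subset hp fun z hz => ((hq z).1 hz).1⟩, fun z => (hq z.1).trans ?_⟩
    constructor
    · intro hz w hw
      exact hz.2 w.1 hw
    · intro hz
      have h1 : ∀ w, E h w z.1 → E h w x.1 := fun w hw => hz ⟨w, inM_trans z.2 hw⟩ hw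
      exact ⟨hp' z.1 h1, h1⟩
  infinity := by
    have hom := isOmega h
    refine ⟨⟨Mdl.mk h (omN B), inM_om⟩, ?_, ?_⟩
    · obtain ⟨e, he, he'⟩ := hom.2.1
      exact ⟨⟨e, inM_trans inM_om he'⟩, fun z hz => he z.1 hz, he'⟩
    · intro x hx
      obtain ⟨y, hy, hy'⟩ := hom.2.2.1 x.1 hx
      refine ⟨⟨y, inM_trans inM_om hy⟩, hy, fun z => (hy' z.1).trans ?_⟩
      rw [Subtype.ext_iff]
      exact Iff.rfl
  separation := fun D hD x => by
    obtain ⟨D', hD', hDD⟩ := def₁_SM hD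
    obtain ⟨y, hy⟩ := exists_sep hD' x.1
    refine ⟨⟨y, inM_subset x.2 fun z hz => ((hy z).1 hz).1⟩, fun z => (hy z.1).trans ?_⟩
    rw [hDD z]
    exact Iff.rfl
  replacement := fun R hR x hx => by
    obtain ⟨R', hR', hRR⟩ := def₂_SM hR
    obtain ⟨w, hw, hw'⟩ := exists_coll' hem hF hR' x.2
    obtain ⟨x', hx'⟩ := x.1.exists_rep
    obtain ⟨v, hv⟩ := exists_sep (h := h) (D := fun z => ∃ y, E h y x.1 ∧ R' y z) (by
      rw [← hx']
      exact BPred.ex (H := fun _ : Unit => h)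
        (Q := fun _ (z : BName B) y => E h y (Mdl.mk h x') ∧ R' y (Mdl.mk h z))
        ((BPred.mem (H := fun _ : Unit => h) BTerm.snd (BTerm.const x')).and
          (hR'.comp (f := fun p : BName B × BName B => (p.2, p.1)) (by
            intro p q
            exact le_inf inf_le_right inf_le_left)))) w
    refine ⟨⟨v, inM_subset hw fun z hz => ((hv z).1 hz).1⟩, fun z => (hv z.1).trans ?_⟩
    constructor
    · rintro ⟨-, y, hy, hyz⟩
      exact ⟨⟨y, inM_trans x.2 hy⟩, hy, (hRR _ _).2 hyz⟩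
    · rintro ⟨y, hy, hyz⟩
      refine ⟨?_, y.1, hy, (hRR _ _).1 hyz⟩
      obtain ⟨z', hz', hyz'⟩ := hw' y.1 hy ⟨z.1, z.2, (hRR _ _).1 hyz⟩
      have h1 := (hx y hy).unique hyz ((hRR y ⟨z', inM_trans hw hz'⟩).2 hyz')
      rw [h1]
      exact hz'
  choice := fun x hne hdis => by
    obtain ⟨x', hx'⟩ := x.1.exists_rep
    obtain ⟨c, hc⟩ := choice_name x'
    have hc := hc h (by
      rw [hx']
      intro y hy
      obtain ⟨z, hz⟩ := hne ⟨y, inM_trans x.2 hy⟩ hy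
      exact ⟨z.1, hz⟩) (by
      rw [hx']
      intro y y' hy hy' hyy
      rintro ⟨z, hz, hz'⟩
      exact hdis ⟨y, inM_trans x.2 hy⟩ ⟨y', inM_trans x.2 hy'⟩ hy hy'
        (fun hh => hyy (congrArg Subtype.val hh))
        ⟨⟨z, inM_trans (inM_trans x.2 hy) hz⟩, hz, hz'⟩)
    rw [hx'] at hc
    obtain ⟨u, hu, hu'⟩ := exists_union x.2
    obtain ⟨v, hv⟩ := exists_sep (bp_mem_const (Mdl.mk h c)) u
    refine ⟨⟨v, inM_subset hu fun z hz => ((hv z).1 hz).1⟩, fun y hy => ?_⟩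
    obtain ⟨z, ⟨hz, hz'⟩, huniq⟩ := hc y.1 hy
    have hzM : InM z := inM_trans y.2 hz
    refine ⟨⟨z, hzM⟩, ⟨hz, (hv z).2 ⟨(hu' z).2 ⟨y.1, hy, hz⟩, hz'⟩⟩, ?_⟩
    rintro z'' ⟨h1, h2⟩
    exact Subtype.ext (huniq z''.1 ⟨h1, ((hv z''.1).1 h2).2⟩)

end Pool.Agent.MBG
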