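import Pool.Agent.MBG.GF

/-! The one-board strategy of player TWO. -/

set_option linter.unusedVariables false
set_option linter.unusedSectionVars false

namespace Pool.Agent.MBG

open Cardinal

universe u

theorem exists_min {T : Type u} [LinearOrder T] [WellFoundedLT T] (a : ℕ → T) (k : ℕ) :
    ∃ m, Even m ∧ k < m ∧ ∀ m', Even m' → k < m' → a m ≤ a m' := by
  let S : Set T := {t | ∃ m, Even m ∧ k < m ∧ a m = t}
  have hS : S.Nonempty := ⟨a (2 * (k + 1)), 2 * (k + 1), even_two_mul _, by omega, rfl⟩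
  obtain ⟨m, h1, h2, h3⟩ := (wellFounded_lt (α := T)).min_mem S hS
  refine ⟨m, h1, h2, fun m' h1' h2' => ?_⟩
  rw [h3]
  exact not_lt.1 ((wellFounded_lt (α := T)).not_lt_min S ⟨m', h1', h2', rfl⟩)

variable {P : Type u} [Preorder P] {B : Type u} [CompleteBooleanAlgebra B] {em : P → B}
  {T Th : Type u} [LinearOrder T] (G : GF em T Th)

theorem exists_strategy (hem : DenseEmb em) {ι : Type u} (sec : ι → Th) {p₀ : P} {a : ℕ → T}
    {μ : ℕ → ℕ} (hμ : ∀ k m, Even m → k < m → a (μ k) ≤ a m) {aA : T}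
    (ha : ∀ m, Even m → aA ≤ a m) {c' : ι → B} (hc' : ∀ v, c' v ∈ G.Sub aA)
    {C : ℕ → Th → ι → B} (hC : ∀ k, Odd k → ∀ b v, C k b v ∈ G.Sub (a (μ k)))
    (hCc : ∀ k, Odd k → ∀ b v, C k b v ≤ c' v)
    (hCs : ∀ k, Odd k → ∀ b, em p₀ ≤ ⨆ v, C k b v) :
    ∃ (b : Th) (Tv : ℕ → (ℕ → ι) → ι → B),
      (∀ k l l' v, (∀ j, j < k → l j = l' j) → Tv k l v = Tv k l' v) ∧
      (∀ k, Odd k → ∀ l p, p ≤ p₀ → ∃ q, q ≤ p ∧ ∃ v, em q ≤ Tv k l v) ∧
      (∀ k, Odd k → ∀ l v, Tv k l v ≤ c' v) ∧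
      ∀ z p, p ≤ p₀ → (∀ k, Odd k → em p ≤ Tv k z (z k)) → ∃ q, q ≤ p₀ ∧
        (∀ k, Odd k → em q ≤ C k b (z k)) ∧
        (∀ m, Even m → em q ≤ G.gv (a m) m b (sec (z m))) ∧
        ∀ d, d ∈ G.Sub aA → em p ≤ d → em q ≤ d := by
  obtain ⟨b, hb⟩ := G.ow_fresh p₀
  let X : ℕ → Set ℕ := fun k => {m | Even m ∧ m < k}
  have hX : ∀ k, ∀ m ∈ X k, aA ≤ a m := fun k m hm => ha m hm.1
  have hcongr : ∀ (k : ℕ) (l l' : ℕ → ι), (∀ j, j < k → l j = l' j) → ∀ p,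
      G.ow b a (fun m => sec (l m)) (X k) p = G.ow b a (fun m => sec (l' m)) (X k) p := by
    intro k l l' hl p
    refine G.ow_congr b a _ _ _ _ fun m hm => ?_
    rw [hl m hm.2]
  refine ⟨b, fun k l v => G.back b a (fun m => sec (l m)) (X k) (C k b v), ?_, ?_, ?_, ?_⟩
  · intro k l l' v hl
    refine le_antisymm (hem.le_of fun p hp => ⟨p, le_rfl, ?_⟩)
      (hem.le_of fun p hp => ⟨p, le_rfl, ?_⟩)
    · rw [G.le_back hem] at hp ⊢
      rwa [← hcongr k l l' hl p]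
    · rw [G.le_back hem] at hp ⊢
      rwa [hcongr k l l' hl p]
  · intro k hk l p hp
    obtain ⟨v, r, hr, hrv⟩ := hem.exists_iSup
      ((hem.mono _ _ (hb a (fun m => sec (l m)) (X k) p hp)).trans (hCs k hk b))
    obtain ⟨q, hq, hqr⟩ := G.ow_lift _ _ _ _ _ _ hr
    refine ⟨q, hq, v, (G.le_back hem).2 ((hem.mono _ _ hqr).trans hrv)⟩
  · intro k hk l v
    refine hem.le_of fun p hp => ⟨p, le_rfl, ?_⟩
    rw [G.le_back hem] at hp
    exact G.of_ow_sub (hc' v) (hX k) (hp.trans (hCc k hk b v))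
  · intro z p hp hz
    refine ⟨G.ow b a (fun m => sec (z m)) {m | Even m} p, hb _ _ _ _ hp, ?_, ?_, ?_⟩
    · intro k hk
      have h1 := (G.le_back hem).1 (hz k hk)
      refine G.ow_sub (a (μ k)) _ (hC k hk b (z k)) b a _ (X k) _ p ?_ h1
      intro m hm
      refine ⟨fun h => h.1, fun h => ⟨h, ?_⟩⟩
      by_contra hkm
      have h2 : m ≠ k := by
        rintro rfl
        exact (Nat.not_even_iff_odd.2 hk) h
      exact absurd hm (not_lt.2 (hμ k m h (by omega)))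
    · intro m hm
      exact G.ow_gv b a (fun m => sec (z m)) {m | Even m} p m hm
    · intro d hd hpd
      exact G.ow_sub' hd (fun m hm => ha m hm) hpd

end Pool.Agent.MBG
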