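import Pool.Agent.MP_e811a4_lc.Statement
import Pool.Agent.Lib.helper63.ZFC2

/-! Pairs and tuples in the Boolean valued models, and closure of the uniformly definable
predicates under the vocabulary of the statement. -/

set_option linter.unusedVariables false
set_option linter.unusedSectionVars false

namespace Pool.Agent.MBG

open BVM BName SetModel MP63050e

universe u v v' v''

section pairs

variable {B : Type u} [CompleteBooleanAlgebra B] {h : Ult B}

/-- Unordered pair in the model. -/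
def up (h : Ult B) : Mdl h → Mdl h → Mdl h :=
  Quotient.map₂ upair (by
    intro a a' ha b b' hb
    have ha : Mdl.mk h a = Mdl.mk h a' := Quotient.sound ha
    have hb : Mdl.mk h b = Mdl.mk h b' := Quotient.sound hb
    have : Mdl.mk h (upair a b) = Mdl.mk h (upair a' b') := by
      apply Mdl.ext
      intro z
      rw [E_upair, E_upair, ha, hb]
    exact Quotient.exact this)

theorem up_mk (a b : BName B) : up h (Mdl.mk h a) (Mdl.mk h b) = Mdl.mk h (upair a b) := rfl

theorem E_up (a b z : Mdl h) : E h z (up h a b) ↔ z = a ∨ z = b := by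
  obtain ⟨a, rfl⟩ := a.exists_rep
  obtain ⟨b, rfl⟩ := b.exists_rep
  rw [up_mk, E_upair]

theorem isUPair_iff {p a b : Mdl h} : IsUPair (E h) p a b ↔ p = up h a b := by
  constructor
  · intro H
    apply Mdl.ext
    intro z
    rw [H z, E_up]
  · rintro rfl z
    exact E_up a b z

/-- Ordered pair in the model. -/
def pr (h : Ult B) (a b : Mdl h) : Mdl h := up h (up h a a) (up h a b)

/-- Ordered pair of names. -/
def opair (a b : BName B) : BName B := upair (upair a a) (upair a b)

theorem pr_mk (a b : BName B) : pr h (Mdl.mk h a) (Mdl.mk h b) = Mdl.mk h (opair a b) := rfl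

theorem isPair_iff {p a b : Mdl h} : IsPair (E h) p a b ↔ p = pr h a b := by
  constructor
  · rintro ⟨s, t, hs, ht, hp⟩
    rw [isUPair_iff] at hs ht hp
    rw [hp, hs, ht]; rfl
  · rintro rfl
    exact ⟨up h a a, up h a b, isUPair_iff.2 rfl, isUPair_iff.2 rfl, isUPair_iff.2 rfl⟩

theorem up_eq_iff {a b c : Mdl h} : up h a b = up h c c ↔ a = c ∧ b = c := by
  constructor
  · intro H
    have h1 : E h a (up h c c) := H ▸ (E_up a b a).2 (Or.inl rfl)
    have h2 : E h b (up h c c) := H ▸ (E_up a b b).2 (Or.inr rfl)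
    rw [E_up, or_self] at h1 h2
    exact ⟨h1, h2⟩
  · rintro ⟨rfl, rfl⟩; rfl

theorem pr_inj {a b c d : Mdl h} : pr h a b = pr h c d ↔ a = c ∧ b = d := by
  constructor
  · intro H
    have h1 : E h (up h c c) (pr h a b) := by
      rw [H]; exact (E_up _ _ _).2 (Or.inl rfl)
    have h2 : E h (up h a a) (pr h c d) := by
      rw [← H]; exact (E_up _ _ _).2 (Or.inl rfl)
    have hac : a = c := by
      unfold pr at h2
      rw [E_up] at h2
      rcases h2 with h2 | h2
      · exact ((up_eq_iff.1 h2).1)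
      · exact ((up_eq_iff.1 h2.symm).1).symm
    subst hac
    refine ⟨rfl, ?_⟩
    have h3 : E h (up h a b) (pr h a d) := by
      rw [← H]; exact (E_up _ _ _).2 (Or.inr rfl)
    have h4 : E h (up h a d) (pr h a b) := by
      rw [H]; exact (E_up _ _ _).2 (Or.inr rfl)
    unfold pr at h3 h4
    rw [E_up] at h3 h4
    rcases h3 with h3 | h3
    · have hb := (up_eq_iff.1 h3).2
      rcases h4 with h4 | h4
      · rw [(up_eq_iff.1 h4).2, hb]
      · rw [hb] at h4
        rw [(up_eq_iff.1 h4).2, hb]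
    · have h5 : E h b (up h a d) := h3 ▸ (E_up a b b).2 (Or.inr rfl)
      rw [E_up] at h5
      rcases h5 with h5 | h5
      · have h6 : E h d (up h a b) := h3 ▸ (E_up a d d).2 (Or.inr rfl)
        rw [E_up] at h6
        rcases h6 with h6 | h6
        · rw [h5, h6]
        · exact h6.symm
      · exact h5
  · rintro ⟨rfl, rfl⟩; rfl

/-- Tuple in the model. -/
def tup (h : Ult B) : List (Mdl h) → Mdl h
  | [] => Mdl.mk h (BName.mk PEmpty (fun e => e.elim) (fun e => e.elim))
  | [a] => a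
  | a :: b :: l => pr h a (tup h (b :: l))

theorem isTuple_iff {t : Mdl h} {l : List (Mdl h)} (hl : l ≠ []) :
    IsTuple (E h) t l ↔ t = tup h l := by
  induction l generalizing t with
  | nil => exact absurd rfl hl
  | cons a l ih =>
    cases l with
    | nil => exact Iff.rfl
    | cons b l =>
      rw [IsTuple, tup]
      constructor
      · rintro ⟨s, hs, ht⟩
        rw [ih (by simp)] at hs
        rw [isPair_iff] at ht
        rw [ht, hs]
      · rintro rfl
        exact ⟨tup h (b :: l), (ih (by simp)).2 rfl, isPair_iff.2 rfl⟩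

theorem has_iff {R : Mdl h} {l : List (Mdl h)} (hl : l ≠ []) :
    Has (E h) R l ↔ E h (tup h l) R := by
  constructor
  · rintro ⟨t, ht, hR⟩
    rw [isTuple_iff hl] at ht
    rwa [← ht]
  · intro H
    exact ⟨tup h l, (isTuple_iff hl).2 rfl, H⟩

/-- Tuple of names. -/
def otup : List (BName B) → BName B
  | [] => BName.mk PEmpty (fun e => e.elim) (fun e => e.elim)
  | [a] => a
  | a :: b :: l => opair a (otup (b :: l))

theorem tup_mk (l : List (BName B)) : tup h (l.map (Mdl.mk h)) = Mdl.mk h (otup l) := by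
  induction l with
  | nil => rfl
  | cons a l ih =>
    cases l with
    | nil => rfl
    | cons b l =>
      rw [List.map_cons, List.map_cons, tup, otup]
      rw [List.map_cons] at ih
      rw [ih, pr_mk]

end pairs

section closure

variable {B : Type u} [CompleteBooleanAlgebra B] {J : Type*} {H : J → Ult B} {Γ : Type v}
  [BSet B Γ]

theorem bterm_opair {f g : Γ → BName B} (hf : BTerm f) (hg : BTerm g) :
    BTerm (fun γ => opair (f γ) (g γ)) :=
  bterm_upair (bterm_upair hf hf) (bterm_upair hf hg)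

variable {f g k e r s t u : Γ → BName B}

theorem bp_isUPair (hf : BTerm f) (hg : BTerm g) (hk : BTerm k) :
    BPred H (fun j γ => IsUPair (E (H j)) (Mdl.mk _ (f γ)) (Mdl.mk _ (g γ)) (Mdl.mk _ (k γ))) := by
  refine (BPred.eq hf (bterm_upair hg hk)).congr fun j γ => ?_
  rw [isUPair_iff, up_mk]

theorem bp_isPair (hf : BTerm f) (hg : BTerm g) (hk : BTerm k) :
    BPred H (fun j γ => IsPair (E (H j)) (Mdl.mk _ (f γ)) (Mdl.mk _ (g γ)) (Mdl.mk _ (k γ))) := by
  refine (BPred.eq hf (bterm_opair hg hk)).congr fun j γ => ?_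
  rw [isPair_iff, pr_mk]

theorem bp_has2 (hr : BTerm r) (hf : BTerm f) (hg : BTerm g) :
    BPred H (fun j γ => Has (E (H j)) (Mdl.mk _ (r γ)) [Mdl.mk _ (f γ), Mdl.mk _ (g γ)]) := by
  refine (BPred.mem (bterm_opair hf hg) hr).congr fun j γ => ?_
  rw [has_iff (by simp)]
  exact Iff.rfl

theorem bp_has3 (hr : BTerm r) (hf : BTerm f) (hg : BTerm g) (hk : BTerm k) :
    BPred H (fun j γ => Has (E (H j)) (Mdl.mk _ (r γ))
      [Mdl.mk _ (f γ), Mdl.mk _ (g γ), Mdl.mk _ (k γ)]) := by
  refine (BPred.mem (bterm_opair hf (bterm_opair hg hk)) hr).congr fun j γ => ?_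
  rw [has_iff (by simp)]
  exact Iff.rfl

theorem bp_has4 (hr : BTerm r) (hf : BTerm f) (hg : BTerm g) (hk : BTerm k) (he : BTerm e) :
    BPred H (fun j γ => Has (E (H j)) (Mdl.mk _ (r γ))
      [Mdl.mk _ (f γ), Mdl.mk _ (g γ), Mdl.mk _ (k γ), Mdl.mk _ (e γ)]) := by
  refine (BPred.mem (bterm_opair hf (bterm_opair hg (bterm_opair hk he))) hr).congr
    fun j γ => ?_
  rw [has_iff (by simp)]
  exact Iff.rfl

theorem bp_has5 (hr : BTerm r) (hf : BTerm f) (hg : BTerm g) (hk : BTerm k) (he : BTerm e)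
    (hs : BTerm s) :
    BPred H (fun j γ => Has (E (H j)) (Mdl.mk _ (r γ))
      [Mdl.mk _ (f γ), Mdl.mk _ (g γ), Mdl.mk _ (k γ), Mdl.mk _ (e γ), Mdl.mk _ (s γ)]) := by
  refine (BPred.mem (bterm_opair hf (bterm_opair hg (bterm_opair hk (bterm_opair he hs)))) hr).congr
    fun j γ => ?_
  rw [has_iff (by simp)]
  exact Iff.rfl

theorem bp_has6 (hr : BTerm r) (hf : BTerm f) (hg : BTerm g) (hk : BTerm k) (he : BTerm e)
    (hs : BTerm s) (ht : BTerm t) :
    BPred H (fun j γ => Has (E (H j)) (Mdl.mk _ (r γ))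
      [Mdl.mk _ (f γ), Mdl.mk _ (g γ), Mdl.mk _ (k γ), Mdl.mk _ (e γ), Mdl.mk _ (s γ),
        Mdl.mk _ (t γ)]) := by
  refine (BPred.mem (bterm_opair hf (bterm_opair hg (bterm_opair hk (bterm_opair he
    (bterm_opair hs ht))))) hr).congr fun j γ => ?_
  rw [has_iff (by simp)]
  exact Iff.rfl

theorem bp_isEmp (hf : BTerm f) : BPred H (fun j γ => IsEmp (E (H j)) (Mdl.mk _ (f γ))) := by
  unfold IsEmp
  refine BPred.all ?_
  refine BPred.not ?_
  exact BPred.mem BTerm.snd hf.fst

theorem bp_isFun (hf : BTerm f) (hg : BTerm g) (hk : BTerm k) :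
    BPred H (fun j γ => IsFun (E (H j)) (Mdl.mk _ (f γ)) (Mdl.mk _ (g γ)) (Mdl.mk _ (k γ))) := by
  unfold IsFun ExistsUnique
  refine BPred.and ?_ ?_
  · refine BPred.all (BPred.imp ?_ (BPred.ex (BPred.ex (BPred.and ?_ (BPred.and ?_ ?_)))))
    · exact BPred.mem BTerm.snd hf.fst
    · exact BPred.mem BTerm.snd.fst hg.fst.fst.fst
    · exact BPred.mem BTerm.snd hk.fst.fst.fst
    · exact bp_isPair BTerm.snd.fst.fst BTerm.snd.fst BTerm.snd
  · refine BPred.all (BPred.imp ?_ (BPred.ex (BPred.and ?_ (BPred.all (BPred.imp ?_ ?_)))))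
    · exact BPred.mem BTerm.snd hg.fst
    · exact bp_has2 hf.fst.fst BTerm.snd.fst BTerm.snd
    · exact bp_has2 hf.fst.fst.fst BTerm.snd.fst.fst BTerm.snd
    · exact BPred.eq BTerm.snd BTerm.snd.fst

end closure

section maps

variable {B : Type u} [CompleteBooleanAlgebra B] {Γ : Type v} [BSet B Γ] {Δ : Type v'} [BSet B Δ]
  {Θ : Type v''} [BSet B Θ]

/-- Nonexpansive maps. -/
def BMap (B : Type u) [CompleteBooleanAlgebra B] {Γ : Type v} [BSet B Γ] {Δ : Type v'}
    [BSet B Δ] (f : Γ → Δ) : Prop :=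
  ∀ γ γ', (BSet.eqv γ γ' : B) ≤ BSet.eqv (f γ) (f γ')

theorem BMap.id : BMap B (fun x : Γ => x) := fun _ _ => le_rfl

theorem BMap.fst {f : Γ → Δ × Θ} (hf : BMap B f) : BMap B (fun p => (f p).1) :=
  fun γ γ' => (hf γ γ').trans inf_le_left

theorem BMap.snd {f : Γ → Δ × Θ} (hf : BMap B f) : BMap B (fun p => (f p).2) :=
  fun γ γ' => (hf γ γ').trans inf_le_right

theorem BMap.pair {f : Γ → Δ} {g : Γ → Θ} (hf : BMap B f) (hg : BMap B g) :
    BMap B (fun p => (f p, g p)) :=
  fun γ γ' => le_inf (hf γ γ') (hg γ γ')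

theorem BMap.const (x : Δ) : BMap B (fun _ : Γ => x) := fun γ γ' => by
  rw [BSet.refl]; exact le_top

theorem BTerm.of {f : Γ → BName B} (hf : BMap B f) : BTerm f := hf

theorem BTerm.map {f : Γ → BName B} (hf : BTerm f) : BMap B f := hf

theorem BTerm.cmp {f : Γ → BName B} {g : Δ → Γ} (hf : BTerm f) (hg : BMap B g) :
    BTerm (fun p => f (g p)) := fun γ γ' => (hg γ γ').trans (hf _ _)

end maps

end Pool.Agent.MBG
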