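import Pool.Agent.MBG.U2

/-! Names of functions and of finite sequences, function sets, the even numbers. -/

set_option linter.unusedVariables false
set_option linter.unusedSectionVars false
set_option linter.unreachableTactic false
set_option linter.unusedTactic false

namespace Pool.Agent.MBG

open BVM BName SetModel MP63050e MPe811a4

universe u v w

variable {B : Type u} [CompleteBooleanAlgebra B]

/-! ### Adjoining an element -/

/-- The name of `x ∪ {y}`. -/
def adj (x y : BName B) : BName B := sunion (upair x (upair y y))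

theorem E_adj {h : Ult B} {x y : BName B} {z : Mdl h} :
    E h z (Mdl.mk h (adj x y)) ↔ E h z (Mdl.mk h x) ∨ z = Mdl.mk h y := by
  rw [adj, E_sunion]
  constructor
  · rintro ⟨u, hu, hz⟩
    rw [E_upair] at hu
    rcases hu with rfl | rfl
    · exact Or.inl hz
    · rw [E_upair, or_self] at hz
      exact Or.inr hz
  · rintro (hz | rfl)
    · exact ⟨_, (E_upair _ _ _ _).2 (Or.inl rfl), hz⟩
    · exact ⟨_, (E_upair _ _ _ _).2 (Or.inr rfl), (E_upair _ _ _ _).2 (Or.inl rfl)⟩

/-! ### Nice names -/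

/-- Every set has a name such that each of its elements has exactly one index. -/
theorem exists_nice' (K : BName B) : ∃ c : K.Idx → B,
    (∀ h : Ult B, Mdl.mk h (BName.mk K.Idx K.fam c) = Mdl.mk h K) ∧
    ∀ (h : Ult B) i j, h.V (c i) → h.V (c j) → Mdl.mk h (K.fam i) = Mdl.mk h (K.fam j) →
      i = j := by
  classical
  let r : K.Idx → K.Idx → Prop := WellOrderingRel
  let c : K.Idx → B := fun i =>
    K.coe i ⊓ (⨆ j : {j : K.Idx // r j i}, K.coe j.1 ⊓ beq (K.fam j.1) (K.fam i))ᶜ
  refine ⟨c, ?_, ?_⟩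
  · have key : ∀ (z : BName B) i, K.coe i ⊓ beq z (K.fam i) ≤ ⨆ j, c j ⊓ beq z (K.fam j) := by
      intro z i
      induction i using (IsWellFounded.wf (r := r)).induction with
      | _ i ih =>
        set s : B := ⨆ j : {j : K.Idx // r j i}, K.coe j.1 ⊓ beq (K.fam j.1) (K.fam i) with hs
        have h1 : K.coe i ⊓ beq z (K.fam i) ≤
            (c i ⊓ beq z (K.fam i)) ⊔ (s ⊓ beq z (K.fam i)) := by
          rw [← inf_sup_right]
          refine inf_le_inf_right _ ?_
          change K.coe i ≤ (K.coe i ⊓ sᶜ) ⊔ s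
          rw [sup_inf_right, compl_sup_eq_top, inf_top_eq]
          exact le_sup_left
        refine h1.trans (sup_le (le_iSup (fun j => c j ⊓ beq z (K.fam j)) i) ?_)
        rw [hs, iSup_inf_eq]
        refine iSup_le fun j => le_trans ?_ (ih j.1 j.2)
        refine le_inf (inf_le_left.trans inf_le_left) ?_
        refine le_trans ?_ (beq_trans z (K.fam i) (K.fam j.1))
        refine le_inf inf_le_right ?_
        rw [beq_symm (K.fam i) (K.fam j.1)]
        exact inf_le_left.trans inf_le_right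
    intro h
    apply Mdl.ext
    intro z
    obtain ⟨z, rfl⟩ := z.exists_rep
    rw [E_mk, E_mk, bmem_mk, bmem_eq z K]
    constructor
    · exact h.mono (iSup_mono fun i => inf_le_inf_right _ inf_le_left)
    · exact h.mono (iSup_le fun i => key z i)
  · have key : ∀ (h : Ult B) i j, r i j → h.V (c i) → h.V (c j) →
        Mdl.mk h (K.fam i) = Mdl.mk h (K.fam j) → False := by
      intro h i j hij hi hj he
      have h1 : h.V (⨆ j' : {j' : K.Idx // r j' j}, K.coe j'.1 ⊓ beq (K.fam j'.1) (K.fam j)) :=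
        h.iSup_of (fun j' : {j' : K.Idx // r j' j} => K.coe j'.1 ⊓ beq (K.fam j'.1) (K.fam j))
          ⟨i, hij⟩ ((h.inf' _ _).2 ⟨((h.inf' _ _).1 hi).1, Mdl.mk_eq.1 he⟩)
      have h2 := ((h.inf' _ _).1 hj).2
      rw [h.compl'] at h2
      exact h2 h1
    intro h i j hi hj he
    rcases trichotomous_of r i j with hr | hr | hr
    · exact (key h i j hr hi hj he).elim
    · exact hr
    · exact (key h j i hr hj hi he.symm).elim

/-- Every set has a name such that each of its elements has exactly one index. -/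
theorem exists_nice (K : BName B) : ∃ (ι : Type u) (e : ι → BName B) (c : ι → B),
    (∀ h : Ult B, Mdl.mk h (BName.mk ι e c) = Mdl.mk h K) ∧
    ∀ (h : Ult B) i j, h.V (c i) → h.V (c j) → Mdl.mk h (e i) = Mdl.mk h (e j) → i = j := by
  obtain ⟨c, h1, h2⟩ := exists_nice' K
  exact ⟨K.Idx, K.fam, c, h1, h2⟩

/-! ### Functions given by a value at each index -/

section hN

variable {ι : Type u} {e : ι → BName B} {c : ι → B}

/-- Each element of the name `mk ι e c` has exactly one index. -/
def Sep (e : ι → BName B) (c : ι → B) : Prop :=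
  ∀ (h : Ult B) i j, h.V (c i) → h.V (c j) → Mdl.mk h (e i) = Mdl.mk h (e j) → i = j

/-- The name of the function with value `y i` at the element of index `i`. -/
def hN (e : ι → BName B) (c : ι → B) (y : ι → BName B) : BName B :=
  BName.mk ι (fun i => opair (e i) (y i)) c

theorem V_coe {h : Ult B} {i : ι} (hi : h.V (c i)) :
    E h (Mdl.mk h (e i)) (Mdl.mk h (BName.mk ι e c)) :=
  h.mono (coe_le_bmem (BName.mk ι e c) i) hi

theorem has_hN (hs : Sep e c) {y : ι → BName B} {h : Ult B} {i : ι} (hi : h.V (c i))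
    {z : Mdl h} : Has (E h) (Mdl.mk h (hN e c y)) [Mdl.mk h (e i), z] ↔ z = Mdl.mk h (y i) := by
  rw [has_iff (by simp)]
  constructor
  · intro H
    refine forall_mem (P := fun h p => ∀ z, p = pr h (Mdl.mk h (e i)) z → z = Mdl.mk h (y i))
      (fun i => opair (e i) (y i)) c ?_ (clop_V (c i)) ?_ h hi _ H z rfl
    · refine BPred.all (BPred.imp ?_ ?_)
      · exact BPred.eq BTerm.id.fst (bterm_opair (BTerm.const _) BTerm.snd)
      · exact BPred.eq BTerm.snd (BTerm.const _)
    · intro h hi j hj z hz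
      obtain ⟨h1, h2⟩ := pr_inj.1 (show pr h (Mdl.mk h (e j)) (Mdl.mk h (y j)) =
        pr h (Mdl.mk h (e i)) z from hz)
      rw [← hs h j i hj hi h1, h2]
  · rintro rfl
    exact V_coe (e := fun i => opair (e i) (y i)) hi

theorem isFun_hN (hs : Sep e c) {y : ι → BName B} {Q : Ult B → Prop} (hQ : Clop Q)
    {L : BName B} (hy : ∀ h, Q h → ∀ i, h.V (c i) → E h (Mdl.mk h (y i)) (Mdl.mk h L)) :
    ∀ h, Q h → IsFun (E h) (Mdl.mk h (hN e c y)) (Mdl.mk h (BName.mk ι e c)) (Mdl.mk h L) := by
  intro h hq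
  constructor
  · refine forall_mem (P := fun h p => ∃ a b, E h a (Mdl.mk h (BName.mk ι e c)) ∧
      E h b (Mdl.mk h L) ∧ IsPair (E h) p a b) (fun i => opair (e i) (y i)) c ?_ hQ ?_ h hq
    · refine BPred.ex (BPred.ex (BPred.and ?_ (BPred.and ?_ ?_)))
      · exact BPred.mem BTerm.snd.fst (BTerm.const _)
      · exact BPred.mem BTerm.snd (BTerm.const _)
      · exact bp_isPair BTerm.id.fst.fst BTerm.snd.fst BTerm.snd
    · intro h hq i hi
      exact ⟨_, _, V_coe hi, hy h hq i hi, isPair_iff.2 rfl⟩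
  · refine forall_mem (P := fun h a => ∃! b, Has (E h) (Mdl.mk h (hN e c y)) [a, b]) e c ?_ hQ
      ?_ h hq
    · unfold ExistsUnique
      refine BPred.ex (BPred.and ?_ (BPred.all (BPred.imp ?_ ?_)))
      · exact bp_has2 (BTerm.const _) BTerm.id.fst BTerm.snd
      · exact bp_has2 (BTerm.const _) BTerm.id.fst.fst BTerm.snd
      · exact BPred.eq BTerm.snd BTerm.snd.fst
    · intro h hq i hi
      exact ⟨_, (has_hN hs hi).2 rfl, fun b hb => (has_hN hs hi).1 hb⟩

end hN

/-! ### Values of functions -/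

theorem exists_vl (g r : BName B) : ∃ v : BName B, ∀ h : Ult B,
    (∃ z, Has (E h) (Mdl.mk h g) [Mdl.mk h r, z]) →
      Has (E h) (Mdl.mk h g) [Mdl.mk h r, Mdl.mk h v] :=
  exists_wit (P := fun h z => Has (E h) (Mdl.mk h g) [Mdl.mk h r, z])
    (bp_has2 (BTerm.const _) (BTerm.const _) BTerm.id) fun h H => H

/-- The name of the value of the function `g` at `r`. -/
noncomputable def vl (g r : BName B) : BName B := Classical.choose (exists_vl g r)

theorem has_vl {g r : BName B} {h : Ult B} (H : ∃ z, Has (E h) (Mdl.mk h g) [Mdl.mk h r, z]) :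
    Has (E h) (Mdl.mk h g) [Mdl.mk h r, Mdl.mk h (vl g r)] :=
  Classical.choose_spec (exists_vl g r) h H

theorem has_mem {h : Ult B} {f x y a b : Mdl h} (hf : IsFun (E h) f x y)
    (hab : Has (E h) f [a, b]) : E h a x ∧ E h b y := by
  rw [has_iff (by simp)] at hab
  obtain ⟨a', b', ha, hb, hp⟩ := hf.1 _ hab
  rw [isPair_iff] at hp
  obtain ⟨h1, h2⟩ := pr_inj.1 (show pr h a b = pr h a' b' from hp)
  rw [h1, h2]
  exact ⟨ha, hb⟩

theorem has_vl_of {h : Ult B} {g r : BName B} {x y : Mdl h} (hg : IsFun (E h) (Mdl.mk h g) x y)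
    (hr : E h (Mdl.mk h r) x) : Has (E h) (Mdl.mk h g) [Mdl.mk h r, Mdl.mk h (vl g r)] ∧
      E h (Mdl.mk h (vl g r)) y := by
  obtain ⟨z, hz, -⟩ := hg.2 _ hr
  have h1 := has_vl ⟨z, hz⟩
  exact ⟨h1, (has_mem hg h1).2⟩

theorem has_uniq {h : Ult B} {f x y a b b' : Mdl h} (hf : IsFun (E h) f x y)
    (h1 : Has (E h) f [a, b]) (h2 : Has (E h) f [a, b']) : b = b' :=
  (hf.2 a (has_mem hf h1).1).unique h1 h2

/-! ### Finite sequences -/

/-- The empty name. -/
def emp (B : Type u) : BName B := BName.mk PEmpty (fun x => x.elim) (fun x => x.elim)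

theorem not_E_emp {h : Ult B} {z : Mdl h} : ¬ E h z (Mdl.mk h (emp B)) := by
  intro hz
  obtain ⟨z, rfl⟩ := z.exists_rep
  rw [E_mk, emp, bmem_mk, iSup_of_empty] at hz
  exact h.bot hz

theorem isFun_emp {h : Ult B} {F : Mdl h} :
    IsFun (E h) (Mdl.mk h (emp B)) (Mdl.mk h (nN B 0)) F :=
  ⟨fun p hp => (not_E_emp hp).elim, fun a ha => (isEmp_nN_zero h a ha).elim⟩

theorem has_adj {h : Ult B} {s x y : BName B} {a b : Mdl h} :
    Has (E h) (Mdl.mk h (adj s (opair x y))) [a, b] ↔
      Has (E h) (Mdl.mk h s) [a, b] ∨ (a = Mdl.mk h x ∧ b = Mdl.mk h y) := by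
  rw [has_iff (by simp), has_iff (by simp), E_adj]
  refine or_congr Iff.rfl ?_
  exact pr_inj (h := h) (a := a) (b := b) (c := Mdl.mk h x) (d := Mdl.mk h y)

theorem isFun_adj {h : Ult B} {s g : BName B} {n : ℕ} {F : Mdl h}
    (hs : IsFun (E h) (Mdl.mk h s) (Mdl.mk h (nN B n)) F) (hg : E h (Mdl.mk h g) F) :
    IsFun (E h) (Mdl.mk h (adj s (opair (nN B n) g))) (Mdl.mk h (nN B (n + 1))) F := by
  have hn : ¬ E h (Mdl.mk h (nN B n)) (Mdl.mk h (nN B n)) := by
    rw [E_nN_nN]; exact lt_irrefl n
  constructor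
  · intro p hp
    rw [E_adj] at hp
    rcases hp with hp | rfl
    · obtain ⟨a, b, ha, hb, hpab⟩ := hs.1 p hp
      exact ⟨a, b, (E_nN_succ n a).2 (Or.inl ha), hb, hpab⟩
    · exact ⟨_, _, (E_nN_succ n _).2 (Or.inr rfl), hg, isPair_iff.2 rfl⟩
  · intro a ha
    rw [E_nN_succ] at ha
    rcases ha with ha | rfl
    · obtain ⟨b, hb, hb'⟩ := hs.2 a ha
      refine ⟨b, has_adj.2 (Or.inl hb), fun b' h' => ?_⟩
      rcases has_adj.1 h' with h' | h'
      · exact hb' b' h'
      · rw [h'.1] at ha
        exact (hn ha).elim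
    · refine ⟨Mdl.mk h g, has_adj.2 (Or.inr ⟨rfl, rfl⟩), fun b' h' => ?_⟩
      rcases has_adj.1 h' with h' | h'
      · exact (hn (has_mem hs h').1).elim
      · exact h'.2

theorem isRes_uniq {h : Ult B} {s s' f n : Mdl h} (h1 : IsRes (E h) s f n)
    (h2 : IsRes (E h) s' f n) : s = s' := by
  apply Mdl.ext
  intro z
  rw [h1 z, h2 z]

theorem clop_mem (x y : BName B) : Clop (fun h => E h (Mdl.mk h x) (Mdl.mk h y)) :=
  ⟨_, fun _ => E_mk⟩

theorem clop_isFun (f x y : BName B) :
    Clop (fun h => IsFun (E h) (Mdl.mk h f) (Mdl.mk h x) (Mdl.mk h y)) :=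
  (bp_isFun (H := fun h : Ult B => h) (Γ := PUnit.{1}) (BTerm.const f) (BTerm.const x)
    (BTerm.const y)).clop PUnit.unit

/-! ### Products and function sets -/

/-- A name of a set containing all pairs of elements of `K` and `L`. -/
def prodN (K L : BName B) : BName B := spow (spow (sunion (upair K L)))

theorem mem_prodN {K L : BName B} {h : Ult B} {x y : Mdl h} (hx : E h x (Mdl.mk h K))
    (hy : E h y (Mdl.mk h L)) : E h (pr h x y) (Mdl.mk h (prodN K L)) := by
  have hx' : E h x (Mdl.mk h (sunion (upair K L))) :=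
    (E_sunion _ _ _).2 ⟨_, (E_upair _ _ _ _).2 (Or.inl rfl), hx⟩
  have hy' : E h y (Mdl.mk h (sunion (upair K L))) :=
    (E_sunion _ _ _).2 ⟨_, (E_upair _ _ _ _).2 (Or.inr rfl), hy⟩
  refine subset_mem_spow _ _ _ fun s hs => subset_mem_spow _ _ _ fun t ht => ?_
  unfold pr at hs
  rw [E_up] at hs
  rcases hs with rfl | rfl
  · rw [E_up, or_self] at ht
    rw [ht]; exact hx'
  · rw [E_up] at ht
    rcases ht with rfl | rfl
    · exact hx'
    · exact hy'

theorem fun_mem_spow {K L : BName B} {h : Ult B} {f a : Mdl h} (hf : IsFun (E h) f a (Mdl.mk h L))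
    (ha : ∀ z, E h z a → E h z (Mdl.mk h K)) : E h f (Mdl.mk h (spow (prodN K L))) := by
  refine subset_mem_spow _ _ _ fun p hp => ?_
  obtain ⟨x, y, hx, hy, hxy⟩ := hf.1 p hp
  rw [isPair_iff] at hxy
  subst hxy
  exact mem_prodN (ha _ hx) hy

theorem exists_moves (K L : BName B) : ∃ F : BName B, ∀ h : Ult B,
    IsMoves (E h) (Mdl.mk h K) (Mdl.mk h L) (Mdl.mk h F) := by
  obtain ⟨F, hF⟩ := separation_name (H := fun h : Ult B => h)
    (D := fun h z => IsFun (E h) z (Mdl.mk h K) (Mdl.mk h L))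
    (bp_isFun BTerm.id (BTerm.const _) (BTerm.const _)) (spow (prodN K L))
  refine ⟨F, fun h g => ?_⟩
  rw [hF h g]
  exact ⟨fun H => H.2, fun H => ⟨fun_mem_spow H (fun z hz => hz), H⟩⟩

theorem exists_seqSet (F : BName B) : ∃ S : BName B, ∀ h : Ult B,
    IsSeqSet (E h) (Mdl.mk h (omN B)) (Mdl.mk h F) (Mdl.mk h S) := by
  obtain ⟨S, hS⟩ := separation_name (H := fun h : Ult B => h)
    (D := fun h z => ∃ n, E h n (Mdl.mk h (omN B)) ∧ IsFun (E h) z n (Mdl.mk h F))
    (by
      repeat' first
        | exact BMap.id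
        | apply BMap.fst
        | apply BMap.snd
        | exact BTerm.const _
        | apply bterm_opair
        | apply BTerm.of
        | apply BPred.mem
        | apply BPred.eq
        | apply bp_has2
        | apply bp_has3
        | apply bp_eq_pr
        | apply bp_isPair
        | apply bp_isUPair
        | apply bp_isFun
        | apply bp_injects
        | apply BPred.not
        | apply BPred.and
        | apply BPred.or
        | apply BPred.iff
        | apply BPred.imp
        | refine BPred.ex ?_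
        | refine BPred.all ?_
        | exact BPred.const _) (spow (prodN (omN B) F))
  refine ⟨S, fun h g => ?_⟩
  rw [hS h g]
  refine ⟨fun H => H.2, fun H => ⟨?_, H⟩⟩
  obtain ⟨n, hn, hg⟩ := H
  exact fun_mem_spow hg fun z hz => (isOrd_vNset h).1 n z hn hz

/-! ### The even numbers -/

/-- The name of the set of the even numbers. -/
noncomputable def evN (B : Type u) [CompleteBooleanAlgebra B] : BName B :=
  BName.mk {n : ULift.{u} ℕ // Even n.down} (fun n => nN B n.1.down) (fun _ => ⊤)

theorem E_evN {h : Ult B} {k : ℕ} : E h (Mdl.mk h (nN B k)) (Mdl.mk h (evN B)) ↔ Even k := by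
  constructor
  · intro H
    refine forall_full (P := fun h z => z = Mdl.mk h (nN B k) → Even k) _ ?_ ⊤ ?_ h h.top' _ H rfl
    · exact BPred.imp (BPred.eq BTerm.id (BTerm.const _)) (BPred.const _)
    · intro h _ n hn
      rw [← nN_inj.1 hn]
      exact n.2
  · intro H
    exact E_of_full (fun n : {n : ULift.{u} ℕ // Even n.down} => nN B n.1.down) h
      ⟨ULift.up k, H⟩

theorem isEvens (h : Ult B) : IsEvens (E h) (Mdl.mk h (omN B)) (Mdl.mk h (evN B)) := by
  refine ⟨?_, ?_, ?_⟩
  · refine forall_full (P := fun h z => E h z (Mdl.mk h (omN B))) _ ?_ ⊤ ?_ h h.top'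
    · exact BPred.mem BTerm.id (BTerm.const _)
    · intro h _ n
      exact E_nN_om _
  · intro z hz
    rw [eq_of_isEmp hz (isEmp_nN_zero h), E_evN]
    exact Even.zero
  · intro n n' hn hn'
    refine forall_om (P := fun h n => ∀ n', IsSucc (E h) n' n →
      (E h n' (Mdl.mk h (evN B)) ↔ ¬ E h n (Mdl.mk h (evN B)))) ?_ ⊤ ?_ h h.top' n hn n' hn'
    · repeat' first
        | exact BMap.id
        | apply BMap.fst
        | apply BMap.snd
        | exact BTerm.const _
        | apply bterm_opair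
        | apply BTerm.of
        | apply BPred.mem
        | apply BPred.eq
        | apply bp_has2
        | apply bp_has3
        | apply bp_eq_pr
        | apply bp_isPair
        | apply bp_isUPair
        | apply bp_isFun
        | apply bp_injects
        | apply bp_isSucc
        | apply BPred.not
        | apply BPred.and
        | apply BPred.or
        | apply BPred.iff
        | apply BPred.imp
        | refine BPred.ex ?_
        | refine BPred.all ?_
        | exact BPred.const _
    · intro h _ k n' hn'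
      rw [eq_of_isSucc hn' (fun z => E_nN_succ k z), E_evN, E_evN, Nat.even_add_one]

end Pool.Agent.MBG
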