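import Pool.Agent.MBG.M4

/-! The determinacy of a game in the model implies its determinacy in the submodel. -/

set_option linter.unusedVariables false
set_option linter.unusedSectionVars false
set_option linter.unreachableTactic false
set_option linter.unusedTactic false

namespace Pool.Agent.MBG

open BVM BName SetModel MP63050e MPe811a4

universe u v w

variable {B : Type 1} [CompleteBooleanAlgebra B] {P : Type 1} [Preorder P] {em : P → B}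
  {h : Ult B}

theorem ab_upair {p a b : SM h} : IsUPair (ES h) p a b ↔ IsUPair (E h) p.1 a.1 b.1 := by
  constructor
  · intro H z
    constructor
    · intro hz
      have := (H ⟨z, inM_trans p.2 hz⟩).1 hz
      rwa [Subtype.ext_iff, Subtype.ext_iff] at this
    · rintro (rfl | rfl)
      · exact (H a).2 (Or.inl rfl)
      · exact (H b).2 (Or.inr rfl)
  · intro H z
    refine (H z.1).trans ?_
    rw [Subtype.ext_iff, Subtype.ext_iff]

theorem pair_inM {p a b : Mdl h} (hp : InM p) (H : IsPair (E h) p a b) : InM a ∧ InM b := by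
  obtain ⟨s, t, hs, ht, hst⟩ := H
  have hs' : InM s := inM_trans hp ((hst s).2 (Or.inl rfl))
  have ht' : InM t := inM_trans hp ((hst t).2 (Or.inr rfl))
  exact ⟨inM_trans hs' ((hs a).2 (Or.inl rfl)), inM_trans ht' ((ht b).2 (Or.inr rfl))⟩

theorem ab_pair {p a b : SM h} : IsPair (ES h) p a b ↔ IsPair (E h) p.1 a.1 b.1 := by
  constructor
  · rintro ⟨s, t, hs, ht, hst⟩
    exact ⟨s.1, t.1, ab_upair.1 hs, ab_upair.1 ht, ab_upair.1 hst⟩
  · rintro ⟨s, t, hs, ht, hst⟩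
    have hs' : InM s := inM_trans p.2 ((hst s).2 (Or.inl rfl))
    have ht' : InM t := inM_trans p.2 ((hst t).2 (Or.inr rfl))
    exact ⟨⟨s, hs'⟩, ⟨t, ht'⟩, ab_upair.2 hs, ab_upair.2 ht, ab_upair.2 hst⟩

theorem has_pair {M : Type*} {E : M → M → Prop} {R a b : M} :
    Has E R [a, b] ↔ ∃ t, IsPair E t a b ∧ E t R := by
  constructor
  · rintro ⟨t, ⟨s, hs, hp⟩, hR⟩
    have hs : s = b := hs
    subst hs
    exact ⟨t, hp, hR⟩
  · rintro ⟨t, hp, hR⟩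
    exact ⟨t, ⟨b, rfl, hp⟩, hR⟩

theorem has_inM {R a b : Mdl h} (hR : InM R) (H : Has (E h) R [a, b]) : InM a ∧ InM b := by
  rw [has_pair] at H
  obtain ⟨t, hp, ht⟩ := H
  exact pair_inM (inM_trans hR ht) hp

theorem ab_has {R a b : SM h} : Has (ES h) R [a, b] ↔ Has (E h) R.1 [a.1, b.1] := by
  rw [has_pair, has_pair]
  constructor
  · rintro ⟨t, hp, hR⟩
    exact ⟨t.1, ab_pair.1 hp, hR⟩
  · rintro ⟨t, hp, hR⟩
    exact ⟨⟨t, inM_trans R.2 hR⟩, ab_pair.2 hp, hR⟩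

theorem ab_isFun {f x y : SM h} : IsFun (ES h) f x y ↔ IsFun (E h) f.1 x.1 y.1 := by
  constructor
  · rintro ⟨h1, h2⟩
    constructor
    · intro p hp
      obtain ⟨a, b, ha, hb, hab⟩ := h1 ⟨p, inM_trans f.2 hp⟩ hp
      exact ⟨a.1, b.1, ha, hb, ab_pair.1 hab⟩
    · intro a ha
      obtain ⟨b, hb, hb'⟩ := h2 ⟨a, inM_trans x.2 ha⟩ ha
      refine ⟨b.1, ab_has.1 hb, fun c hc => ?_⟩
      have := hb' ⟨c, (has_inM f.2 hc).2⟩ (ab_has.2 hc)
      exact congrArg Subtype.val this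
  · rintro ⟨h1, h2⟩
    constructor
    · intro p hp
      obtain ⟨a, b, ha, hb, hab⟩ := h1 p.1 hp
      exact ⟨⟨a, inM_trans x.2 ha⟩, ⟨b, inM_trans y.2 hb⟩, ha, hb, ab_pair.2 hab⟩
    · intro a ha
      obtain ⟨b, hb, hb'⟩ := h2 a.1 ha
      refine ⟨⟨b, (has_inM f.2 hb).2⟩, ab_has.2 hb, fun c hc => ?_⟩
      exact Subtype.ext (hb' c.1 (ab_has.1 hc))

theorem ab_isTrans {x : SM h} (H : MP63050e.IsTrans (E h) x.1) : MP63050e.IsTrans (ES h) x :=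
  fun y z hy hz => H y.1 z.1 hy hz

theorem ab_isEmp {x : SM h} : IsEmp (ES h) x ↔ IsEmp (E h) x.1 := by
  constructor
  · intro H z hz
    exact H ⟨z, inM_trans x.2 hz⟩ hz
  · intro H z hz
    exact H z.1 hz

theorem ab_isSucc {y x : SM h} : IsSucc (ES h) y x ↔ IsSucc (E h) y.1 x.1 := by
  constructor
  · intro H z
    constructor
    · intro hz
      have := (H ⟨z, inM_trans y.2 hz⟩).1 hz
      rwa [Subtype.ext_iff] at this
    · rintro (hz | rfl)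
      · exact (H ⟨z, inM_trans x.2 hz⟩).2 (Or.inl hz)
      · exact (H x).2 (Or.inr rfl)
  · intro H z
    refine (H z.1).trans ?_
    rw [Subtype.ext_iff]
    exact Iff.rfl

theorem ab_isOmega {w : SM h} (H : IsOmega (E h) w.1) : IsOmega (ES h) w := by
  obtain ⟨⟨h1, h2⟩, ⟨e, he, he'⟩, h3, h4⟩ := H
  refine ⟨⟨ab_isTrans h1, fun y hy => ab_isTrans (h2 y.1 hy)⟩,
    ⟨⟨e, inM_trans w.2 he'⟩, ab_isEmp.2 he, he'⟩, fun x hx => ?_, fun x hx => ?_⟩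
  · obtain ⟨y, hy, hy'⟩ := h3 x.1 hx
    exact ⟨⟨y, inM_trans w.2 hy⟩, hy, ab_isSucc.2 hy'⟩
  · rcases h4 x.1 hx with h5 | ⟨y, hy, hy'⟩
    · exact Or.inl (ab_isEmp.2 h5)
    · exact Or.inr ⟨⟨y, inM_trans w.2 hy⟩, hy, ab_isSucc.2 hy'⟩

/-- Functions between elements of the submodel are elements of the submodel. -/
theorem fun_inM (hem : DenseEmb em) (hA : Approx em) {f x y : Mdl h} (hx : InM x) (hy : InM y)
    (hf : IsFun (E h) f x y) : InM f := by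
  obtain ⟨u, hu, hu'⟩ := exists_union (inM_up hx hy)
  have hux : ∀ z, E h z x → E h z u := fun z hz =>
    (hu' z).2 ⟨x, (E_up x y x).2 (Or.inl rfl), hz⟩
  have huy : ∀ z, E h z y → E h z u := fun z hz =>
    (hu' z).2 ⟨y, (E_up x y y).2 (Or.inr rfl), hz⟩
  obtain ⟨p, hp, hp'⟩ := exists_power hem hA hu
  obtain ⟨q, hq, hq'⟩ := exists_power hem hA hp
  refine inM_subset hq fun t ht => ?_
  obtain ⟨a, b, ha, hb, hab⟩ := hf.1 t ht
  obtain ⟨s, s', hs, hs', hss⟩ := hab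
  refine hq' t fun z hz => ?_
  rcases (hss z).1 hz with rfl | rfl
  · refine hp' z fun z' hz' => ?_
    rcases (hs z').1 hz' with rfl | rfl
    · exact hux _ ha
    · exact hux _ ha
  · refine hp' z fun z' hz' => ?_
    rcases (hs' z').1 hz' with rfl | rfl
    · exact hux _ ha
    · exact huy _ hb

theorem emp_inM {e : Mdl h} (he : IsEmp (E h) e) : InM e :=
  inM_subset (inM_om (h := h)) fun z hz => (he z hz).elim

theorem succ_inM {x y : Mdl h} (hx : InM x) (hy : IsSucc (E h) y x) : InM y := by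
  obtain ⟨u, hu, hu'⟩ := exists_union (inM_up hx (inM_up hx hx))
  refine inM_subset hu fun z hz => (hu' z).2 ?_
  rcases (hy z).1 hz with hz | rfl
  · exact ⟨x, (E_up _ _ _).2 (Or.inl rfl), hz⟩
  · exact ⟨up h z z, (E_up _ _ _).2 (Or.inr rfl), (E_up _ _ _).2 (Or.inl rfl)⟩

theorem res_inM {s f n : Mdl h} (hf : InM f) (hs : IsRes (E h) s f n) : InM s :=
  inM_subset hf fun z hz => ((hs z).1 hz).1

theorem ab_isMoves (hem : DenseEmb em) (hA : Approx em) {K L F : SM h}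
    (H : IsMoves (ES h) K L F) : IsMoves (E h) K.1 L.1 F.1 := by
  intro g
  constructor
  · intro hg
    exact ab_isFun.1 ((H ⟨g, inM_trans F.2 hg⟩).1 hg)
  · intro hg
    exact (H ⟨g, fun_inM hem hA K.2 L.2 hg⟩).2 (ab_isFun.2 hg)

theorem ab_isSeqSet (hem : DenseEmb em) (hA : Approx em) {w F S : SM h}
    (H : IsSeqSet (ES h) w F S) : IsSeqSet (E h) w.1 F.1 S.1 := by
  intro s
  constructor
  · intro hs
    obtain ⟨n, hn, hn'⟩ := (H ⟨s, inM_trans S.2 hs⟩).1 hs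
    exact ⟨n.1, hn, ab_isFun.1 hn'⟩
  · rintro ⟨n, hn, hn'⟩
    have h1 : InM n := inM_trans w.2 hn
    exact (H ⟨s, fun_inM hem hA h1 F.2 hn'⟩).2 ⟨⟨n, h1⟩, hn,
      (ab_isFun (h := h) (f := ⟨s, fun_inM hem hA h1 F.2 hn'⟩) (x := ⟨n, h1⟩)).2 hn'⟩

theorem ab_isEvens {w X : SM h} (H : IsEvens (ES h) w X) : IsEvens (E h) w.1 X.1 := by
  obtain ⟨h1, h2, h3⟩ := H
  refine ⟨fun n hn => h1 ⟨n, inM_trans X.2 hn⟩ hn,
    fun e he => h2 ⟨e, emp_inM he⟩ (ab_isEmp.2 he), fun n n' hn hn' => ?_⟩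
  have h4 : InM n := inM_trans w.2 hn
  exact h3 ⟨n, h4⟩ ⟨n', succ_inM h4 hn'⟩ hn (ab_isSucc.2 hn')

theorem ab_isRes {s f n : SM h} : IsRes (ES h) s f n ↔ IsRes (E h) s.1 f.1 n.1 := by
  constructor
  · intro H p
    constructor
    · intro hp
      obtain ⟨h1, a, b, ha, hab⟩ := (H ⟨p, inM_trans s.2 hp⟩).1 hp
      exact ⟨h1, a.1, b.1, ha, ab_pair.1 hab⟩
    · rintro ⟨h1, a, b, ha, hab⟩
      have hp := inM_trans f.2 h1
      obtain ⟨ha', hb'⟩ := pair_inM hp hab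
      exact (H ⟨p, hp⟩).2 ⟨h1, ⟨a, ha'⟩, ⟨b, hb'⟩, ha,
        (ab_pair (p := ⟨p, hp⟩) (a := ⟨a, ha'⟩) (b := ⟨b, hb'⟩)).2 hab⟩
  · intro H p
    refine (H p.1).trans (and_congr Iff.rfl ?_)
    constructor
    · rintro ⟨a, b, ha, hab⟩
      obtain ⟨ha', hb'⟩ := pair_inM p.2 hab
      exact ⟨⟨a, ha'⟩, ⟨b, hb'⟩, ha, (ab_pair (a := ⟨a, ha'⟩) (b := ⟨b, hb'⟩)).2 hab⟩
    · rintro ⟨a, b, ha, hab⟩
      exact ⟨a.1, b.1, ha, ab_pair.1 hab⟩

theorem ab_followsOne {X σ f : SM h} (H : FollowsOne (ES h) X σ f) :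
    FollowsOne (E h) X.1 σ.1 f.1 := by
  intro n s g hn hs hg
  exact ab_has.1 (H ⟨n, inM_trans X.2 hn⟩ ⟨s, res_inM f.2 hs⟩ ⟨g, (has_inM f.2 hg).2⟩ hn
    (ab_isRes.2 hs) (ab_has.2 hg))

theorem ab_followsTwo {w X τ f : SM h} (H : FollowsTwo (ES h) w X τ f) :
    FollowsTwo (E h) w.1 X.1 τ.1 f.1 := by
  intro n s g hn hn' hs hg
  exact ab_has.1 (H ⟨n, inM_trans w.2 hn⟩ ⟨s, res_inM f.2 hs⟩ ⟨g, (has_inM f.2 hg).2⟩ hn hn'
    (ab_isRes.2 hs) (ab_has.2 hg))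

theorem ab_isBoard {w L f r x : SM h} :
    IsBoard (ES h) w L f r x ↔ IsBoard (E h) w.1 L.1 f.1 r.1 x.1 := by
  refine and_congr ab_isFun ?_
  constructor
  · intro H n g v hn hg
    obtain ⟨h1, h2⟩ := has_inM f.2 hn
    exact ab_has.1 (H ⟨n, h1⟩ ⟨g, h2⟩ ⟨v, (has_inM h2 hg).2⟩ (ab_has.2 hn) (ab_has.2 hg))
  · intro H n g v hn hg
    exact ab_has.2 (H n.1 g.1 v.1 (ab_has.1 hn) (ab_has.1 hg))

theorem ab_oneWins (hem : DenseEmb em) (hA : Approx em) {w L K F S X A : SM h}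
    (H : OneWins (E h) w.1 L.1 K.1 F.1 S.1 X.1 A.1) : OneWins (ES h) w L K F S X A := by
  obtain ⟨σ, hσ, hwin⟩ := H
  have hσM : InM σ := fun_inM hem hA S.2 F.2 hσ
  refine ⟨⟨σ, hσM⟩, (ab_isFun (f := ⟨σ, hσM⟩)).2 hσ, fun f hf hfol => ?_⟩
  obtain ⟨r, x, hr, hx, hxA⟩ := hwin f.1 (ab_isFun.1 hf) (ab_followsOne hfol)
  have hrM : InM r := inM_trans K.2 hr
  have hxM : InM x := fun_inM hem hA w.2 L.2 hx.1
  exact ⟨⟨r, hrM⟩, ⟨x, hxM⟩, hr, (ab_isBoard (r := ⟨r, hrM⟩) (x := ⟨x, hxM⟩)).2 hx, hxA⟩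

theorem ab_twoWins (hem : DenseEmb em) (hA : Approx em) {w L K F S X A : SM h}
    (H : TwoWins (E h) w.1 L.1 K.1 F.1 S.1 X.1 A.1) : TwoWins (ES h) w L K F S X A := by
  obtain ⟨τ, hτ, hwin⟩ := H
  have hτM : InM τ := fun_inM hem hA S.2 F.2 hτ
  refine ⟨⟨τ, hτM⟩, (ab_isFun (f := ⟨τ, hτM⟩)).2 hτ, fun f hf hfol r x hr hx hxA => ?_⟩
  exact hwin f.1 (ab_isFun.1 hf) (ab_followsTwo hfol) r.1 x.1 hr (ab_isBoard.1 hx) hxA

theorem ab_determined (hem : DenseEmb em) (hA : Approx em) {w L K A : SM h}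
    (H : Determined (E h) w.1 L.1 K.1 A.1) : Determined (ES h) w L K A := by
  intro F S X hF hS hX
  rcases H F.1 S.1 X.1 (ab_isMoves hem hA hF) (ab_isSeqSet hem hA hS) (ab_isEvens hX) with h1 | h1
  · exact Or.inl (ab_oneWins hem hA h1)
  · exact Or.inr (ab_twoWins hem hA h1)

end Pool.Agent.MBG
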