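import Pool.Agent.MBG.X1
import Pool.Agent.MBG.GF

/-! Assembly: all games are determined in the submodel, for enough boards. -/

set_option linter.unusedVariables false
set_option linter.unusedSectionVars false
set_option linter.unreachableTactic false
set_option linter.unusedTactic false

namespace Pool.Agent.MBG

open BVM BName SetModel MP63050e MPe811a4 Cardinal

universe u v w

section

variable {B : Type u} [CompleteBooleanAlgebra B] {J : Type*} {H : J → Ult B} {Γ : Type v}
  [BSet B Γ] {f1 f2 f3 f4 f5 f6 f7 : Γ → BName B}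

theorem bp_oneWins (h1 : BTerm f1) (h2 : BTerm f2) (h3 : BTerm f3) (h4 : BTerm f4)
    (h5 : BTerm f5) (h6 : BTerm f6) (h7 : BTerm f7) :
    BPred H (fun j γ => OneWins (E (H j)) (Mdl.mk _ (f1 γ)) (Mdl.mk _ (f2 γ)) (Mdl.mk _ (f3 γ))
      (Mdl.mk _ (f4 γ)) (Mdl.mk _ (f5 γ)) (Mdl.mk _ (f6 γ)) (Mdl.mk _ (f7 γ))) := by
  unfold OneWins FollowsOne IsRes IsBoard
  repeat' first
    | exact BMap.id
    | apply BMap.fst
    | apply BMap.snd
    | apply BTerm.cmp h1
    | apply BTerm.cmp h2
    | apply BTerm.cmp h3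
    | apply BTerm.cmp h4
    | apply BTerm.cmp h5
    | apply BTerm.cmp h6
    | apply BTerm.cmp h7
    | exact BTerm.const _
    | apply bterm_opair
    | apply BTerm.of
    | apply BPred.mem
    | apply BPred.eq
    | apply bp_has2
    | apply bp_has3
    | apply bp_eq_pr
    | apply bp_isPair
    | apply bp_isUPair
    | apply bp_isFun
    | apply BPred.not
    | apply BPred.and
    | apply BPred.or
    | apply BPred.iff
    | apply BPred.imp
    | refine BPred.ex ?_
    | refine BPred.all ?_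
    | exact BPred.const _

theorem bp_twoWins (h1 : BTerm f1) (h2 : BTerm f2) (h3 : BTerm f3) (h4 : BTerm f4)
    (h5 : BTerm f5) (h6 : BTerm f6) (h7 : BTerm f7) :
    BPred H (fun j γ => TwoWins (E (H j)) (Mdl.mk _ (f1 γ)) (Mdl.mk _ (f2 γ)) (Mdl.mk _ (f3 γ))
      (Mdl.mk _ (f4 γ)) (Mdl.mk _ (f5 γ)) (Mdl.mk _ (f6 γ)) (Mdl.mk _ (f7 γ))) := by
  unfold TwoWins FollowsTwo IsRes IsBoard
  repeat' first
    | exact BMap.id
    | apply BMap.fst
    | apply BMap.snd
    | apply BTerm.cmp h1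
    | apply BTerm.cmp h2
    | apply BTerm.cmp h3
    | apply BTerm.cmp h4
    | apply BTerm.cmp h5
    | apply BTerm.cmp h6
    | apply BTerm.cmp h7
    | exact BTerm.const _
    | apply bterm_opair
    | apply BTerm.of
    | apply BPred.mem
    | apply BPred.eq
    | apply bp_has2
    | apply bp_has3
    | apply bp_eq_pr
    | apply bp_isPair
    | apply bp_isUPair
    | apply bp_isFun
    | apply BPred.not
    | apply BPred.and
    | apply BPred.or
    | apply BPred.iff
    | apply BPred.imp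
    | refine BPred.ex ?_
    | refine BPred.all ?_
    | exact BPred.const _

theorem bp_determined (h1 : BTerm f1) (h2 : BTerm f2) (h3 : BTerm f3) (h4 : BTerm f4) :
    BPred H (fun j γ => Determined (E (H j)) (Mdl.mk _ (f1 γ)) (Mdl.mk _ (f2 γ))
      (Mdl.mk _ (f3 γ)) (Mdl.mk _ (f4 γ))) := by
  unfold Determined IsMoves IsSeqSet IsEvens IsEmp IsSucc
  repeat' first
    | exact BMap.id
    | apply BMap.fst
    | apply BMap.snd
    | apply BTerm.cmp h1
    | apply BTerm.cmp h2
    | apply BTerm.cmp h3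
    | apply BTerm.cmp h4
    | exact BTerm.const _
    | apply bterm_opair
    | apply BTerm.of
    | apply BPred.mem
    | apply BPred.eq
    | apply bp_oneWins
    | apply bp_twoWins
    | apply bp_has2
    | apply bp_has3
    | apply bp_eq_pr
    | apply bp_isPair
    | apply bp_isUPair
    | apply bp_isFun
    | apply BPred.not
    | apply BPred.and
    | apply BPred.or
    | apply BPred.iff
    | apply BPred.imp
    | refine BPred.ex ?_
    | refine BPred.all ?_
    | exact BPred.const _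

end

section

variable {B : Type 1} [CompleteBooleanAlgebra B] {P : Type 1} [Preorder P] {em : P → B}

/-- The forcing contains structures for the game argument of arbitrarily large small sizes. -/
def Rich (em : P → B) : Prop :=
  ∀ (I : Type 1) [Small.{0} I], ∃ (T Th : Type 1) (_ : LinearOrder T) (_ : WellFoundedLT T)
    (_ : LinearOrder Th) (_ : WellFoundedLT Th) (_ : Small.{0} Th), #I ≤ #Th ∧
      Infinite Th ∧ Nonempty (GF em T Th)

/-- The game argument. -/
def GameThm (em : P → B) : Prop :=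
  ∀ (T Th : Type 1) [LinearOrder T] [WellFoundedLT T] [LinearOrder Th] [WellFoundedLT Th],
    GF em T Th → Infinite Th → ∀ (ι : Type 1) (e : ι → BName B) (c : ι → B), Sep e c →
      #ι ≤ #Th →
      ∀ (A : BName B) (h : Ult B), (∃ r, E h r (Mdl.mk h (BName.mk ι e c))) →
        Determined (E h) (Mdl.mk h (omN B)) (Mdl.mk h (BName.mk ι e c)) (Mdl.mk h (vNset B Th))
          (Mdl.mk h A)

theorem exists_boards (hem : DenseEmb em) (hR : Rich em) (hG : GameThm em) {h : Ult B} {L : Mdl h}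
    (hL : InM L) (hne : ∃ x, E h x L) : ∃ K, InM K ∧ (∃ r, E h r K) ∧
      ∀ A, Determined (E h) (Mdl.mk h (omN B)) L K A := by
  refine forall_full (P := fun h L => (∃ x, E h x L) → ∃ K, InM K ∧ (∃ r, E h r K) ∧
    ∀ A, Determined (E h) (Mdl.mk h (omN B)) L K A) (SName.emb : SName B → BName B) ?_ ⊤ ?_
    h h.top' L hL hne
  · refine BPred.imp (BPred.ex (BPred.mem BTerm.snd BTerm.id.fst)) (BPred.ex (BPred.and
      (bp_inM BTerm.snd) (BPred.and (BPred.ex (BPred.mem BTerm.snd BTerm.snd.fst))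
      (BPred.all ?_))))
    exact bp_determined (BTerm.const _) BTerm.id.fst.fst BTerm.snd.fst BTerm.snd
  · rintro h - ⟨ι, a, b⟩ hne
    obtain ⟨c, h1, h2⟩ := exists_nice' (SName.mk ι a b).emb
    have hsm : Small.{0} (SName.mk ι a b).emb.Idx := (inferInstance : Small.{0} (ULift.{1} ι))
    obtain ⟨T, Th, i1, i2, i3, i4, i5, h3, hinf, ⟨G⟩⟩ := hR (SName.mk ι a b).emb.Idx
    rw [← h1 h] at hne ⊢
    refine ⟨Mdl.mk h (vNset B Th), (isS_vNset Th).inM, ?_, fun A => ?_⟩
    · obtain ⟨p, -⟩ := hem.dense (⊤ : B) (h.ne_bot h.top')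
      obtain ⟨r, -⟩ := G.ow_fresh p
      exact ⟨_, E_vN_vNset r⟩
    · obtain ⟨A, rfl⟩ := A.exists_rep
      exact hG T Th G hinf _ _ c h2 h3 A h hne

theorem holds_of (hem : DenseEmb em) (hF : Fusion em) (hA : Approx em) (hR : Rich em)
    (hG : GameThm em) (h : Ult B) :
    ∃ (M : Type 2) (E : M → M → Prop), IsModelZFC E ∧ ∃ w, IsOmega E w ∧
      ∀ L, (∃ a b, E a L ∧ E b L ∧ a ≠ b) → ∃ K, (∃ r, E r K) ∧ ∀ A, Determined E w L K A := by
  refine ⟨SM h, ES h, sm_zfc hem hF hA h, ⟨Mdl.mk h (omN B), inM_om⟩, ab_isOmega (isOmega h), ?_⟩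
  rintro L ⟨a, b, ha, -, -⟩
  obtain ⟨K, hK, ⟨r, hr⟩, hdet⟩ := exists_boards hem hR hG L.2 ⟨a.1, ha⟩
  refine ⟨⟨K, hK⟩, ⟨⟨r, inM_trans hK hr⟩, hr⟩, fun A => ?_⟩
  exact ab_determined hem hA (K := ⟨K, hK⟩) (hdet A.1)

end

end Pool.Agent.MBG
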