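import Pool.Agent.MBG.X2
import Pool.Agent.MBG.C7
import Pool.Agent.MBG.G5

/-! The model in which multiboard games are determined on enough boards. -/

set_option linter.unusedVariables false
set_option linter.unusedSectionVars false

namespace Pool.Agent.MBG

open BVM BName SetModel MP63050e MPe811a4 Cardinal

/-- A model of ZFC in which multiboard games are determined on enough boards. -/
theorem exists_model :
    ∃ (M : Type 2) (E : M → M → Prop), IsModelZFC E ∧ ∃ w, IsOmega E w ∧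
      ∀ L, (∃ a b, E a L ∧ E b L ∧ a ≠ b) → ∃ K, (∃ r, E r K) ∧ ∀ A, Determined E w L K A := by
  obtain ⟨B, iB, P, iP, em, hem, ⟨p₀⟩, h1, h2, h3⟩ := PC.exists_forcing
  obtain ⟨h, -⟩ := Ult.exists_of_ne_bot (hem.ne_bot p₀)
  refine holds_of hem ?_ h2 ?_ (fun T Th _ _ _ _ G hinf ι e c hs hι A h hL =>
    game hem G (Cardinal.aleph0_le_mk Th) hs hι A h hL) h
  · intro J _ D hd ho p
    obtain ⟨q, hq, W, hW, v, hv1, hv2⟩ := h1 J D ho hd p
    exact ⟨q, hq, W, hW, v, fun j => ⟨fun t => hv1 j t, hv2 j⟩⟩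
  · intro I _
    obtain ⟨T, Th, i1, i2, i3, i4, i5, h4, hinf, -, h5⟩ := h3 I
    exact ⟨T, Th, i1, i2, i3, i4, i5, h4, hinf, h5⟩

end Pool.Agent.MBG
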